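import Pool.Agent.H48SC.PLem

/-!
# Interpolation: T(p) = 15/8 Phi(-1/2) - 5/4 Phi(-3/2) + 3/8 Phi(-5/2) mod p^3
-/

namespace H48SC

open Finset

variable {p : ℕ} [Fact p.Prime]

/-- `f al = A + B p al + C p^2 al^2` mod `p^3` for all `p`-integral `al`, with `f 0 = A` mod
`p^3` as a consequence. -/
def QP (p : ℕ) [Fact p.Prime] (f : ℚ → ℚ) : Prop :=
  ∃ A ∈ ZL p, ∃ B ∈ ZL p, ∃ C ∈ ZL p, ∀ al ∈ ZL p,
    Cg p 3 (f al) (A + B * p * al + C * p ^ 2 * al ^ 2)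

theorem QP.lin {x y : ℚ} (hx : x ∈ ZL p) (hy : y ∈ ZL p) : QP p (fun al => x + al * y * p) :=
  ⟨x, hx, y, hy, 0, zero_mem _, fun al _ => Cg.of_eq (by ring)⟩

private theorem QP.const {x : ℚ} (hx : x ∈ ZL p) : QP p (fun _ => x) :=
  ⟨x, hx, 0, zero_mem _, 0, zero_mem _, fun al _ => Cg.of_eq (by ring)⟩

private theorem quad_mem {A B C al : ℚ} (hA : A ∈ ZL p) (hB : B ∈ ZL p) (hC : C ∈ ZL p)
    (ha : al ∈ ZL p) : A + B * p * al + C * p ^ 2 * al ^ 2 ∈ ZL p :=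
  add_mem (add_mem hA (mul_mem (mul_mem hB (nat_mem p)) ha))
    (mul_mem (mul_mem hC (pow_mem (nat_mem p) 2)) (pow_mem ha 2))

private theorem QP.add {f g : ℚ → ℚ} (hf : QP p f) (hg : QP p g) :
    QP p (fun al => f al + g al) := by
  obtain ⟨A, hA, B, hB, C, hC, h⟩ := hf
  obtain ⟨A', hA', B', hB', C', hC', h'⟩ := hg
  refine ⟨A + A', add_mem hA hA', B + B', add_mem hB hB', C + C', add_mem hC hC', ?_⟩
  intro al ha
  exact ((h al ha).add (h' al ha)).trans (Cg.of_eq (by ring))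

theorem QP.mul {f g : ℚ → ℚ} (hf : QP p f) (hg : QP p g) : QP p (fun al => f al * g al) := by
  obtain ⟨A, hA, B, hB, C, hC, h⟩ := hf
  obtain ⟨A', hA', B', hB', C', hC', h'⟩ := hg
  refine ⟨A * A', mul_mem hA hA', A * B' + B * A', add_mem (mul_mem hA hB') (mul_mem hB hA'),
    A * C' + B * B' + C * A', add_mem (add_mem (mul_mem hA hC') (mul_mem hB hB')) (mul_mem hC hA'),
    ?_⟩
  intro al ha
  refine ((h al ha).mul (h' al ha) ((h al ha).mem (quad_mem hA hB hC ha))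
    (quad_mem hA' hB' hC' ha)).trans ?_
  refine ⟨(B * C' + C * B') * al ^ 3 + C * C' * p * al ^ 4, ?_, by ring⟩
  exact add_mem (mul_mem (add_mem (mul_mem hB hC') (mul_mem hC hB')) (pow_mem ha 3))
    (mul_mem (mul_mem (mul_mem hC hC') (nat_mem p)) (pow_mem ha 4))

/-- `1/(x+w) - (1/x - w/x^2 + w^2/x^3) = - w^3/(x^3 (x+w))` with `w = al y p`. -/
theorem QP.inv_lin {x y : ℚ} (hx : Un p x) (hy : y ∈ ZL p) :
    QP p (fun al => (x + al * y * p)⁻¹) := by
  refine ⟨x⁻¹, hx.inv_mem, -(y * x⁻¹ ^ 2), neg_mem (mul_mem hy (pow_mem hx.inv_mem 2)),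
    y ^ 2 * x⁻¹ ^ 3, mul_mem (pow_mem hy 2) (pow_mem hx.inv_mem 3), ?_⟩
  intro al ha
  have e : x + al * y * p = x + p * (al * y) := by ring
  have hu : Un p (x + al * y * p) := by
    rw [e]
    exact hx.add_p (mul_mem ha hy)
  refine ⟨-((al * y) ^ 3 * x⁻¹ ^ 3 * (x + al * y * p)⁻¹), neg_mem (mul_mem (mul_mem
    (pow_mem (mul_mem ha hy) 3) (pow_mem hx.inv_mem 3)) hu.inv_mem), ?_⟩
  have h1 := hx.ne
  have h2 := hu.ne
  field_simp
  ring

theorem QP.prod {ι : Type} (s : Finset ι) (f : ι → ℚ → ℚ) (h : ∀ i ∈ s, QP p (f i)) :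
    QP p (fun al => ∏ i ∈ s, f i al) := by
  classical
  induction s using Finset.induction_on with
  | empty => simpa using QP.const (p := p) (one_mem _)
  | insert a s ha ih =>
    have h1 := (h a (mem_insert_self a s)).mul (ih fun i hi => h i (mem_insert_of_mem hi))
    have e : (fun al => ∏ i ∈ insert a s, f i al) = fun al => f a al * ∏ i ∈ s, f i al := by
      funext al
      rw [Finset.prod_insert ha]
    rw [e]
    exact h1

theorem QP.sum {ι : Type} (s : Finset ι) (f : ι → ℚ → ℚ) (h : ∀ i ∈ s, QP p (f i)) :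
    QP p (fun al => ∑ i ∈ s, f i al) := by
  classical
  induction s using Finset.induction_on with
  | empty => simpa using QP.const (p := p) (zero_mem _)
  | insert a s ha ih =>
    have h1 := (h a (mem_insert_self a s)).add (ih fun i hi => h i (mem_insert_of_mem hi))
    have e : (fun al => ∑ i ∈ insert a s, f i al) = fun al => f a al + ∑ i ∈ s, f i al := by
      funext al
      rw [Finset.sum_insert ha]
    rw [e]
    exact h1

private theorem not_dvd_of_lt (hp : 5 < p) {m : ℕ} (h0 : 0 < m) (h : m ≤ 5) : ¬ p ∣ m :=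
  fun hd => absurd (Nat.le_of_dvd h0 hd) (by omega)

private theorem half_mem (hp : 5 < p) : (1 / 2 : ℚ) ∈ ZL p := by
  have h := (un_nat (p := p) (m := 2) (not_dvd_of_lt hp (by norm_num) (by norm_num))).inv_mem
  have e : ((2 : ℕ) : ℚ)⁻¹ = 1 / 2 := by norm_num
  rwa [e] at h

/-- Every term of `Phi` is a product of functions `al ↦ 1/2 + s + al p`,
`al ↦ (1 + s + al p/2)⁻¹` (`s < p-1`) and the constants `(j!)⁻¹`, `(125^j)⁻¹` (`j < p`). -/
theorem QP_Phi (hp : 5 < p) : QP p (Phi p) := by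
  have hpp : p.Prime := Fact.out
  have key : ∀ j ∈ range p, QP p (fun al => (∏ s ∈ range (3 * j), (1 / 2 + (s : ℚ) + al * 1 * p)) *
      ((∏ s ∈ range j, (1 + (s : ℚ) + al * (1 / 2) * p)⁻¹) *
        (∏ s ∈ range j, (1 + (s : ℚ) + al * (1 / 2) * p)⁻¹) *
        (((j.factorial : ℕ) : ℚ)⁻¹ * (((125 : ℕ) : ℚ)⁻¹) ^ j))) := by
    intro j hj
    have hj' : j < p := mem_range.1 hj
    have h1 : QP p (fun al => ∏ s ∈ range (3 * j), (1 / 2 + (s : ℚ) + al * 1 * p)) :=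
      QP.prod _ (fun (s : ℕ) (al : ℚ) => 1 / 2 + (s : ℚ) + al * 1 * p) fun s _ =>
        QP.lin (add_mem (half_mem hp) (nat_mem s)) (one_mem _)
    have h2 : QP p (fun al => ∏ s ∈ range j, (1 + (s : ℚ) + al * (1 / 2) * p)⁻¹) :=
      QP.prod _ (fun (s : ℕ) (al : ℚ) => (1 + (s : ℚ) + al * (1 / 2) * p)⁻¹) fun s hs =>
        QP.inv_lin (un_one_add (by have := mem_range.1 hs; omega)) (half_mem hp)
    have h3 : ((j.factorial : ℕ) : ℚ)⁻¹ ∈ ZL p :=
      (un_nat (fun hd => absurd ((Nat.Prime.dvd_factorial hpp).1 hd) (by omega))).inv_mem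
    have h4 : ((125 : ℕ) : ℚ)⁻¹ ∈ ZL p := by
      refine (un_nat (fun hd => ?_)).inv_mem
      have h5 : p ∣ 5 ^ 3 := by norm_num; exact hd
      exact not_dvd_of_lt hp (by norm_num) (le_refl 5) (hpp.dvd_of_dvd_pow h5)
    exact h1.mul ((h2.mul h2).mul (QP.const (mul_mem h3 (pow_mem h4 j))))
  have h := QP.sum (range p) _ key
  have e : Phi p = fun al => ∑ j ∈ range p, ((∏ s ∈ range (3 * j), (1 / 2 + (s : ℚ) + al * 1 * p)) *
      ((∏ s ∈ range j, (1 + (s : ℚ) + al * (1 / 2) * p)⁻¹) *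
        (∏ s ∈ range j, (1 + (s : ℚ) + al * (1 / 2) * p)⁻¹) *
        (((j.factorial : ℕ) : ℚ)⁻¹ * (((125 : ℕ) : ℚ)⁻¹) ^ j))) := by
    funext al
    unfold Phi
    refine Finset.sum_congr rfl fun j _ => ?_
    have e1 : P (1 / 2 + al * p) (3 * j) = ∏ s ∈ range (3 * j), (1 / 2 + (s : ℚ) + al * 1 * p) := by
      unfold P
      exact Finset.prod_congr rfl fun s _ => by ring
    have e2 : (P (1 + al / 2 * p) j)⁻¹ =
        ∏ s ∈ range j, (1 + (s : ℚ) + al * (1 / 2) * p)⁻¹ := by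
      unfold P
      rw [Finset.prod_inv_distrib]
      congr 1
      exact Finset.prod_congr rfl fun s _ => by ring
    rw [e1, div_eq_mul_inv, mul_inv, mul_inv, ← inv_pow, e2, ← inv_pow]
    push_cast
    ring
  rw [e]
  exact h

theorem Phi_mem (hp : 5 < p) {al : ℚ} (ha : al ∈ ZL p) : Phi p al ∈ ZL p := by
  obtain ⟨A, hA, B, hB, C, hC, h⟩ := QP_Phi (p := p) hp
  exact (h al ha).mem (quad_mem hA hB hC ha)

/-- `(1/2)_{3j} = (6j)!/(64^j (3j)!)` (`P_half`), so the term is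
`(6j)!/((3j)! j!^3 8000^j) = C(2j,j) C(3j,j) C(6j,3j)/20^(3j)`. -/
theorem Phi_zero : Phi p 0 = TT p := by
  unfold Phi TT
  refine Finset.sum_congr rfl fun j _ => ?_
  rw [zero_mul, add_zero, zero_div, zero_mul, add_zero, P_one]
  have h1 := P_half (3 * j)
  have c1 := Nat.choose_mul_factorial_mul_factorial (n := 2 * j) (k := j) (by omega)
  have c2 := Nat.choose_mul_factorial_mul_factorial (n := 3 * j) (k := j) (by omega)
  have c3 := Nat.choose_mul_factorial_mul_factorial (n := 6 * j) (k := 3 * j) (by omega)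
  rw [show 2 * j - j = j by omega] at c1
  rw [show 3 * j - j = 2 * j by omega] at c2
  rw [show 6 * j - 3 * j = 3 * j by omega] at c3
  rw [show 2 * (3 * j) = 6 * j by ring] at h1
  have c1' : ((Nat.choose (2 * j) j : ℕ) : ℚ) * (j.factorial : ℚ) * (j.factorial : ℚ) =
    ((2 * j).factorial : ℚ) := by exact_mod_cast c1
  have c2' : ((Nat.choose (3 * j) j : ℕ) : ℚ) * (j.factorial : ℚ) * ((2 * j).factorial : ℚ) =
    ((3 * j).factorial : ℚ) := by exact_mod_cast c2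
  have c3' : ((Nat.choose (6 * j) (3 * j) : ℕ) : ℚ) * ((3 * j).factorial : ℚ) *
    ((3 * j).factorial : ℚ) = ((6 * j).factorial : ℚ) := by exact_mod_cast c3
  have f1 : (j.factorial : ℚ) ≠ 0 := by exact_mod_cast j.factorial_ne_zero
  have f2 : ((2 * j).factorial : ℚ) ≠ 0 := by exact_mod_cast (2 * j).factorial_ne_zero
  have f3 : ((3 * j).factorial : ℚ) ≠ 0 := by exact_mod_cast (3 * j).factorial_ne_zero
  have hP : P (1 / 2) (3 * j) = ((6 * j).factorial : ℚ) / (4 ^ (3 * j) * ((3 * j).factorial : ℚ)) := by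
    rw [eq_div_iff (mul_ne_zero (pow_ne_zero _ (by norm_num)) f3)]
    exact h1
  have k1 : ((Nat.choose (2 * j) j : ℕ) : ℚ) = ((2 * j).factorial : ℚ) / (j.factorial : ℚ) ^ 2 := by
    rw [eq_div_iff (pow_ne_zero _ f1), ← c1']
    ring
  have k2 : ((Nat.choose (3 * j) j : ℕ) : ℚ) =
      ((3 * j).factorial : ℚ) / ((j.factorial : ℚ) * ((2 * j).factorial : ℚ)) := by
    rw [eq_div_iff (mul_ne_zero f1 f2), ← c2']
    ring
  have k3 : ((Nat.choose (6 * j) (3 * j) : ℕ) : ℚ) =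
      ((6 * j).factorial : ℚ) / ((3 * j).factorial : ℚ) ^ 2 := by
    rw [eq_div_iff (pow_ne_zero _ f3), ← c3']
    ring
  have h20 : (20 : ℚ) ^ (3 * j) = 4 ^ (3 * j) * 125 ^ j := by
    rw [pow_mul, pow_mul, ← mul_pow]
    norm_num
  have h4 : (4 : ℚ) ^ (3 * j) ≠ 0 := pow_ne_zero _ (by norm_num)
  have h125 : (125 : ℚ) ^ j ≠ 0 := pow_ne_zero _ (by norm_num)
  rw [hP, k1, k2, k3, h20]
  field_simp

/-- `15/8 - 5/4 + 3/8 = 1` and, with `al_k = -1/2, -3/2, -5/2`,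
`15/8 al_0 - 5/4 al_1 + 3/8 al_2 = 0`, `15/8 al_0^2 - 5/4 al_1^2 + 3/8 al_2^2 = 0`. -/
theorem interp (hp : 5 < p) :
    Cg p 3 (TT p) (15 / 8 * Phi p (alk 0) - 5 / 4 * Phi p (alk 1) + 3 / 8 * Phi p (alk 2)) := by
  obtain ⟨A, hA, B, hB, C, hC, h⟩ := QP_Phi (p := p) hp
  have hh := half_mem (p := p) hp
  have hk : ∀ k : ℕ, alk k ∈ ZL p := by
    intro k
    have e : alk k = -(1 / 2) - (k : ℚ) := by
      unfold alk
      ring
    rw [e]
    exact sub_mem (neg_mem hh) (nat_mem k)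
  have m1 : (15 / 8 : ℚ) ∈ ZL p := by
    have e : (15 / 8 : ℚ) = ((15 : ℕ) : ℚ) * (1 / 2) ^ 3 := by norm_num
    rw [e]
    exact mul_mem (nat_mem 15) (pow_mem hh 3)
  have m2 : (5 / 4 : ℚ) ∈ ZL p := by
    have e : (5 / 4 : ℚ) = ((5 : ℕ) : ℚ) * (1 / 2) ^ 2 := by norm_num
    rw [e]
    exact mul_mem (nat_mem 5) (pow_mem hh 2)
  have m3 : (3 / 8 : ℚ) ∈ ZL p := by
    have e : (3 / 8 : ℚ) = ((3 : ℕ) : ℚ) * (1 / 2) ^ 3 := by norm_num
    rw [e]
    exact mul_mem (nat_mem 3) (pow_mem hh 3)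
  have h0 := h 0 (zero_mem _)
  rw [Phi_zero] at h0
  have h1 := (((h _ (hk 0)).mul_left _ m1).sub ((h _ (hk 1)).mul_left _ m2)).add
    ((h _ (hk 2)).mul_left _ m3)
  refine h0.trans (Cg.trans (Cg.of_eq ?_) h1.symm)
  unfold alk
  push_cast
  ring

end H48SC
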