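import Pool.Agent.H48SC.Cubic

/-!
# The two sides of the cubic transformation for N = k p + (p-1)/2
-/

namespace H48SC

open Finset

variable {p : ℕ} [Fact p.Prime]

private theorem two_nn (hp : 5 < p) : 2 * nn p + 1 = p := by
  have h1 : p.Prime := Fact.out
  rcases h1.eq_two_or_odd with h | h
  · omega
  · unfold nn
    omega

/-- `cubic N` with `N = k p + nn p`. Since `2 nn p + 1 = p`: `-N = 1/2 + alk k * p` and
`(3 - 2N)/4 = 1 + alk k / 2 * p`. On the left the terms with `N < m < (k+1)p` vanish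
(`P_neg_zero`), on the right `N/3 < p` for `k ≤ 2` and the terms with `N/3 < j < p` vanish
(`P_neg_zero`, `3 j > N`), and `5^(N-3j) = 5^N/125^j` for `3 j ≤ N`. -/
theorem link (hp : 5 < p) {k : ℕ} (hk : k ≤ 2) :
    ∑ m ∈ range ((k + 1) * p), F p (alk k) m = 5 ^ (k * p + nn p) * Phi p (alk k) := by
  have hn := two_nn (p := p) hp
  obtain ⟨N, hN⟩ : ∃ N, N = k * p + nn p := ⟨_, rfl⟩
  have hn' : (2 : ℚ) * (nn p : ℚ) + 1 = (p : ℚ) := by exact_mod_cast hn
  have hNq : (N : ℚ) = k * p + nn p := by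
    rw [hN]
    push_cast
    ring
  have e1 : (1 / 2 : ℚ) + alk k * p = -(N : ℚ) := by
    rw [hNq]
    unfold alk
    linear_combination (1 / 2 : ℚ) * hn'
  have e2 : (1 : ℚ) + alk k / 2 * p = (3 - 2 * (N : ℚ)) / 4 := by
    rw [hNq]
    unfold alk
    linear_combination (1 / 4 : ℚ) * hn'
  have hlt : N + 1 ≤ (k + 1) * p := by
    rw [hN, add_mul, one_mul]
    omega
  have h3 : N / 3 + 1 ≤ p := by
    have h4 : N < 3 * p := by
      rw [hN]
      have h5 : k * p ≤ 2 * p := Nat.mul_le_mul_right p hk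
      omega
    omega
  rw [← hN]
  have hL : ∑ m ∈ range ((k + 1) * p), F p (alk k) m
      = ∑ m ∈ range (N + 1), (-1 : ℚ) ^ m * P (-(N : ℚ)) m * P (1 / 2) m ^ 2 /
      (P 1 m * P ((3 - 2 * (N : ℚ)) / 4) m ^ 2) := by
    symm
    have hsub : range (N + 1) ⊆ range ((k + 1) * p) := by
      intro x hx
      rw [mem_range] at hx ⊢
      omega
    have hF : ∀ m : ℕ, F p (alk k) m = (-1 : ℚ) ^ m * P (-(N : ℚ)) m * P (1 / 2) m ^ 2 /
      (P 1 m * P ((3 - 2 * (N : ℚ)) / 4) m ^ 2) := by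
      intro m
      unfold F
      rw [e1, e2]
    rw [Finset.sum_congr rfl (fun m _ => (hF m).symm)]
    refine Finset.sum_subset hsub ?_
    intro m _ hm
    rw [mem_range, not_lt] at hm
    rw [hF m, P_neg_zero N m (by omega)]
    simp
  rw [hL, cubic N]
  unfold Phi
  rw [e1, e2, Finset.mul_sum]
  have hsub : range (N / 3 + 1) ⊆ range p := by
    intro x hx
    rw [mem_range] at hx ⊢
    omega
  rw [← Finset.sum_subset hsub]
  · refine Finset.sum_congr rfl ?_
    intro j hj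
    rw [mem_range] at hj
    have h6 : 3 * j ≤ N := by omega
    have h7 : (5 : ℚ) ^ N = 5 ^ (N - 3 * j) * 125 ^ j := by
      have h8 : (125 : ℚ) ^ j = 5 ^ (3 * j) := by
        rw [pow_mul]
        norm_num
      rw [h8, ← pow_add]
      congr 1
      omega
    rw [h7]
    have h9 : (125 : ℚ) ^ j ≠ 0 := by positivity
    rw [← mul_div_mul_right (P (-(N : ℚ)) (3 * j) * 5 ^ (N - 3 * j)) _ h9]
    ring
  · intro j _ hj
    rw [mem_range, not_lt] at hj
    rw [P_neg_zero N (3 * j) (by omega)]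
    simp

end H48SC
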