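import Pool.Agent.H48SC.PLem

/-!
# Expansion of the block sums Psi
-/

namespace H48SC

open Finset

variable {p : ℕ} [Fact p.Prime]

private theorem nn_lt : nn p < p := by
  have := (Fact.out : p.Prime).two_le
  unfold nn
  omega

/-- All five sums are integral (`un_c`, `O1_mem`, `O2_mem`, `H_mem`, `H2_mem`). -/
theorem sums_mem (hp : p ≠ 2) : S0 p ∈ ZL p ∧ D1 p ∈ ZL p ∧ D2 p ∈ ZL p ∧ QQ p ∈ ZL p ∧
    RR p ∈ ZL p ∧ XX p ∈ ZL p := by
  have hn : nn p < p := nn_lt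
  have hr : ∀ r ∈ range (nn p + 1), r ≤ nn p := fun r h => Nat.lt_succ_iff.1 (mem_range.1 h)
  have hc : ∀ r ∈ range (nn p + 1), c r ∈ ZL p := fun r h => (un_c hp (hr r h)).mem
  have h1 : ∀ r ∈ range (nn p + 1), O1 r - H r ∈ ZL p := fun r h =>
    sub_mem (O1_mem hp (hr r h)) (H_mem (lt_of_le_of_lt (hr r h) hn))
  refine ⟨sum_mem hc, sum_mem fun r h => mul_mem (hc r h) (h1 r h),
    sum_mem fun r h => mul_mem (hc r h) (pow_mem (h1 r h) 2),
    sum_mem fun r h => mul_mem (hc r h) (O2_mem hp (hr r h)),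
    sum_mem fun r h => mul_mem (hc r h) (H2_mem (lt_of_le_of_lt (hr r h) hn)),
    sum_mem fun r h => mul_mem (hc r h) (pow_mem ?_ 2)⟩
  exact add_mem (h1 r h) (H_mem hn)

/-- With `Ex_half`, `Ex_one` (and `Ex.mul`, `Ex.div`, `Ex.pow`, `Ex.self` for `(-1)^r`) the term
of `Psi` has the expansion `Ex p _ (c r) u v` with `e = al + 3 i`,
`u = (al+i) O1 + 2 i O1 - i H - 2 (al/2+i) H = e (O1 r - H r)`,
`v = -((al+i)^2 + 2 i^2) O2 + (i^2 + 2 (al/2+i)^2) H2
   = -(al^2 + 2 al i + 3 i^2) O2 r + (al^2/2 + 2 al i + 3 i^2) H2 r`. Sum over `r`. -/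
theorem psi_exp (hp : p ≠ 2) {al : ℚ} (ha : al ∈ ZL p) (i : ℕ) :
    Cg p 3 (Psi p al i) (S0 p + p * (al + 3 * i) * D1 p + p ^ 2 / 2 *
      ((al + 3 * i) ^ 2 * D2 p - (al ^ 2 + 2 * al * i + 3 * i ^ 2) * QQ p +
        (al ^ 2 / 2 + 2 * al * i + 3 * i ^ 2) * RR p)) := by
  have hn : nn p < p := nn_lt
  have hi : (i : ℚ) ∈ ZL p := nat_mem i
  have ha2 : al / 2 + i ∈ ZL p := by
    have : al / 2 + i = al * (1 / 2) + i := by ring
    rw [this]
    exact add_mem (mul_mem ha (half_mem_ex hp)) hi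
  have hterm : ∀ r ∈ range (nn p + 1),
      Cg p 3 ((-1) ^ r * P (1 / 2 + (al + i) * p) r * P (1 / 2 + i * p) r ^ 2 /
        (P (1 + i * p) r * P (1 + (al / 2 + i) * p) r ^ 2))
      (c r + p * (al + 3 * i) * (c r * (O1 r - H r)) + p ^ 2 / 2 *
        ((al + 3 * i) ^ 2 * (c r * (O1 r - H r) ^ 2) -
          (al ^ 2 + 2 * al * i + 3 * i ^ 2) * (c r * O2 r) +
          (al ^ 2 / 2 + 2 * al * i + 3 * i ^ 2) * (c r * H2 r))) := by
    intro r hr0
    have hr : r ≤ nn p := Nat.lt_succ_iff.1 (mem_range.1 hr0)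
    have hrp : r < p := lt_of_le_of_lt hr hn
    have e0 : Ex p ((-1 : ℚ) ^ r) ((-1) ^ r) 0 0 := Ex.self ((un_one (p := p)).neg.pow r)
    have e1 := Ex_half hp (add_mem ha hi) hr
    have e2 := (Ex_half hp hi hr).pow hp 2
    have e3 := Ex_one hp hi hrp
    have e4 := (Ex_one hp ha2 hrp).pow hp 2
    have e5 := ((e0.mul hp e1).mul hp e2).div hp (e3.mul hp e4)
    refine e5.2.2.2.trans (Cg.of_eq ?_)
    have hf : (r.factorial : ℚ) ≠ 0 := by exact_mod_cast r.factorial_ne_zero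
    have hc : (-1 : ℚ) ^ r * P (1 / 2) r * P (1 / 2) r ^ 2 /
        ((r.factorial : ℚ) * (r.factorial : ℚ) ^ 2) = c r := by
      unfold c
      rw [div_pow]
      field_simp
    rw [hc]
    push_cast
    ring
  have hsum := Cg.sum (range (nn p + 1)) _ _ hterm
  refine Cg.trans hsum (Cg.of_eq ?_)
  simp only [S0, D1, D2, QQ, RR]
  simp only [Finset.sum_add_distrib, ← Finset.mul_sum, Finset.sum_sub_distrib]

end H48SC
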