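import Pool.Agent.H48SC.Blocks

/-!
# Reversal r -> n - r, n = (p-1)/2
-/

namespace H48SC

open Finset

variable {p : ℕ} [Fact p.Prime]

private theorem nat_eq (hp : 3 < p) : p = 2 * nn p + 1 := by
  have hodd : p % 2 = 1 := by
    rcases (Fact.out : p.Prime).eq_two_or_odd with h | h
    · omega
    · exact h
  unfold nn
  omega

private theorem p_eq (hp : 3 < p) : (p : ℚ) = 2 * (nn p : ℚ) + 1 := by
  have h := congrArg (Nat.cast : ℕ → ℚ) (nat_eq hp)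
  push_cast at h
  exact h

private theorem half_mem (hp : 3 < p) : (1 / 2 : ℚ) ∈ ZL p := by
  have h2 : Un p ((2 : ℕ) : ℚ) := un_nat (by
    intro h
    have := Nat.le_of_dvd (by norm_num) h
    omega)
  have h3 := h2.inv_mem
  have e : (1 / 2 : ℚ) = ((2 : ℕ) : ℚ)⁻¹ := by norm_num
  rw [e]
  exact h3

private theorem un_sub (hp : 3 < p) {x : ℚ} (hx : Un p x) : Un p ((p : ℚ) / 2 - x) := by
  have h := hx.neg.add_p (half_mem hp)
  have e : (p : ℚ) / 2 - x = -x + p * (1 / 2) := by ring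
  rw [e]
  exact h

private theorem un_s (hp : 3 < p) {r t : ℕ} (hr : r ≤ nn p) (ht : t < r) :
    Un p ((t : ℚ) + 1) := by
  have h := un_nat (p := p) (m := t + 1) (by
    intro h
    have := Nat.le_of_dvd (by omega) h
    have := nat_eq hp
    omega)
  push_cast at h
  exact h

private theorem un_h (hp : 3 < p) {r t : ℕ} (hr : r ≤ nn p) (ht : t < r) :
    Un p (1 / 2 + (t : ℚ)) :=
  un_half_add (by omega) (by omega)

private theorem recip2 (hp : 3 < p) {x : ℚ} (hx : Un p x) :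
    Cg p 2 (1 / ((p : ℚ) / 2 - x)) (-(1 / x) - (p : ℚ) / 2 * (1 / x ^ 2)) := by
  have hu := un_sub hp hx
  refine ⟨(1 / 2 * (1 / 2)) / (((p : ℚ) / 2 - x) * x ^ 2),
    div_mem (mul_mem (half_mem hp) (half_mem hp)) (hu.mul (hx.pow 2)), ?_⟩
  obtain ⟨w, hw⟩ : ∃ w, w = (p : ℚ) / 2 - x := ⟨_, rfl⟩
  have hw0 : w ≠ 0 := by
    rw [hw]
    exact hu.ne
  have hx0 := hx.ne
  have hpw : (p : ℚ) = 2 * (w + x) := by
    rw [hw]
    ring
  rw [← hw, hpw]
  field_simp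
  ring

private theorem recip1 (hp : 3 < p) {x : ℚ} (hx : Un p x) :
    Cg p 1 (1 / ((p : ℚ) / 2 - x) ^ 2) (1 / x ^ 2) := by
  have hu := un_sub hp hx
  have h1 : Cg p 1 (((p : ℚ) / 2 - x) ^ 2) (x ^ 2) := by
    refine ⟨1 / 2 * (p * (1 / 2) - 2 * x), ?_, by ring⟩
    exact mul_mem (half_mem hp) (sub_mem (mul_mem (nat_mem p) (half_mem hp))
      (mul_mem (by exact_mod_cast nat_mem (p := p) 2) hx.mem))
  rw [one_div, one_div]
  exact h1.inv (hu.pow 2) (hx.pow 2)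

private theorem sum_one (hp : 3 < p) {r : ℕ} (hr : r ≤ nn p) :
    Cg p 2 (∑ t ∈ range r, 1 / ((p : ℚ) / 2 - ((t : ℚ) + 1))) (-H r - (p : ℚ) / 2 * H2 r) := by
  have h := Cg.sum (p := p) (k := 2) (range r) _ _
    (fun t ht => recip2 hp (un_s hp hr (mem_range.1 ht)))
  have e : (∑ t ∈ range r, (-(1 / ((t : ℚ) + 1)) - (p : ℚ) / 2 * (1 / ((t : ℚ) + 1) ^ 2)))
      = -H r - (p : ℚ) / 2 * H2 r := by
    rw [Finset.sum_sub_distrib, Finset.sum_neg_distrib, ← Finset.mul_sum]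
    rfl
  rw [e] at h
  exact h

private theorem sum_half (hp : 3 < p) {r : ℕ} (hr : r ≤ nn p) :
    Cg p 2 (∑ t ∈ range r, 1 / ((p : ℚ) / 2 - (1 / 2 + (t : ℚ))))
      (-O1 r - (p : ℚ) / 2 * O2 r) := by
  have h := Cg.sum (p := p) (k := 2) (range r) _ _
    (fun t ht => recip2 hp (un_h hp hr (mem_range.1 ht)))
  have e : (∑ t ∈ range r, (-(1 / (1 / 2 + (t : ℚ))) - (p : ℚ) / 2 * (1 / (1 / 2 + (t : ℚ)) ^ 2)))
      = -O1 r - (p : ℚ) / 2 * O2 r := by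
    rw [Finset.sum_sub_distrib, Finset.sum_neg_distrib, ← Finset.mul_sum]
    rfl
  rw [e] at h
  exact h

private theorem sum_sq (hp : 3 < p) {r : ℕ} (hr : r ≤ nn p) :
    Cg p 1 (∑ t ∈ range r, 1 / ((p : ℚ) / 2 - ((t : ℚ) + 1)) ^ 2) (H2 r) := by
  exact Cg.sum (p := p) (k := 1) (range r) _ _
    (fun t ht => recip1 hp (un_s hp hr (mem_range.1 ht)))

private theorem O1_id (hp : 3 < p) {r : ℕ} (hr : r ≤ nn p) :
    O1 (nn p - r) + ∑ t ∈ range r, 1 / ((p : ℚ) / 2 - ((t : ℚ) + 1)) = O1 (nn p) := by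
  induction r with
  | zero => simp
  | succ r ih =>
    have h1 := ih (by omega)
    obtain ⟨m, hm⟩ : ∃ m, nn p = m + (r + 1) := ⟨nn p - (r + 1), by omega⟩
    have e1 : nn p - (r + 1) = m := by omega
    have e2 : nn p - r = m + 1 := by omega
    rw [e2] at h1
    rw [e1, ← h1, Finset.sum_range_succ]
    have e3 : O1 (m + 1) = O1 m + 1 / (1 / 2 + (m : ℚ)) := by
      unfold O1
      rw [Finset.sum_range_succ]
    have e4 : (1 / 2 + (m : ℚ)) = (p : ℚ) / 2 - ((r : ℚ) + 1) := by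
      rw [p_eq hp, hm]
      push_cast
      ring
    rw [e3, e4]
    ring

private theorem O2_id (hp : 3 < p) {r : ℕ} (hr : r ≤ nn p) :
    O2 (nn p - r) + ∑ t ∈ range r, 1 / ((p : ℚ) / 2 - ((t : ℚ) + 1)) ^ 2 = O2 (nn p) := by
  induction r with
  | zero => simp
  | succ r ih =>
    have h1 := ih (by omega)
    obtain ⟨m, hm⟩ : ∃ m, nn p = m + (r + 1) := ⟨nn p - (r + 1), by omega⟩
    have e1 : nn p - (r + 1) = m := by omega
    have e2 : nn p - r = m + 1 := by omega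
    rw [e2] at h1
    rw [e1, ← h1, Finset.sum_range_succ]
    have e3 : O2 (m + 1) = O2 m + 1 / (1 / 2 + (m : ℚ)) ^ 2 := by
      unfold O2
      rw [Finset.sum_range_succ]
    have e4 : (1 / 2 + (m : ℚ)) = (p : ℚ) / 2 - ((r : ℚ) + 1) := by
      rw [p_eq hp, hm]
      push_cast
      ring
    rw [e3, e4]
    ring

private theorem H_id (hp : 3 < p) {r : ℕ} (hr : r ≤ nn p) :
    H (nn p - r) + ∑ t ∈ range r, 1 / ((p : ℚ) / 2 - (1 / 2 + (t : ℚ))) = H (nn p) := by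
  induction r with
  | zero => simp
  | succ r ih =>
    have h1 := ih (by omega)
    obtain ⟨m, hm⟩ : ∃ m, nn p = m + (r + 1) := ⟨nn p - (r + 1), by omega⟩
    have e1 : nn p - (r + 1) = m := by omega
    have e2 : nn p - r = m + 1 := by omega
    rw [e2] at h1
    rw [e1, ← h1, Finset.sum_range_succ]
    have e3 : H (m + 1) = H m + 1 / ((m : ℚ) + 1) := by
      unfold H
      rw [Finset.sum_range_succ]
    have e4 : ((m : ℚ) + 1) = (p : ℚ) / 2 - (1 / 2 + (r : ℚ)) := by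
      rw [p_eq hp, hm]
      push_cast
      ring
    rw [e3, e4]
    ring

private theorem P_id (hp : 3 < p) {r : ℕ} (hr : r ≤ nn p) :
    P (1 / 2) (nn p - r) * ∏ t ∈ range r, ((p : ℚ) / 2 - ((t : ℚ) + 1)) = P (1 / 2) (nn p) := by
  induction r with
  | zero => simp
  | succ r ih =>
    have h1 := ih (by omega)
    obtain ⟨m, hm⟩ : ∃ m, nn p = m + (r + 1) := ⟨nn p - (r + 1), by omega⟩
    have e1 : nn p - (r + 1) = m := by omega
    have e2 : nn p - r = m + 1 := by omega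
    rw [e2] at h1
    rw [e1, ← h1, Finset.prod_range_succ, P_succ]
    have e4 : (1 / 2 + (m : ℚ)) = (p : ℚ) / 2 - ((r : ℚ) + 1) := by
      rw [p_eq hp, hm]
      push_cast
      ring
    rw [e4]
    ring

private theorem fac_id (hp : 3 < p) {r : ℕ} (hr : r ≤ nn p) :
    ((nn p - r).factorial : ℚ) * ∏ t ∈ range r, ((p : ℚ) / 2 - (1 / 2 + (t : ℚ)))
      = ((nn p).factorial : ℚ) := by
  induction r with
  | zero => simp
  | succ r ih =>
    have h1 := ih (by omega)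
    obtain ⟨m, hm⟩ : ∃ m, nn p = m + (r + 1) := ⟨nn p - (r + 1), by omega⟩
    have e1 : nn p - (r + 1) = m := by omega
    have e2 : nn p - r = m + 1 := by omega
    rw [e2] at h1
    rw [e1, ← h1, Finset.prod_range_succ, Nat.factorial_succ]
    have e4 : ((m : ℚ) + 1) = (p : ℚ) / 2 - (1 / 2 + (r : ℚ)) := by
      rw [p_eq hp, hm]
      push_cast
      ring
    push_cast
    rw [e4]
    ring

private theorem prod_cg (hp : 3 < p) (x : ℕ → ℚ) (r : ℕ) (hx : ∀ t < r, Un p (x t)) :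
    Cg p 2 (∏ t ∈ range r, ((p : ℚ) / 2 - x t))
      ((-1) ^ r * (∏ t ∈ range r, x t) * (1 - (p : ℚ) / 2 * ∑ t ∈ range r, 1 / x t)) := by
  induction r with
  | zero => simpa using Cg.refl 2 1
  | succ r ih =>
    have h1 := ih fun t ht => hx t (by omega)
    have hxr := hx r (by omega)
    have hq : (p : ℚ) / 2 - x r ∈ ZL p := (un_sub hp hxr).mem
    have h2 := h1.mul_right _ hq
    rw [Finset.prod_range_succ, Finset.prod_range_succ, Finset.sum_range_succ]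
    refine h2.trans ?_
    have hX : (∏ t ∈ range r, x t) ∈ ZL p :=
      prod_mem fun t ht => (hx t (by have := mem_range.1 ht; omega)).mem
    have hS : (∑ t ∈ range r, 1 / x t) ∈ ZL p := by
      refine sum_mem fun t ht => ?_
      rw [one_div]
      exact (hx t (by have := mem_range.1 ht; omega)).inv_mem
    have h1m : ((-1 : ℚ) ^ r) ∈ ZL p := pow_mem (neg_mem (one_mem _)) r
    refine ⟨-((-1) ^ r * (∏ t ∈ range r, x t) * (1 / 2 * (1 / 2)) * (∑ t ∈ range r, 1 / x t)),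
      neg_mem (mul_mem (mul_mem (mul_mem h1m hX) (mul_mem (half_mem hp) (half_mem hp))) hS), ?_⟩
    have hx0 := hxr.ne
    rw [pow_succ]
    obtain ⟨S, hS'⟩ : ∃ S, S = ∑ t ∈ range r, 1 / x t := ⟨_, rfl⟩
    obtain ⟨X, hX'⟩ : ∃ X, X = ∏ t ∈ range r, x t := ⟨_, rfl⟩
    rw [← hS', ← hX']
    field_simp
    ring

/-- `1/2 + n = p/2`, so `O1 n = sum_{s=1}^n 1/(p/2 - s) = - sum 1/s - (p/2) sum 1/s^2 = - H n`
mod `p^2` (`H2_nn`). -/
theorem O1_nn (hp : 3 < p) : Cg p 2 (O1 (nn p)) (-H (nn p)) := by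
  have h1 := O1_id hp (le_refl (nn p))
  have h2 := sum_one hp (le_refl (nn p))
  have e : O1 (nn p - nn p) = 0 := by
    rw [Nat.sub_self]
    simp [O1]
  rw [e, zero_add] at h1
  rw [h1] at h2
  refine h2.trans ?_
  obtain ⟨z, hz, ez⟩ := H2_nn hp
  refine ⟨-(1 / 2 * z), neg_mem (mul_mem (half_mem hp) hz), ?_⟩
  rw [pow_one] at ez
  linear_combination (-(p : ℚ) / 2) * ez

/-- `O2 n = sum 1/(p/2-s)^2 = H2 n = 0` mod `p`. -/
theorem O2_nn (hp : 3 < p) : Cg p 1 (O2 (nn p)) 0 := by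
  have h1 := O2_id hp (le_refl (nn p))
  have h2 := sum_sq hp (le_refl (nn p))
  have e : O2 (nn p - nn p) = 0 := by
    rw [Nat.sub_self]
    simp [O2]
  rw [e, zero_add] at h1
  rw [h1] at h2
  exact h2.trans (H2_nn hp)

/-- `O1 (n-r) = O1 n - sum_{t=1}^r 1/(p/2-t)`
and `1/(t - p/2) = 1/t + (p/2)/t^2` mod `p^2`. -/
theorem O1_rev (hp : 3 < p) {r : ℕ} (hr : r ≤ nn p) :
    Cg p 2 (O1 (nn p - r)) (-H (nn p) + H r + p / 2 * H2 r) := by
  have h1 := O1_id hp hr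
  have h2 := (O1_nn hp).sub (sum_one hp hr)
  have e : O1 (nn p - r) = O1 (nn p) - ∑ t ∈ range r, 1 / ((p : ℚ) / 2 - ((t : ℚ) + 1)) := by
    rw [← h1]
    ring
  rw [e]
  refine h2.trans (Cg.of_eq ?_)
  ring

/-- `H (n-r) = H n - sum_{t<r} 1/(n-t)`, `n - t = p/2 - (1/2+t)`. -/
theorem H_rev (hp : 3 < p) {r : ℕ} (hr : r ≤ nn p) :
    Cg p 2 (H (nn p - r)) (H (nn p) + O1 r + p / 2 * O2 r) := by
  have h1 := H_id hp hr
  have h2 := (Cg.refl (p := p) 2 (H (nn p))).sub (sum_half hp hr)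
  have e : H (nn p - r) = H (nn p) - ∑ t ∈ range r, 1 / ((p : ℚ) / 2 - (1 / 2 + (t : ℚ))) := by
    rw [← h1]
    ring
  rw [e]
  refine h2.trans (Cg.of_eq ?_)
  ring

theorem O2_rev (hp : 3 < p) {r : ℕ} (hr : r ≤ nn p) :
    Cg p 1 (O2 (nn p - r)) (-H2 r) := by
  have h1 := O2_id hp hr
  have h2 := (O2_nn hp).sub (sum_sq hp hr)
  have e : O2 (nn p - r) = O2 (nn p) - ∑ t ∈ range r, 1 / ((p : ℚ) / 2 - ((t : ℚ) + 1)) ^ 2 := by
    rw [← h1]
    ring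
  rw [e]
  refine h2.trans (Cg.of_eq ?_)
  ring

theorem dd_rev (hp : 3 < p) {r : ℕ} (hr : r ≤ nn p) :
    Cg p 2 (dd p (nn p - r)) (-dd p r - p / 2 * (O2 r - H2 r)) := by
  have h := ((O1_rev hp hr).sub (H_rev hp hr)).add (Cg.refl (p := p) 2 (H (nn p)))
  unfold dd
  refine h.trans (Cg.of_eq ?_)
  ring

private theorem lt_p (hp : 3 < p) {r : ℕ} (hr : r ≤ nn p) : r < p := by
  have := nat_eq hp
  omega

private theorem dd_mem (hp : 3 < p) {r : ℕ} (hr : r ≤ nn p) : dd p r ∈ ZL p :=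
  add_mem (sub_mem (O1_mem (by omega) hr) (H_mem (lt_p hp hr))) (H_mem (lt_p hp (le_refl _)))

private theorem un_fac (hp : 3 < p) {r : ℕ} (hr : r ≤ nn p) : Un p (r.factorial : ℚ) := by
  refine un_nat ?_
  rw [(Fact.out : p.Prime).dvd_factorial]
  have := lt_p hp hr
  omega

private theorem un_P (hp : 3 < p) {r : ℕ} (hr : r ≤ nn p) : Un p (P (1 / 2) r) := by
  unfold P
  exact Un.prod _ _ fun s hs => un_h hp hr (mem_range.1 hs)

private theorem PP_eq (r : ℕ) : P (1 / 2) r = ∏ t ∈ range r, (1 / 2 + (t : ℚ)) := rfl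

private theorem fac_eq (r : ℕ) : (r.factorial : ℚ) = ∏ t ∈ range r, ((t : ℚ) + 1) := by
  induction r with
  | zero => simp
  | succ r ih =>
    rw [Nat.factorial_succ, Finset.prod_range_succ, ← ih]
    push_cast
    ring

private theorem U_cg (hp : 3 < p) {r : ℕ} (hr : r ≤ nn p) :
    Cg p 2 (∏ t ∈ range r, ((p : ℚ) / 2 - ((t : ℚ) + 1)))
      ((-1) ^ r * (r.factorial : ℚ) * (1 - (p : ℚ) / 2 * H r)) := by
  have h := prod_cg hp (fun t => (t : ℚ) + 1) r fun t ht => un_s hp hr ht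
  rw [fac_eq]
  exact h

private theorem V_cg (hp : 3 < p) {r : ℕ} (hr : r ≤ nn p) :
    Cg p 2 (∏ t ∈ range r, ((p : ℚ) / 2 - (1 / 2 + (t : ℚ))))
      ((-1) ^ r * P (1 / 2) r * (1 - (p : ℚ) / 2 * O1 r)) :=
  prod_cg hp (fun t => 1 / 2 + (t : ℚ)) r fun t ht => un_h hp hr ht

private theorem q2_mem (hp : 3 < p) {x : ℚ} (hx : x ∈ ZL p) : 1 / 2 * (1 / 2) * x ∈ ZL p :=
  mul_mem (mul_mem (half_mem hp) (half_mem hp)) hx

private theorem an_cg (hp : 3 < p) :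
    Cg p 2 (P (1 / 2) (nn p) / ((nn p).factorial : ℚ))
      ((-1) ^ nn p * (1 - (p : ℚ) / 2 * H (nn p))) := by
  have h1 := P_id hp (le_refl (nn p))
  rw [Nat.sub_self, P_zero, one_mul] at h1
  have h2 := U_cg hp (le_refl (nn p))
  rw [h1] at h2
  have hf := un_fac hp (le_refl (nn p))
  refine Cg.cancel _ hf ?_
  have e : ((nn p).factorial : ℚ) * (P (1 / 2) (nn p) / ((nn p).factorial : ℚ))
      = P (1 / 2) (nn p) := by
    have := hf.ne
    field_simp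
  rw [e]
  refine h2.trans (Cg.of_eq ?_)
  ring

private theorem a_rev (hp : 3 < p) {r : ℕ} (hr : r ≤ nn p) :
    Cg p 2 (P (1 / 2) (nn p - r) / ((nn p - r).factorial : ℚ))
      ((-1) ^ nn p * (P (1 / 2) r / (r.factorial : ℚ)) * (1 - (p : ℚ) / 2 * dd p r)) := by
  have hn := le_refl (nn p)
  have hr' : nn p - r ≤ nn p := Nat.sub_le _ _
  have hUn := P_id hp hr
  have hVn := fac_id hp hr
  have hUc := U_cg hp hr
  have hVc := V_cg hp hr
  have hfr := un_fac hp hr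
  have hfn := un_fac hp hn
  have hfm := un_fac hp hr'
  have hPr := un_P hp hr
  have hPn := un_P hp hn
  have hPm := un_P hp hr'
  have hH : H r ∈ ZL p := H_mem (lt_p hp hr)
  have hO : O1 r ∈ ZL p := O1_mem (by omega) hr
  have hHn : H (nn p) ∈ ZL p := H_mem (lt_p hp hn)
  have h1m : ((-1 : ℚ) ^ r) ∈ ZL p := pow_mem (neg_mem (one_mem _)) r
  have h1n : ((-1 : ℚ) ^ nn p) ∈ ZL p := pow_mem (neg_mem (one_mem _)) _
  have hanc := an_cg hp
  obtain ⟨A, hA⟩ : ∃ A, A = P (1 / 2) (nn p - r) / ((nn p - r).factorial : ℚ) := ⟨_, rfl⟩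
  obtain ⟨a, ha⟩ : ∃ a, a = P (1 / 2) r / (r.factorial : ℚ) := ⟨_, rfl⟩
  obtain ⟨an, han⟩ : ∃ an, an = P (1 / 2) (nn p) / ((nn p).factorial : ℚ) := ⟨_, rfl⟩
  have hAm : A ∈ ZL p := by
    rw [hA]
    exact (hPm.div hfm).mem
  have ham : a ∈ ZL p := by
    rw [ha]
    exact (hPr.div hfr).mem
  have hanm : an ∈ ZL p := by
    rw [han]
    exact (hPn.div hfn).mem
  rw [← hA, ← ha]
  rw [← han] at hanc
  obtain ⟨U, hU⟩ : ∃ U, U = ∏ t ∈ range r, ((p : ℚ) / 2 - ((t : ℚ) + 1)) := ⟨_, rfl⟩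
  obtain ⟨V, hV⟩ : ∃ V, V = ∏ t ∈ range r, ((p : ℚ) / 2 - (1 / 2 + (t : ℚ))) := ⟨_, rfl⟩
  rw [← hU] at hUn hUc
  rw [← hV] at hVn hVc
  have hkey : A * U = an * V := by
    rw [hA, han, ← hUn, ← hVn]
    have h1 := hfm.ne
    have h2 : V ≠ 0 := by
      intro h3
      rw [h3, mul_zero] at hVn
      exact hfn.ne hVn.symm
    field_simp
  obtain ⟨f, hf⟩ : ∃ f : ℚ, f = (r.factorial : ℚ) := ⟨_, rfl⟩
  rw [← hf] at hUc hfr ha
  have haf : P (1 / 2) r = f * a := by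
    rw [ha]
    have := hfr.ne
    field_simp
  rw [haf] at hVc
  -- the chain
  have c1 : Cg p 2 (A * ((-1) ^ r * f * (1 - (p : ℚ) / 2 * H r)))
      (an * ((-1) ^ r * (f * a) * (1 - (p : ℚ) / 2 * O1 r))) :=
    ((hUc.mul_left A hAm).symm.trans (Cg.of_eq hkey)).trans (hVc.mul_left an hanm)
  have hq1 : (1 + (p : ℚ) / 2 * H r) ∈ ZL p := by
    have e : (1 + (p : ℚ) / 2 * H r) = 1 + p * (1 / 2) * H r := by ring
    rw [e]
    exact add_mem (one_mem _) (mul_mem (mul_mem (nat_mem p) (half_mem hp)) hH)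
  have c2 := c1.mul_right _ hq1
  have c3 : Cg p 2 (A * ((-1) ^ r * f)) (A * ((-1) ^ r * f * (1 - (p : ℚ) / 2 * H r)) *
      (1 + (p : ℚ) / 2 * H r)) :=
    ⟨1 / 2 * (1 / 2) * (A * ((-1) ^ r * f) * H r ^ 2),
      q2_mem hp (mul_mem (mul_mem hAm (mul_mem h1m hfr.mem)) (pow_mem hH 2)), by ring⟩
  have c4 : Cg p 2 (an * ((-1) ^ r * (f * a) * (1 - (p : ℚ) / 2 * O1 r)) *
      (1 + (p : ℚ) / 2 * H r)) (an * ((-1) ^ r * (f * a) * (1 - (p : ℚ) / 2 * (O1 r - H r)))) :=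
    ⟨1 / 2 * (1 / 2) * (-(an * ((-1) ^ r * (f * a)) * (O1 r * H r))),
      q2_mem hp (neg_mem (mul_mem (mul_mem hanm (mul_mem h1m (mul_mem hfr.mem ham)))
        (mul_mem hO hH))), by ring⟩
  have hq2 : ((-1) ^ r * (f * a) * (1 - (p : ℚ) / 2 * (O1 r - H r))) ∈ ZL p := by
    have e : ((-1) ^ r * (f * a) * (1 - (p : ℚ) / 2 * (O1 r - H r)))
        = (-1) ^ r * (f * a) * (1 - p * (1 / 2) * (O1 r - H r)) := by ring
    rw [e]
    exact mul_mem (mul_mem h1m (mul_mem hfr.mem ham)) (sub_mem (one_mem _)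
      (mul_mem (mul_mem (nat_mem p) (half_mem hp)) (sub_mem hO hH)))
  have c5 := hanc.mul_right _ hq2
  have c6 : Cg p 2 ((-1) ^ nn p * (1 - (p : ℚ) / 2 * H (nn p)) *
      ((-1) ^ r * (f * a) * (1 - (p : ℚ) / 2 * (O1 r - H r))))
      ((-1) ^ r * f * ((-1) ^ nn p * a * (1 - (p : ℚ) / 2 * dd p r))) :=
    ⟨1 / 2 * (1 / 2) * ((-1) ^ nn p * ((-1) ^ r * (f * a)) * (H (nn p) * (O1 r - H r))),
      q2_mem hp (mul_mem (mul_mem h1n (mul_mem h1m (mul_mem hfr.mem ham)))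
        (mul_mem hHn (sub_mem hO hH))), by
      unfold dd
      ring⟩
  have c7 : Cg p 2 ((-1) ^ r * f * A)
      ((-1) ^ r * f * ((-1) ^ nn p * a * (1 - (p : ℚ) / 2 * dd p r))) := by
    refine (Cg.of_eq ?_).trans ((((c3.trans c2).trans c4).trans c5).trans c6)
    ring
  refine Cg.cancel _ ?_ c7
  exact (un_one.neg.pow r).mul hfr

/-- `(1/2)_{n-r} = (1/2)_n / prod_{t=1}^r (p/2 - t)`,
`(n-r)! = n!/prod_{t<r} (p/2 - (1/2+t))`, so
`(1/2)_{n-r}/(n-r)! = ga ((1/2)_r/r!) prod (1 - (p/2)/(1/2+t))/prod (1 - (p/2)/t)`,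
`ga = (1/2)_n/n! = prod_{s=1}^n (p/2-s)/s = (-1)^n prod (1 - (p/2)/s) = (-1)^n (1 - (p/2) H n)`
mod `p^2`. Cube (the signs: `(-1)^(n-r) (-1)^(3n) = (-1)^r`). -/
theorem c_rev (hp : 3 < p) {r : ℕ} (hr : r ≤ nn p) :
    Cg p 2 (c (nn p - r)) (c r * (1 - 3 / 2 * p * dd p r)) := by
  have h1 := a_rev hp hr
  have ham : P (1 / 2) r / (r.factorial : ℚ) ∈ ZL p := ((un_P hp hr).div (un_fac hp hr)).mem
  have hd := dd_mem hp hr
  have h1n : ((-1 : ℚ) ^ nn p) ∈ ZL p := pow_mem (neg_mem (one_mem _)) _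
  have h1m : ((-1 : ℚ) ^ (nn p - r)) ∈ ZL p := pow_mem (neg_mem (one_mem _)) _
  have h1r : ((-1 : ℚ) ^ r) ∈ ZL p := pow_mem (neg_mem (one_mem _)) _
  obtain ⟨a, ha⟩ : ∃ a, a = P (1 / 2) r / (r.factorial : ℚ) := ⟨_, rfl⟩
  obtain ⟨d, hd'⟩ : ∃ d, d = dd p r := ⟨_, rfl⟩
  rw [← ha, ← hd'] at h1
  rw [← ha] at ham
  rw [← hd'] at hd
  have hq : (-1) ^ nn p * a * (1 - (p : ℚ) / 2 * d) ∈ ZL p := by
    have e : (-1) ^ nn p * a * (1 - (p : ℚ) / 2 * d)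
        = (-1) ^ nn p * a * (1 - p * (1 / 2) * d) := by ring
    rw [e]
    exact mul_mem (mul_mem h1n ham) (sub_mem (one_mem _)
      (mul_mem (mul_mem (nat_mem p) (half_mem hp)) hd))
  have h2 := (h1.pow hq 3).mul_left _ h1m
  unfold c
  rw [← ha, ← hd']
  refine h2.trans ?_
  have hs : (-1 : ℚ) ^ (nn p - r) * ((-1) ^ nn p) ^ 3 = (-1) ^ r := by
    obtain ⟨m, hm⟩ : ∃ m, nn p = m + r := ⟨nn p - r, by omega⟩
    have e1 : nn p - r = m := by omega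
    rw [e1, hm]
    have e2 : (-1 : ℚ) ^ m * ((-1) ^ (m + r)) ^ 3 = ((-1) ^ m) ^ 4 * ((-1) ^ r) ^ 2 * (-1) ^ r := by
      rw [pow_add]
      ring
    rw [e2]
    have e3 : ((-1 : ℚ) ^ m) ^ 4 = 1 := by
      rw [← pow_mul, mul_comm, pow_mul]
      norm_num
    have e4 : ((-1 : ℚ) ^ r) ^ 2 = 1 := by
      rw [← pow_mul, mul_comm, pow_mul]
      norm_num
    rw [e3, e4]
    ring
  refine ⟨(-1) ^ r * a ^ 3 * (3 * (1 / 2 * (1 / 2) * d ^ 2)
    - 1 / 2 * (1 / 2) * (1 / 2 * (p * d ^ 3))), ?_, ?_⟩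
  · refine mul_mem (mul_mem h1r (pow_mem ham 3)) (sub_mem (mul_mem
      (by exact_mod_cast nat_mem (p := p) 3) (q2_mem hp (pow_mem hd 2))) (q2_mem hp
      (mul_mem (half_mem hp) (mul_mem (nat_mem p) (pow_mem hd 3)))))
  · have e5 : (-1 : ℚ) ^ (nn p - r) * ((-1) ^ nn p * a * (1 - (p : ℚ) / 2 * d)) ^ 3
        = ((-1 : ℚ) ^ (nn p - r) * ((-1) ^ nn p) ^ 3) * a ^ 3 * (1 - (p : ℚ) / 2 * d) ^ 3 := by
      ring
    rw [e5, hs]
    ring

private theorem c_mem (hp : 3 < p) {r : ℕ} (hr : r ≤ nn p) : c r ∈ ZL p :=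
  (un_c (by omega) hr).mem

private theorem reflect (f : ℕ → ℚ) (n : ℕ) :
    ∑ r ∈ range (n + 1), f (n - r) = ∑ r ∈ range (n + 1), f r := by
  have h := Finset.sum_range_reflect f (n + 1)
  rw [← h]
  refine Finset.sum_congr rfl fun r _ => ?_
  congr 1

private theorem le_of (n r : ℕ) (h : r ∈ range (n + 1)) : r ≤ n := by
  have := mem_range.1 h
  omega

/-- `QQ = sum c_{n-r} O2 (n-r) = - sum c_r H2 r` mod `p` (`Finset.sum_range_reflect`). -/
theorem QQ_cg (hp : 3 < p) : Cg p 1 (QQ p) (-RR p) := by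
  unfold QQ RR
  rw [← reflect (fun r => c r * O2 r), ← Finset.sum_neg_distrib]
  refine Cg.sum _ _ _ fun r hr => ?_
  have hr' := le_of _ _ hr
  have hd := dd_mem hp hr'
  have hc := c_mem hp hr'
  have h1 : Cg p 1 (c (nn p - r)) (c r) := by
    refine ((c_rev hp hr').mono (by norm_num : 1 ≤ 2)).trans ?_
    refine ⟨-(c r * (3 * (1 / 2) * dd p r)), neg_mem (mul_mem hc (mul_mem (mul_mem
      (by exact_mod_cast nat_mem (p := p) 3) (half_mem hp)) hd)), by ring⟩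
  have h2 := O2_rev hp hr'
  have h3 := h1.mul h2 (c_mem hp (Nat.sub_le _ _)) (neg_mem (H2_mem (lt_p hp hr')))
  refine h3.trans (Cg.of_eq ?_)
  ring

/-- `<d> = D1 + H n S0` where `<d> = sum c_r d_r`, and by reversal
`<d> = sum c_{n-r} d_{n-r} = sum c_r (1 - 3/2 p d_r) (-d_r - p/2 (O2 - H2))
  = - <d> + (3/2) p XX - (p/2) (QQ - RR)` mod `p^2`; with `QQ = -RR` mod `p`:
`2 <d> = p/2 (3 XX + 2 RR)`. -/
theorem D1_cg (hp : 3 < p) :
    Cg p 2 (D1 p + H (nn p) * S0 p) (p / 2 * (3 / 2 * XX p + RR p)) := by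
  have e0 : D1 p + H (nn p) * S0 p = ∑ r ∈ range (nn p + 1), c r * dd p r := by
    unfold D1 S0 dd
    rw [Finset.mul_sum, ← Finset.sum_add_distrib]
    refine Finset.sum_congr rfl fun r _ => ?_
    ring
  rw [e0]
  have h1 : Cg p 2 (∑ r ∈ range (nn p + 1), c (nn p - r) * dd p (nn p - r))
      (∑ r ∈ range (nn p + 1), (-(c r * dd p r) + 3 / 2 * p * (c r * dd p r ^ 2)
        - p / 2 * (c r * O2 r) + p / 2 * (c r * H2 r))) := by
    refine Cg.sum _ _ _ fun r hr => ?_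
    have hr' := le_of _ _ hr
    have hd := dd_mem hp hr'
    have hc := c_mem hp hr'
    have hO2 : O2 r ∈ ZL p := O2_mem (by omega) hr'
    have hH2 : H2 r ∈ ZL p := H2_mem (lt_p hp hr')
    have hm : -dd p r - p / 2 * (O2 r - H2 r) ∈ ZL p := by
      have e : -dd p r - p / 2 * (O2 r - H2 r) = -dd p r - p * (1 / 2) * (O2 r - H2 r) := by ring
      rw [e]
      exact sub_mem (neg_mem hd) (mul_mem (mul_mem (nat_mem p) (half_mem hp)) (sub_mem hO2 hH2))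
    have h3 := (c_rev hp hr').mul (dd_rev hp hr') (c_mem hp (Nat.sub_le _ _)) hm
    refine h3.trans ⟨c r * (3 * (1 / 2 * (1 / 2) * (dd p r * (O2 r - H2 r)))), ?_, by ring⟩
    exact mul_mem hc (mul_mem (by exact_mod_cast nat_mem (p := p) 3) (q2_mem hp
      (mul_mem hd (sub_mem hO2 hH2))))
  rw [reflect (fun r => c r * dd p r)] at h1
  have e1 : (∑ r ∈ range (nn p + 1), (-(c r * dd p r) + 3 / 2 * p * (c r * dd p r ^ 2)
        - p / 2 * (c r * O2 r) + p / 2 * (c r * H2 r)))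
      = -(∑ r ∈ range (nn p + 1), c r * dd p r) + 3 / 2 * p * XX p - p / 2 * QQ p
        + p / 2 * RR p := by
    unfold XX QQ RR
    rw [Finset.sum_add_distrib, Finset.sum_sub_distrib, Finset.sum_add_distrib,
      Finset.sum_neg_distrib, ← Finset.mul_sum, ← Finset.mul_sum, ← Finset.mul_sum]
  rw [e1] at h1
  obtain ⟨S, hS⟩ : ∃ S, S = ∑ r ∈ range (nn p + 1), c r * dd p r := ⟨_, rfl⟩
  rw [← hS] at h1 ⊢
  obtain ⟨z, hz, ez⟩ := h1
  obtain ⟨w, hw, ew⟩ := QQ_cg hp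
  rw [pow_one] at ew
  refine ⟨1 / 2 * z - 1 / 2 * (1 / 2) * w, sub_mem (mul_mem (half_mem hp) hz) (q2_mem hp hw), ?_⟩
  linear_combination (1 / 2 : ℚ) * ez - ((p : ℚ) / 4) * ew

/-- `O1 - H = d - H n`, so `D2 = XX - 2 H n <d> + (H n)^2 S0` and `<d> = 0` mod `p`. -/
theorem D2_cg (hp : 3 < p) : Cg p 1 (D2 p) (H (nn p) ^ 2 * S0 p + XX p) := by
  have hn := le_refl (nn p)
  have hHn : H (nn p) ∈ ZL p := H_mem (lt_p hp hn)
  have e0 : D2 p = XX p - 2 * H (nn p) * (D1 p + H (nn p) * S0 p) + H (nn p) ^ 2 * S0 p := by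
    unfold D2 XX D1 S0 dd
    rw [Finset.mul_sum, Finset.mul_sum, ← Finset.sum_add_distrib, Finset.mul_sum,
      ← Finset.sum_sub_distrib, ← Finset.sum_add_distrib]
    refine Finset.sum_congr rfl fun r _ => ?_
    ring
  have hXX : XX p ∈ ZL p := sum_mem fun r hr =>
    mul_mem (c_mem hp (le_of _ _ hr)) (pow_mem (dd_mem hp (le_of _ _ hr)) 2)
  have hRR : RR p ∈ ZL p := sum_mem fun r hr =>
    mul_mem (c_mem hp (le_of _ _ hr)) (H2_mem (lt_p hp (le_of _ _ hr)))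
  obtain ⟨z, hz, ez⟩ := D1_cg hp
  rw [e0]
  refine ⟨-(2 * H (nn p) * (1 / 2 * (3 * (1 / 2) * XX p + RR p) + p * z)), ?_, ?_⟩
  · refine neg_mem (mul_mem (mul_mem (by exact_mod_cast nat_mem (p := p) 2) hHn) (add_mem
      (mul_mem (half_mem hp) (add_mem (mul_mem (mul_mem (by exact_mod_cast nat_mem (p := p) 3)
      (half_mem hp)) hXX) hRR)) (mul_mem (nat_mem p) hz)))
  · linear_combination (-2 * H (nn p)) * ez

end H48SC
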