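import Pool.Agent.H48SC.Split
import Pool.Agent.H48SC.Link
import Pool.Agent.H48SC.Interp
import Pool.Agent.H48SC.PsiExp
import Pool.Agent.H48SC.Rev

/-!
# Assembly of the main congruence
-/

namespace H48SC

open Finset

variable {p : ℕ} [Fact p.Prime]

private theorem un_of_lt (hp : 5 < p) (m : ℕ) (h0 : 0 < m) (h : m ≤ 5) : Un p (m : ℚ) :=
  un_nat fun hd => absurd (Nat.le_of_dvd h0 hd) (by omega)

private theorem i2_mem (hp : 5 < p) : (1 / 2 : ℚ) ∈ ZL p := by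
  have h := (un_of_lt hp 2 (by norm_num) (by norm_num)).inv_mem
  have e : (1 / 2 : ℚ) = ((2 : ℕ) : ℚ)⁻¹ := by norm_num
  rw [e]
  exact h

private theorem i5_mem (hp : 5 < p) : (1 / 5 : ℚ) ∈ ZL p := by
  have h := (un_of_lt hp 5 (by norm_num) (by norm_num)).inv_mem
  have e : (1 / 5 : ℚ) = ((5 : ℕ) : ℚ)⁻¹ := by norm_num
  rw [e]
  exact h

/-- The pure algebra of the assembly: with `h = H n`, `f_i = 1 + 3 i p h + 9/2 i^2 p^2 h^2`,
`psi_{k,i}` the right hand side of `psi_exp` for `al = alk k`, and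
`5^{-N_k} ep = 5^{-k} u^(2k+1)`, `u = 1 + p nu`, the sum
`15/8 u psi_00 - 1/4 u^3 (psi_10 + 4 f_1 psi_11) + 3/200 u^5 (psi_20 + 8 f_1 psi_21 + 16 f_2 psi_22)`
is, after the substitutions `D1 = - h S + p/2 (3/2 X + R) + p^2 z1`, `D2 = h^2 S + X + p z2`,
`Q = -R + p z3`, equal to `S - 9/25 p^2 (3/2 X + R)` modulo `p^3`: it is an identity of
polynomials that the difference is `p^3` times a polynomial with coefficients in
`Z[1/2, 1/5]`. -/
theorem assem_alg (hp : 5 < p) (S X R h nu z1 z2 z3 : ℚ) (hS : S ∈ ZL p) (hX : X ∈ ZL p)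
    (hR : R ∈ ZL p) (hh : h ∈ ZL p) (hnu : nu ∈ ZL p) (h1 : z1 ∈ ZL p) (h2 : z2 ∈ ZL p)
    (h3 : z3 ∈ ZL p) (psi : ℚ → ℚ → ℚ)
    (hpsi : ∀ al i : ℚ, psi al i = S + p * (al + 3 * i) * (-h * S + p / 2 * (3 / 2 * X + R) +
      p ^ 2 * z1) + p ^ 2 / 2 * ((al + 3 * i) ^ 2 * (h ^ 2 * S + X + p * z2) -
      (al ^ 2 + 2 * al * i + 3 * i ^ 2) * (-R + p * z3) +
      (al ^ 2 / 2 + 2 * al * i + 3 * i ^ 2) * R)) :
    Cg p 3 (15 / 8 * (1 + p * nu) * psi (-1 / 2) 0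
      - 1 / 4 * (1 + p * nu) ^ 3 * (psi (-3 / 2) 0 +
          4 * (1 + 3 * p * h + 9 / 2 * p ^ 2 * h ^ 2) * psi (-3 / 2) 1)
      + 3 / 200 * (1 + p * nu) ^ 5 * (psi (-5 / 2) 0 +
          8 * (1 + 3 * p * h + 9 / 2 * p ^ 2 * h ^ 2) * psi (-5 / 2) 1 +
          16 * (1 + 6 * p * h + 18 * p ^ 2 * h ^ 2) * psi (-5 / 2) 2))
      (S - 9 / 25 * p ^ 2 * (3 / 2 * X + R)) := by
  have hp0 : (p : ℚ) ∈ ZL p := nat_mem p
  have h3200 : (1 / 3200 : ℚ) ∈ ZL p := by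
    have e : (1 / 3200 : ℚ) = (1 / 2) ^ 7 * (1 / 5) ^ 2 := by norm_num
    rw [e]
    exact mul_mem (pow_mem (i2_mem hp) 7) (pow_mem (i5_mem hp) 2)
  refine ⟨1 / 3200 *
    (1152 * z2 + 12840 * R * nu + 18864 * R * h + 11760 * X * nu + 19296 * X * h + 8000 * S * nu
    ^ 3 + 12000 * S * h * nu ^ 2 + 6000 * S * h ^ 2 * nu - 384 * z3 - 3840 * z1 - 10080 * S * h
    ^ 3 + p * (11760 * nu * z2 + 17568 * h * z2 + 2304 * h * z1 + 52080 * R * nu ^ 2 + 141120 *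
    R * h * nu + 86616 * R * h ^ 2 + 48120 * X * nu ^ 2 + 139680 * X * h * nu + 89424 * X * h ^
    2 + 6000 * S * nu ^ 4 + 24000 * S * h * nu ^ 3 + 24000 * S * h ^ 2 * nu ^ 2 + 68688 * S * h
    ^ 4 - 7920 * nu * z3 - 10656 * h * z3 - 72000 * S * h ^ 3 * nu + p * (35520 * nu ^ 2 * z2 +
    16800 * nu ^ 2 * z1 + 109440 * h * nu * z2 + 40320 * h * nu * z1 + 68688 * h ^ 2 * z2 +
    27648 * h ^ 2 * z1 + 69180 * R * nu ^ 3 + 352440 * R * h * nu ^ 2 + 503280 * R * h ^ 2 * nu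
    + 62520 * X * nu ^ 3 + 344160 * X * h * nu ^ 2 + 511920 * X * h ^ 2 * nu + 1200 * S * nu ^ 5
    + 15000 * S * h * nu ^ 4 + 33000 * S * h ^ 2 * nu ^ 3 + 375840 * S * h ^ 4 * nu - 27840 * nu
    ^ 2 * z3 - 74880 * h * nu * z3 - 44496 * h ^ 2 * z3 - 176400 * S * h ^ 3 * nu ^ 2 + p *
    (44520 * nu ^ 3 * z2 + 24000 * nu ^ 3 * z1 + 251280 * h * nu ^ 2 * z2 + 123840 * h * nu ^ 2
    * z1 + 375840 * h ^ 2 * nu * z2 + 181440 * h ^ 2 * nu * z1 + 38865 * R * nu ^ 4 + 399240 * R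
    * h * nu ^ 3 + 1111860 * R * h ^ 2 * nu ^ 2 + 34860 * X * nu ^ 4 + 387360 * X * h * nu ^ 3 +
    1121040 * X * h ^ 2 * nu ^ 2 + 3000 * S * h * nu ^ 5 + 18750 * S * h ^ 2 * nu ^ 4 + 800280 *
    S * h ^ 4 * nu ^ 2 - 36840 * nu ^ 3 * z3 - 182160 * h * nu ^ 2 * z3 - 254880 * h ^ 2 * nu *
    z3 - 198000 * S * h ^ 3 * nu ^ 3 + p * (24510 * nu ^ 4 * z2 + 13800 * nu ^ 4 * z1 + 272880 *
    h * nu ^ 3 * z2 + 152640 * h * nu ^ 3 * z1 + 800280 * h ^ 2 * nu ^ 2 * z2 + 427680 * h ^ 2 *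
    nu ^ 2 * z1 + 7773 * R * nu ^ 5 + 211320 * R * h * nu ^ 4 + 1182060 * R * h ^ 2 * nu ^ 3 +
    6972 * X * nu ^ 5 + 204480 * X * h * nu ^ 4 + 1185840 * X * h ^ 2 * nu ^ 3 + 3750 * S * h ^
    2 * nu ^ 5 + 832680 * S * h ^ 4 * nu ^ 3 - 20670 * nu ^ 4 * z3 - 203760 * h * nu ^ 3 * z3 -
    558360 * h ^ 2 * nu ^ 2 * z3 - 104400 * S * h ^ 3 * nu ^ 4 + p * (4902 * nu ^ 5 * z2 + 2760
    * nu ^ 5 * z1 + 141840 * h * nu ^ 4 * z2 + 83520 * h * nu ^ 4 * z1 + 832680 * h ^ 2 * nu ^ 3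
    * z2 + 470880 * h ^ 2 * nu ^ 3 * z1 + 42264 * R * h * nu ^ 5 + 608580 * R * h ^ 2 * nu ^ 4 +
    40896 * X * h * nu ^ 5 + 609120 * X * h ^ 2 * nu ^ 4 + 424440 * S * h ^ 4 * nu ^ 4 - 4134 *
    nu ^ 5 * z3 - 107280 * h * nu ^ 4 * z3 - 590760 * h ^ 2 * nu ^ 3 * z3 - 20880 * S * h ^ 3 *
    nu ^ 5 + p * (28368 * h * nu ^ 5 * z2 + 16704 * h * nu ^ 5 * z1 + 424440 * h ^ 2 * nu ^ 4 *
    z2 + 246240 * h ^ 2 * nu ^ 4 * z1 + 121716 * R * h ^ 2 * nu ^ 5 + 121824 * X * h ^ 2 * nu ^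
    5 + 84888 * S * h ^ 4 * nu ^ 5 - 21456 * h * nu ^ 5 * z3 - 303480 * h ^ 2 * nu ^ 4 * z3 + p
    * (84888 * h ^ 2 * nu ^ 5 * z2 + 49248 * h ^ 2 * nu ^ 5 * z1 - 60696 * h ^ 2 * nu ^ 5 *
    z3)))))))), ?_, ?_⟩
  · refine mul_mem h3200 ?_
    repeat' first
      | assumption | exact ofNat_mem _ _ | exact one_mem _ | exact natCast_mem _ _
      | apply add_mem | apply sub_mem | apply mul_mem | apply pow_mem | apply neg_mem
  · rw [hpsi, hpsi, hpsi, hpsi, hpsi, hpsi]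
    ring


/-- `interp`, `link` (so `Phi p (alk k) = 5^{-(k p + n)} * sum`), `split`, `F_cg`, `wt_vals`,
`psi_exp`, `D1_cg`, `D2_cg`, `QQ_cg`, `assem_alg`. Here `ep = 1` or `-1`, `5^n = ep` mod `p`; put
`u = ep / 5^n`, then `u = 1 + p nu` and
`ep * 5^{-(k p + n)} = 5^{-k} u^(2k+1)` because `k p + n = k + (2k+1) n` and `ep^(2k) = 1`. -/
theorem assem (hp : 5 < p) (ep : ℚ) (hep : ep = 1 ∨ ep = -1) (h5 : Cg p 1 (5 ^ nn p) ep) :
    Cg p 3 (ep * TT p) (S0 p - 9 / 25 * p ^ 2 * (3 / 2 * XX p + RR p)) := by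
  have hp2 : p ≠ 2 := by omega
  have hp3 : 3 < p := by omega
  have hodd : p = 2 * nn p + 1 := by
    rcases (Fact.out : p.Prime).eq_two_or_odd with h | h
    · omega
    · unfold nn
      omega
  obtain ⟨hS, _, _, _, hR, hX⟩ := sums_mem (p := p) hp2
  have hh : H (nn p) ∈ ZL p := H_mem (by omega)
  have u5 : Un p (5 ^ nn p : ℚ) := by
    have h := (un_of_lt hp 5 (by norm_num) (by norm_num)).pow (nn p)
    exact_mod_cast h
  have hep1 : ep ∈ ZL p := by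
    rcases hep with h | h
    · rw [h]
      exact one_mem _
    · rw [h]
      exact neg_mem (one_mem _)
  have hep2 : ep ^ 2 = 1 := by
    rcases hep with h | h
    · rw [h]
      norm_num
    · rw [h]
      norm_num
  obtain ⟨z, hz, ez⟩ := h5
  rw [pow_one] at ez
  obtain ⟨q, hq⟩ : ∃ q : ℚ, q = 5 ^ nn p := ⟨_, rfl⟩
  rw [← hq] at u5 ez
  have hq0 := u5.ne
  obtain ⟨nu, hnu⟩ : ∃ nu : ℚ, nu = -z / q := ⟨_, rfl⟩
  have hnum : nu ∈ ZL p := by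
    rw [hnu]
    exact div_mem (neg_mem hz) u5
  obtain ⟨u, hu⟩ : ∃ u : ℚ, u = 1 + p * nu := ⟨_, rfl⟩
  have hum : u ∈ ZL p := by
    rw [hu]
    exact add_mem (one_mem _) (mul_mem (nat_mem p) hnum)
  have huq : u = ep / q := by
    rw [hu, hnu, eq_div_iff hq0]
    field_simp
    linear_combination ez
  have hi5 : ∀ k : ℕ, ((1 / 5 : ℚ)) ^ k ∈ ZL p := fun k => pow_mem (i5_mem hp) k
  have hcoef : ∀ k : ℕ, ep * (5 ^ (k * p + nn p) : ℚ)⁻¹ = (1 / 5) ^ k * u ^ (2 * k + 1) := by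
    intro k
    have e1 : k * p + nn p = k + nn p * (2 * k + 1) := by
      conv_lhs => rw [hodd]
      have : nn (2 * nn p + 1) = nn p := by
        unfold nn
        omega
      rw [this]
      ring
    have e2 : (ep / q) ^ (2 * k + 1) = ep * (q ^ (2 * k + 1))⁻¹ := by
      rw [div_pow, pow_succ ep, pow_mul, hep2, one_pow, one_mul, div_eq_mul_inv]
    rw [e1, pow_add, pow_mul, ← hq, huq, e2, one_div, inv_pow, mul_inv]
    ring
  have hk : ∀ k : ℕ, k ≤ 2 → Cg p 3 (ep * Phi p (alk k)) ((1 / 5) ^ k * u ^ (2 * k + 1) *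
      ∑ i ∈ range (k + 1), F p (alk k) (i * p) * Psi p (alk k) i) := by
    intro k hk
    have h1 := link (p := p) hp hk
    have h2 := split (p := p) hp hk
    rw [h1] at h2
    have h3 := h2.mul_left ((1 / 5) ^ k * u ^ (2 * k + 1)) (mul_mem (hi5 k) (pow_mem hum _))
    refine Cg.trans (Cg.of_eq ?_) h3
    rw [← hcoef k]
    have h50 : (5 ^ (k * p + nn p) : ℚ) ≠ 0 := by positivity
    field_simp
  have hal : ∀ k : ℕ, alk k ∈ ZL p := by
    intro k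
    have e : alk k = -(1 / 2) - (k : ℚ) := by
      unfold alk
      ring
    rw [e]
    exact sub_mem (neg_mem (i2_mem hp)) (nat_mem k)
  obtain ⟨z1, hz1, ez1⟩ := D1_cg (p := p) hp3
  obtain ⟨z2, hz2, ez2⟩ := D2_cg (p := p) hp3
  obtain ⟨z3, hz3, ez3⟩ := QQ_cg (p := p) hp3
  rw [pow_one] at ez2 ez3
  obtain ⟨psi, hpsi⟩ : ∃ psi : ℚ → ℚ → ℚ, ∀ al i : ℚ, psi al i = S0 p + p * (al + 3 * i) *
      (-H (nn p) * S0 p + p / 2 * (3 / 2 * XX p + RR p) + p ^ 2 * z1) + p ^ 2 / 2 *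
      ((al + 3 * i) ^ 2 * (H (nn p) ^ 2 * S0 p + XX p + p * z2) -
      (al ^ 2 + 2 * al * i + 3 * i ^ 2) * (-RR p + p * z3) +
      (al ^ 2 / 2 + 2 * al * i + 3 * i ^ 2) * RR p) := ⟨_, fun _ _ => rfl⟩
  have eD1 : D1 p = -H (nn p) * S0 p + p / 2 * (3 / 2 * XX p + RR p) + p ^ 2 * z1 := by
    linear_combination ez1
  have eD2 : D2 p = H (nn p) ^ 2 * S0 p + XX p + p * z2 := by
    linear_combination ez2
  have eQQ : QQ p = -RR p + p * z3 := by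
    linear_combination ez3
  have hpe : ∀ k i : ℕ, Cg p 3 (Psi p (alk k) i) (psi (alk k) i) := by
    intro k i
    have h := psi_exp hp2 (hal k) i
    rw [eD1, eD2, eQQ, ← hpsi] at h
    exact h
  have hpm : ∀ k i : ℕ, psi (alk k) i ∈ ZL p := by
    intro k i
    obtain ⟨a, ha⟩ : ∃ a, a = alk k := ⟨_, rfl⟩
    have ham : a ∈ ZL p := by
      rw [ha]
      exact hal k
    have him := nat_mem (p := p) i
    have hi2 := i2_mem hp
    have hp0 := nat_mem (p := p) p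
    rw [← ha, hpsi]
    have e : S0 p + p * (a + 3 * i) *
      (-H (nn p) * S0 p + p / 2 * (3 / 2 * XX p + RR p) + p ^ 2 * z1) + p ^ 2 / 2 *
      ((a + 3 * i) ^ 2 * (H (nn p) ^ 2 * S0 p + XX p + p * z2) -
      (a ^ 2 + 2 * a * i + 3 * i ^ 2) * (-RR p + p * z3) +
      (a ^ 2 / 2 + 2 * a * i + 3 * i ^ 2) * RR p) = S0 p + p * (a + 3 * i) *
      (-(H (nn p) * S0 p) + p * (1 / 2) * (3 * (1 / 2) * XX p + RR p) + p ^ 2 * z1) +
      p ^ 2 * (1 / 2) *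
      ((a + 3 * i) ^ 2 * (H (nn p) ^ 2 * S0 p + XX p + p * z2) -
      (a ^ 2 + 2 * a * i + 3 * i ^ 2) * (-RR p + p * z3) +
      (a ^ 2 * (1 / 2) + 2 * a * i + 3 * i ^ 2) * RR p) := by ring
    rw [e]
    repeat' first
      | assumption | exact ofNat_mem _ _ | exact one_mem _ | exact natCast_mem _ _
      | apply add_mem | apply sub_mem | apply mul_mem | apply pow_mem | apply neg_mem
  have hterm : ∀ k i : ℕ, i ≤ k → k ≤ 2 → Cg p 3 (F p (alk k) (i * p) * Psi p (alk k) i)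
      (wt k i * (1 + 3 * i * p * H (nn p) + 9 / 2 * i ^ 2 * p ^ 2 * H (nn p) ^ 2) *
        psi (alk k) i) :=
    fun k i hi hk => (F_cg hp hi hk).mul (hpe k i) (F_mem hp hi hk) (hpm k i)
  obtain ⟨w00, w10, w11, w20, w21, w22⟩ := wt_vals
  have a0 : alk 0 = -1 / 2 := by
    unfold alk
    norm_num
  have a1 : alk 1 = -3 / 2 := by
    unfold alk
    norm_num
  have a2 : alk 2 = -5 / 2 := by
    unfold alk
    norm_num
  have t00 := hterm 0 0 le_rfl (by norm_num)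
  have t10 := hterm 1 0 (by norm_num) (by norm_num)
  have t11 := hterm 1 1 le_rfl (by norm_num)
  have t20 := hterm 2 0 (by norm_num) le_rfl
  have t21 := hterm 2 1 (by norm_num) le_rfl
  have t22 := hterm 2 2 le_rfl le_rfl
  rw [w00, a0] at t00
  rw [w10, a1] at t10
  rw [w11, a1] at t11
  rw [w20, a2] at t20
  rw [w21, a2] at t21
  rw [w22, a2] at t22
  have k0 := hk 0 (by norm_num)
  have k1 := hk 1 (by norm_num)
  have k2 := hk 2 le_rfl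
  rw [Finset.sum_range_one, a0] at k0
  rw [Finset.sum_range_succ, Finset.sum_range_one, a1] at k1
  rw [Finset.sum_range_succ, Finset.sum_range_succ, Finset.sum_range_one, a2] at k2
  have i2 := i2_mem hp
  have i5 := i5_mem hp
  have m0 : (15 / 8 : ℚ) ∈ ZL p := by
    have e : (15 / 8 : ℚ) = 15 * (1 / 2) ^ 3 := by norm_num
    rw [e]
    repeat' first
      | assumption | exact ofNat_mem _ _ | exact one_mem _ | exact natCast_mem _ _
      | apply add_mem | apply sub_mem | apply mul_mem | apply pow_mem | apply neg_mem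
  have m1 : (5 / 4 : ℚ) ∈ ZL p := by
    have e : (5 / 4 : ℚ) = 5 * (1 / 2) ^ 2 := by norm_num
    rw [e]
    repeat' first
      | assumption | exact ofNat_mem _ _ | exact one_mem _ | exact natCast_mem _ _
      | apply add_mem | apply sub_mem | apply mul_mem | apply pow_mem | apply neg_mem
  have m2 : (3 / 8 : ℚ) ∈ ZL p := by
    have e : (3 / 8 : ℚ) = 3 * (1 / 2) ^ 3 := by norm_num
    rw [e]
    repeat' first
      | assumption | exact ofNat_mem _ _ | exact one_mem _ | exact natCast_mem _ _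
      | apply add_mem | apply sub_mem | apply mul_mem | apply pow_mem | apply neg_mem
  have c0 : (1 / 5 : ℚ) ^ 0 * u ^ (2 * 0 + 1) ∈ ZL p := mul_mem (hi5 0) (pow_mem hum _)
  have c1 : (1 / 5 : ℚ) ^ 1 * u ^ (2 * 1 + 1) ∈ ZL p := mul_mem (hi5 1) (pow_mem hum _)
  have c2 : (1 / 5 : ℚ) ^ 2 * u ^ (2 * 2 + 1) ∈ ZL p := mul_mem (hi5 2) (pow_mem hum _)
  have s0 := (k0.trans (t00.mul_left _ c0)).mul_left _ m0
  have s1 := (k1.trans ((t10.add t11).mul_left _ c1)).mul_left _ m1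
  have s2 := (k2.trans (((t20.add t21).add t22).mul_left _ c2)).mul_left _ m2
  have hI := (interp (p := p) hp).mul_left ep hep1
  rw [a0, a1, a2] at hI
  have hsum := (s0.sub s1).add s2
  have halg := assem_alg hp (S0 p) (XX p) (RR p) (H (nn p)) nu z1 z2 z3 hS hX hR hh hnum hz1 hz2
    hz3 psi hpsi
  rw [← hu] at halg
  refine hI.trans (Cg.trans (Cg.of_eq ?_) (hsum.trans (Cg.trans (Cg.of_eq ?_) halg)))
  · ring
  · push_cast
    ring


end H48SC
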