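import Pool.Agent.H48SC.Defs

/-!
# Calculus of `ZL p`, `Un p`, `Cg p k`
-/

namespace H48SC

open Finset

variable {p : ℕ} [Fact p.Prime]

theorem mem_ZL {x : ℚ} : x ∈ ZL p ↔ ¬ p ∣ x.den := Iff.rfl

theorem Un.ne {x : ℚ} (h : Un p x) : x ≠ 0 := h.1
theorem Un.mem {x : ℚ} (h : Un p x) : x ∈ ZL p := h.2.1
theorem Un.inv_mem {x : ℚ} (h : Un p x) : x⁻¹ ∈ ZL p := h.2.2

theorem un_nat {m : ℕ} (h : ¬ p ∣ m) : Un p (m : ℚ) := by
  have hm : m ≠ 0 := by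
    rintro rfl
    exact h (dvd_zero p)
  refine ⟨by exact_mod_cast hm, natCast_mem _ m, ?_⟩
  rw [mem_ZL]
  have : ((m : ℚ)⁻¹).den = m := by
    rw [Rat.inv_natCast_den]
    simp [hm]
  rwa [this]

theorem un_one : Un p (1 : ℚ) :=
  ⟨one_ne_zero, one_mem _, by simp⟩

theorem Un.neg {x : ℚ} (h : Un p x) : Un p (-x) :=
  ⟨neg_ne_zero.2 h.ne, neg_mem h.mem, by rw [inv_neg]; exact neg_mem h.inv_mem⟩

theorem Un.mul {x y : ℚ} (h : Un p x) (h' : Un p y) : Un p (x * y) :=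
  ⟨mul_ne_zero h.ne h'.ne, mul_mem h.mem h'.mem, by
    rw [mul_inv]; exact mul_mem h.inv_mem h'.inv_mem⟩

theorem Un.inv {x : ℚ} (h : Un p x) : Un p x⁻¹ :=
  ⟨inv_ne_zero h.ne, h.inv_mem, by rw [inv_inv]; exact h.mem⟩

theorem Un.div {x y : ℚ} (h : Un p x) (h' : Un p y) : Un p (x / y) := by
  rw [div_eq_mul_inv]
  exact h.mul h'.inv

theorem Un.pow {x : ℚ} (h : Un p x) (n : ℕ) : Un p (x ^ n) :=
  ⟨pow_ne_zero n h.ne, pow_mem h.mem n, by rw [← inv_pow]; exact pow_mem h.inv_mem n⟩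

theorem un_int {m : ℤ} (h : ¬ (p : ℤ) ∣ m) : Un p (m : ℚ) := by
  have h1 : ¬ p ∣ m.natAbs := fun h2 => h (Int.natCast_dvd.2 h2)
  have h2 := un_nat h1
  rcases Int.natAbs_eq m with h3 | h3
  · rw [h3]
    simpa using h2
  · rw [h3]
    simpa using h2.neg

theorem Un.prod {ι : Type} (s : Finset ι) (f : ι → ℚ) (h : ∀ i ∈ s, Un p (f i)) :
    Un p (∏ i ∈ s, f i) := by
  classical
  induction s using Finset.induction_on with
  | empty => simpa using un_one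
  | insert a s ha ih =>
    rw [Finset.prod_insert ha]
    exact (h a (mem_insert_self a s)).mul (ih fun i hi => h i (mem_insert_of_mem hi))

/-- `1 + p w` is a unit: if `w = a/b` with `p` not dividing `b` then `1 + p w = (b + p a)/b`. -/
theorem Un.add_p {x z : ℚ} (h : Un p x) (hz : z ∈ ZL p) : Un p (x + p * z) := by
  have hw : z / x ∈ ZL p := by
    rw [div_eq_mul_inv]
    exact mul_mem hz h.inv_mem
  obtain ⟨w, hwd⟩ : ∃ w, w = z / x := ⟨_, rfl⟩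
  rw [← hwd] at hw
  have e1 : x + p * z = x * (1 + p * w) := by
    rw [hwd]
    field_simp [h.ne]
  rw [e1]
  refine h.mul ?_
  have hb : ¬ p ∣ w.den := hw
  have hb0 : (w.den : ℚ) ≠ 0 := by exact_mod_cast w.den_nz
  have e2 : 1 + (p : ℚ) * w = (((w.den : ℤ) + p * w.num : ℤ) : ℚ) / ((w.den : ℕ) : ℚ) := by
    push_cast
    rw [eq_div_iff hb0, add_mul, mul_assoc, Rat.mul_den_eq_num]
    ring
  rw [e2]
  refine (un_int ?_).div (un_nat hb)
  intro h3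
  have h4 : (p : ℤ) ∣ (w.den : ℤ) := by
    have h5 := Int.dvd_sub h3 (Dvd.intro w.num rfl : (p : ℤ) ∣ p * w.num)
    simpa using h5
  exact hb (by exact_mod_cast h4)

theorem div_mem {x y : ℚ} (hx : x ∈ ZL p) (hy : Un p y) : x / y ∈ ZL p := by
  rw [div_eq_mul_inv]
  exact mul_mem hx hy.inv_mem

theorem nat_mem (m : ℕ) : (m : ℚ) ∈ ZL p := natCast_mem _ m

theorem int_mem (m : ℤ) : (m : ℚ) ∈ ZL p := intCast_mem _ m

theorem Cg.of_eq {k : ℕ} {x y : ℚ} (h : x = y) : Cg p k x y :=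
  ⟨0, zero_mem _, by rw [h]; ring⟩

theorem Cg.refl (k : ℕ) (x : ℚ) : Cg p k x x := Cg.of_eq rfl

theorem Cg.symm {k : ℕ} {x y : ℚ} (h : Cg p k x y) : Cg p k y x := by
  obtain ⟨z, hz, e⟩ := h
  exact ⟨-z, neg_mem hz, by rw [← neg_sub, e]; ring⟩

theorem Cg.trans {k : ℕ} {x y z : ℚ} (h : Cg p k x y) (h' : Cg p k y z) : Cg p k x z := by
  obtain ⟨a, ha, e⟩ := h
  obtain ⟨b, hb, e'⟩ := h'
  exact ⟨a + b, add_mem ha hb, by linear_combination e + e'⟩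

theorem Cg.add {k : ℕ} {x y x' y' : ℚ} (h : Cg p k x y) (h' : Cg p k x' y') :
    Cg p k (x + x') (y + y') := by
  obtain ⟨a, ha, e⟩ := h
  obtain ⟨b, hb, e'⟩ := h'
  exact ⟨a + b, add_mem ha hb, by linear_combination e + e'⟩

theorem Cg.sub {k : ℕ} {x y x' y' : ℚ} (h : Cg p k x y) (h' : Cg p k x' y') :
    Cg p k (x - x') (y - y') := by
  obtain ⟨a, ha, e⟩ := h
  obtain ⟨b, hb, e'⟩ := h'
  exact ⟨a - b, sub_mem ha hb, by linear_combination e - e'⟩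

theorem Cg.neg {k : ℕ} {x y : ℚ} (h : Cg p k x y) : Cg p k (-x) (-y) := by
  obtain ⟨a, ha, e⟩ := h
  exact ⟨-a, neg_mem ha, by linear_combination -e⟩

theorem Cg.sum {ι : Type} {k : ℕ} (s : Finset ι) (f g : ι → ℚ)
    (h : ∀ i ∈ s, Cg p k (f i) (g i)) : Cg p k (∑ i ∈ s, f i) (∑ i ∈ s, g i) := by
  classical
  induction s using Finset.induction_on with
  | empty => simpa using Cg.refl k 0
  | insert a s ha ih =>
    rw [Finset.sum_insert ha, Finset.sum_insert ha]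
    exact (h a (mem_insert_self a s)).add (ih fun i hi => h i (mem_insert_of_mem hi))

theorem Cg.mul_left {k : ℕ} {x y : ℚ} (a : ℚ) (ha : a ∈ ZL p) (h : Cg p k x y) :
    Cg p k (a * x) (a * y) := by
  obtain ⟨z, hz, e⟩ := h
  exact ⟨a * z, mul_mem ha hz, by linear_combination a * e⟩

theorem Cg.mul_right {k : ℕ} {x y : ℚ} (a : ℚ) (ha : a ∈ ZL p) (h : Cg p k x y) :
    Cg p k (x * a) (y * a) := by
  obtain ⟨z, hz, e⟩ := h
  exact ⟨a * z, mul_mem ha hz, by linear_combination a * e⟩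

/-- It is enough that `x` and `y'` are integral. -/
theorem Cg.mul {k : ℕ} {x y x' y' : ℚ} (h : Cg p k x y) (h' : Cg p k x' y')
    (hx : x ∈ ZL p) (hy' : y' ∈ ZL p) : Cg p k (x * x') (y * y') := by
  obtain ⟨a, ha, e⟩ := h
  obtain ⟨b, hb, e'⟩ := h'
  exact ⟨x * b + y' * a, add_mem (mul_mem hx hb) (mul_mem hy' ha), by
    linear_combination x * e' + y' * e⟩

theorem Cg.mem {k : ℕ} {x y : ℚ} (h : Cg p k x y) (hy : y ∈ ZL p) : x ∈ ZL p := by
  obtain ⟨a, ha, e⟩ := h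
  have : x = y + (p : ℚ) ^ k * a := by linear_combination e
  rw [this]
  exact add_mem hy (mul_mem (pow_mem (natCast_mem _ p) k) ha)

theorem Cg.mem' {k : ℕ} {x y : ℚ} (h : Cg p k x y) (hx : x ∈ ZL p) : y ∈ ZL p :=
  h.symm.mem hx

theorem Cg.pow {k : ℕ} {x y : ℚ} (h : Cg p k x y) (hy : y ∈ ZL p) (n : ℕ) :
    Cg p k (x ^ n) (y ^ n) := by
  induction n with
  | zero => simpa using Cg.refl k 1
  | succ n ih =>
    rw [pow_succ, pow_succ]
    exact ih.mul h (pow_mem (h.mem hy) n) hy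

theorem Cg.prod {ι : Type} {k : ℕ} (s : Finset ι) (f g : ι → ℚ)
    (h : ∀ i ∈ s, Cg p k (f i) (g i)) (hg : ∀ i ∈ s, g i ∈ ZL p) :
    Cg p k (∏ i ∈ s, f i) (∏ i ∈ s, g i) := by
  classical
  induction s using Finset.induction_on with
  | empty => simpa using Cg.refl k 1
  | insert a s ha ih =>
    rw [Finset.prod_insert ha, Finset.prod_insert ha]
    refine (h a (mem_insert_self a s)).mul
      (ih (fun i hi => h i (mem_insert_of_mem hi)) fun i hi => hg i (mem_insert_of_mem hi))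
      ((h a (mem_insert_self a s)).mem (hg a (mem_insert_self a s))) ?_
    exact prod_mem fun i hi => hg i (mem_insert_of_mem hi)

theorem Cg.mono {k l : ℕ} {x y : ℚ} (hkl : k ≤ l) (h : Cg p l x y) : Cg p k x y := by
  obtain ⟨a, ha, e⟩ := h
  obtain ⟨d, rfl⟩ := Nat.exists_eq_add_of_le hkl
  exact ⟨(p : ℚ) ^ d * a, mul_mem (pow_mem (natCast_mem _ p) d) ha, by rw [e, pow_add]; ring⟩

theorem Cg.pmul {k : ℕ} {x y : ℚ} (j : ℕ) (h : Cg p k x y) :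
    Cg p (j + k) ((p : ℚ) ^ j * x) ((p : ℚ) ^ j * y) := by
  obtain ⟨a, ha, e⟩ := h
  exact ⟨a, ha, by rw [pow_add]; linear_combination (p : ℚ) ^ j * e⟩

theorem Cg.of_pow {k : ℕ} {z : ℚ} (hz : z ∈ ZL p) : Cg p k ((p : ℚ) ^ k * z) 0 :=
  ⟨z, hz, by ring⟩

theorem Cg.cancel {k : ℕ} {x y : ℚ} (u : ℚ) (hu : Un p u) (h : Cg p k (u * x) (u * y)) :
    Cg p k x y := by
  have h1 := h.mul_left u⁻¹ hu.inv_mem
  rwa [← mul_assoc, ← mul_assoc, inv_mul_cancel₀ hu.ne, one_mul, one_mul] at h1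

/-- `y - x = p^(k+1) z`, so `x = y (1 - p (p^k z / y))` is a unit. -/
theorem Cg.un {k : ℕ} {x y : ℚ} (h : Cg p (k + 1) x y) (hy : Un p y) : Un p x := by
  obtain ⟨a, ha, e⟩ := h
  have h1 : x = y + p * ((p : ℚ) ^ k * a) := by
    rw [pow_succ] at e
    linear_combination e
  rw [h1]
  exact hy.add_p (mul_mem (pow_mem (natCast_mem _ p) k) ha)

/-- `1/x - 1/y = (y - x)/(x y)`. -/
theorem Cg.inv {k : ℕ} {x y : ℚ} (h : Cg p k x y) (hx : Un p x) (hy : Un p y) :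
    Cg p k x⁻¹ y⁻¹ := by
  have h1 := h.symm.mul_left (x⁻¹ * y⁻¹) (mul_mem hx.inv_mem hy.inv_mem)
  have e1 : x⁻¹ * y⁻¹ * y = x⁻¹ := by field_simp [hx.ne, hy.ne]
  have e2 : x⁻¹ * y⁻¹ * x = y⁻¹ := by field_simp [hx.ne, hy.ne]
  rwa [e1, e2] at h1

theorem Cg.div {k : ℕ} {x y x' y' : ℚ} (h : Cg p k x y) (h' : Cg p k x' y')
    (hx : x ∈ ZL p) (hx' : Un p x') (hy' : Un p y') : Cg p k (x / x') (y / y') := by
  rw [div_eq_mul_inv, div_eq_mul_inv]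
  exact h.mul (h'.inv hx' hy') hx hy'.inv_mem

/-- A congruence mod `p` between integers. -/
theorem cg_one_of_int {a b : ℤ} (h : (p : ℤ) ∣ a - b) : Cg p 1 (a : ℚ) (b : ℚ) := by
  obtain ⟨c, hc⟩ := h
  refine ⟨(c : ℚ), intCast_mem _ c, ?_⟩
  rw [pow_one]
  exact_mod_cast hc

end H48SC
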