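import Pool.Agent.H48SC.Wol

/-!
# Blocks of length p
-/

namespace H48SC

open Finset

/-- `prod_{x=1}^{(p-1)/2} ((be+1/2)^2 p^2 - x^2)`. -/
def Gb (p : ℕ) (be : ℚ) : ℚ := ∏ x ∈ range (nn p), ((be + 1 / 2) ^ 2 * p ^ 2 - ((x : ℚ) + 1) ^ 2)

/-- `prod_{s=1}^{p-1} (s + be p)`. -/
def Kb (p : ℕ) (be : ℚ) : ℚ := ∏ s ∈ range (p - 1), ((s : ℚ) + 1 + be * p)

/-- `(-1)^n n!^2/(p-1)!`, `n = (p-1)/2`. -/
def om (p : ℕ) : ℚ := (-1) ^ nn p * ((nn p).factorial : ℚ) ^ 2 / ((p - 1).factorial : ℚ)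

variable {p : ℕ} [Fact p.Prime]

private theorem p_eq (hp : p ≠ 2) : p = 2 * nn p + 1 := by
  have hodd : p % 2 = 1 := by
    rcases (Fact.out : p.Prime).eq_two_or_odd with h | h
    · exact absurd h hp
    · exact h
  unfold nn
  omega

/-- the symmetric product -/
private theorem prod_sym (y : ℚ) (n : ℕ) :
    ∏ s ∈ range (2 * n + 1), (y + s - n) = y * ∏ x ∈ range n, (y ^ 2 - ((x : ℚ) + 1) ^ 2) := by
  induction n with
  | zero => simp
  | succ n ih =>
    have e : 2 * (n + 1) + 1 = (2 * n + 1) + 1 + 1 := by ring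
    rw [e, Finset.prod_range_succ, Finset.prod_range_succ' , Finset.prod_range_succ _ n]
    have e1 : ∏ k ∈ range (2 * n + 1), (y + ((k + 1 : ℕ) : ℚ) - ((n + 1 : ℕ) : ℚ)) =
        ∏ s ∈ range (2 * n + 1), (y + s - n) := by
      refine Finset.prod_congr rfl fun s _ => ?_
      push_cast
      ring
    rw [e1, ih]
    push_cast
    ring

/-- The factors of `P (1/2 + be p) p` are `y + x`, `y = (be+1/2) p`, `-n ≤ x ≤ n`, `p = 2n+1`. -/
theorem block_half (hp : p ≠ 2) (be : ℚ) :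
    P (1 / 2 + be * p) p = p * (be + 1 / 2) * Gb p be := by
  have hpe := p_eq hp
  have hpq : (p : ℚ) = 2 * (nn p : ℚ) + 1 := by
    conv_lhs => rw [hpe]
    push_cast
    ring
  have h := prod_sym ((be + 1 / 2) * p) (nn p)
  rw [← hpe] at h
  unfold P Gb
  have e1 : ∏ s ∈ range p, (1 / 2 + be * (p : ℚ) + s) =
      ∏ s ∈ range p, ((be + 1 / 2) * (p : ℚ) + s - nn p) := by
    refine Finset.prod_congr rfl fun s _ => ?_
    linear_combination (-1 / 2 : ℚ) * hpq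
  rw [e1, h]
  have e2 : ∏ x ∈ range (nn p), (((be + 1 / 2) * (p : ℚ)) ^ 2 - ((x : ℚ) + 1) ^ 2) =
      ∏ x ∈ range (nn p), ((be + 1 / 2) ^ 2 * (p : ℚ) ^ 2 - ((x : ℚ) + 1) ^ 2) := by
    refine Finset.prod_congr rfl fun s _ => ?_
    rw [mul_pow]
  rw [e2]
  ring

/-- The last factor is `p (be + 1)`. -/
theorem block_one (be : ℚ) : P (1 + be * p) p = p * (be + 1) * Kb p be := by
  have hpos : 0 < p := (Fact.out : p.Prime).pos
  obtain ⟨q, hq⟩ : ∃ q, p = q + 1 := ⟨p - 1, by omega⟩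
  have hpq : (p : ℚ) = q + 1 := by
    rw [hq]
    push_cast
    ring
  have hq1 : p - 1 = q := by omega
  unfold P Kb
  rw [hq1]
  have e0 : ∏ s ∈ range p, (1 + be * (p : ℚ) + s) = ∏ s ∈ range (q + 1), (1 + be * (p : ℚ) + s) := by
    rw [← hq]
  rw [e0, Finset.prod_range_succ]
  have e1 : ∏ s ∈ range q, (1 + be * (p : ℚ) + s) = ∏ s ∈ range q, ((s : ℚ) + 1 + be * p) := by
    refine Finset.prod_congr rfl fun s _ => ?_
    ring
  rw [e1]
  have e2 : 1 + be * (p : ℚ) + q = p * (be + 1) := by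
    linear_combination (-1 : ℚ) * hpq
  rw [e2]
  ring

/-- Induction on `i` with `P_add`, `block_half`. -/
theorem blocks_half (hp : p ≠ 2) (be : ℚ) (i : ℕ) :
    P (1 / 2 + be * p) (i * p) = p ^ i * P (be + 1 / 2) i * ∏ l ∈ range i, Gb p (be + l) := by
  induction i with
  | zero => simp [P]
  | succ i ih =>
    have e : (i + 1) * p = i * p + p := by ring
    have e1 : 1 / 2 + be * (p : ℚ) + ((i * p : ℕ) : ℚ) = 1 / 2 + (be + i) * p := by
      push_cast
      ring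
    rw [e, P_add, ih, e1, block_half hp, P_succ, Finset.prod_range_succ, pow_succ]
    ring

theorem blocks_one (be : ℚ) (i : ℕ) :
    P (1 + be * p) (i * p) = p ^ i * P (be + 1) i * ∏ l ∈ range i, Kb p (be + l) := by
  induction i with
  | zero => simp [P]
  | succ i ih =>
    have e : (i + 1) * p = i * p + p := by ring
    have e1 : 1 + be * (p : ℚ) + ((i * p : ℕ) : ℚ) = 1 + (be + i) * p := by
      push_cast
      ring
    rw [e, P_add, ih, e1, block_one, P_succ, Finset.prod_range_succ, pow_succ]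
    ring

/-- `prod (a_x + p^2 w) = prod a_x` mod `p^3` if `sum 1/a_x = 0` mod `p`. -/
private theorem prod_shift (hp : p ≠ 2) {w : ℚ} (hw : w ∈ ZL p) (n : ℕ) (a : ℕ → ℚ)
    (ha : ∀ x ∈ range n, Un p (a x)) (hs : Cg p 1 (∑ x ∈ range n, 1 / a x) 0) :
    Cg p 3 (∏ x ∈ range n, (a x + p ^ 2 * w)) (∏ x ∈ range n, a x) := by
  have hpm : (p : ℚ) ∈ ZL p := natCast_mem _ p
  have h1 := Ex.prod hp (range n) (fun x => a x + p * (p * w)) a (fun x => p * w / a x)
    (fun x => -(p * w / a x) ^ 2) fun x hx => Ex.base (ha x hx) (mul_mem hpm hw)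
  have hsm : ∑ x ∈ range n, 1 / a x ∈ ZL p := hs.mem (zero_mem _)
  have e1 : ∑ x ∈ range n, p * w / a x = p * w * ∑ x ∈ range n, 1 / a x := by
    rw [Finset.mul_sum]
    exact Finset.sum_congr rfl fun x _ => by ring
  have hu : Cg p 2 (∑ x ∈ range n, p * w / a x) 0 := by
    rw [e1]
    obtain ⟨z, hz, ez⟩ := hs
    refine ⟨w * z, mul_mem hw hz, ?_⟩
    linear_combination (p * w) * ez
  have hv : Cg p 1 (∑ x ∈ range n, -(p * w / a x) ^ 2) 0 := by
    refine ⟨-(p * w ^ 2) * ∑ x ∈ range n, (1 / a x) ^ 2, ?_, ?_⟩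
    · refine mul_mem (neg_mem (mul_mem hpm (pow_mem hw 2))) (sum_mem fun x hx => ?_)
      rw [one_div]
      exact pow_mem (ha x hx).inv_mem 2
    · rw [sub_zero, Finset.mul_sum, Finset.mul_sum]
      exact Finset.sum_congr rfl fun x _ => by ring
  have h2 := h1.change hp hu hv
  have h3 := h2.2.2.2
  have e2 : ∏ x ∈ range n, (a x + p ^ 2 * w) = ∏ x ∈ range n, (a x + p * (p * w)) :=
    Finset.prod_congr rfl fun x _ => by ring
  rw [e2]
  refine h3.trans (Cg.of_eq ?_)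
  ring

private theorem fact_sq (n : ℕ) :
    ∏ x ∈ range n, (-((x : ℚ) + 1) ^ 2) = (-1) ^ n * (n.factorial : ℚ) ^ 2 := by
  induction n with
  | zero => simp
  | succ n ih =>
    rw [Finset.prod_range_succ, ih, Nat.factorial_succ, pow_succ]
    push_cast
    ring

private theorem un_succ {x : ℕ} (hx : x + 1 < p) : Un p ((x : ℚ) + 1) := by
  have h := un_one_add (p := p) hx
  rwa [add_comm] at h

private theorem nn_lt {x : ℕ} (hx : x ∈ range (nn p)) : x + 1 < p := by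
  have h1 := Finset.mem_range.1 hx
  unfold nn at h1
  omega

/-- `w - x^2 = -x^2 (1 - w/x^2)` with `w = (be+1/2)^2 p^2`; modulo `p^3` the product is
`(-1)^n n!^2 (1 - w sum 1/x^2)` and `sum 1/x^2 = H2 (nn p) = 0` mod `p` (`H2_nn`). A convenient
intermediate claim by induction on `m ≤ nn p`:
`prod_{x<m} (w - (x+1)^2) = (-1)^m m!^2 (1 - w H2 m)` mod `p^3`. -/
theorem Gb_cg (hp : 3 < p) {be : ℚ} (hb : be ∈ ZL p) :
    Cg p 3 (Gb p be) ((-1) ^ nn p * ((nn p).factorial : ℚ) ^ 2) := by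
  have hp2 : p ≠ 2 := by omega
  rw [← fact_sq]
  have hw : (be + 1 / 2) ^ 2 ∈ ZL p := pow_mem (add_mem hb (half_mem_ex hp2)) 2
  have hs : Cg p 1 (∑ x ∈ range (nn p), 1 / (-((x : ℚ) + 1) ^ 2)) 0 := by
    have e : ∑ x ∈ range (nn p), 1 / (-((x : ℚ) + 1) ^ 2) = -H2 (nn p) := by
      unfold H2
      rw [← Finset.sum_neg_distrib]
      refine Finset.sum_congr rfl fun x _ => ?_
      rw [div_neg]
    rw [e]
    simpa using (H2_nn hp).neg
  have h := prod_shift hp2 hw (nn p) (fun x : ℕ => -((x : ℚ) + 1) ^ 2)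
    (fun x hx => ((un_succ (nn_lt hx)).pow 2).neg) hs
  unfold Gb
  refine Cg.trans (Cg.of_eq ?_) h
  exact Finset.prod_congr rfl fun x _ => by ring

/-- pairing of the factors -/
private theorem prod_pair (f : ℕ → ℚ) (n : ℕ) :
    ∏ s ∈ range (2 * n), f s = ∏ x ∈ range n, (f x * f (2 * n - 1 - x)) := by
  have h1 : ∏ s ∈ range (2 * n), f s = (∏ x ∈ range n, f x) * ∏ x ∈ range n, f (n + x) := by
    rw [two_mul, Finset.prod_range_add]
  have h2 : ∏ x ∈ range n, f (n + x) = ∏ x ∈ range n, f (2 * n - 1 - x) := by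
    rw [← Finset.prod_range_reflect (fun x => f (n + x)) n]
    refine Finset.prod_congr rfl fun x hx => ?_
    have := Finset.mem_range.1 hx
    congr 1
    omega
  rw [h1, h2, ← Finset.prod_mul_distrib]

private theorem Kb_pair (hp : p ≠ 2) (be : ℚ) :
    Kb p be = ∏ x ∈ range (nn p), (((x : ℚ) + 1) * (p - ((x : ℚ) + 1)) +
      (p : ℚ) ^ 2 * (be * (be + 1))) := by
  have hpe := p_eq hp
  have hpq : (p : ℚ) = 2 * (nn p : ℚ) + 1 := by
    conv_lhs => rw [hpe]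
    push_cast
    ring
  have h1 : p - 1 = 2 * nn p := by omega
  unfold Kb
  rw [h1, prod_pair]
  refine Finset.prod_congr rfl fun x hx => ?_
  have hx' := Finset.mem_range.1 hx
  have e : ((2 * nn p - 1 - x : ℕ) : ℚ) = p - 2 - x := by
    have e1 : 2 * nn p - 1 - x + (x + 2) = p := by omega
    have e2 : ((2 * nn p - 1 - x : ℕ) : ℚ) + (x + 2) = p := by exact_mod_cast e1
    linear_combination e2
  rw [e]
  ring

private theorem Kb_zero : Kb p 0 = ((p - 1).factorial : ℚ) := by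
  unfold Kb
  rw [← P_one]
  unfold P
  exact Finset.prod_congr rfl fun x _ => by ring

private theorem un_p_sub {x : ℕ} (hx : x + 1 < p) : Un p ((p : ℚ) - ((x : ℚ) + 1)) := by
  have h : Un p (((p - (x + 1) : ℕ)) : ℚ) :=
    un_nat (Nat.not_dvd_of_pos_of_lt (by omega) (by omega))
  have e : (((p - (x + 1) : ℕ)) : ℚ) = (p : ℚ) - ((x : ℚ) + 1) := by
    rw [Nat.cast_sub hx.le]
    push_cast
    ring
  rwa [e] at h

/-- Pair `s` and `p-s`: `(s + be p)(p - s + be p) = s(p-s) + be(be+1) p^2`. So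
`Kb p be = prod_{s=1}^n (s(p-s) + w)`, `w = be(be+1)p^2`, and `(p-1)! = prod_{s=1}^n s(p-s)`
(the case `be = 0`). Modulo `p^3`: `Kb p be = (p-1)! (1 + w sum 1/(s(p-s)))` and
`sum 1/(s(p-s)) = - H2 (nn p) = 0` mod `p`. -/
theorem Kb_cg (hp : 3 < p) {be : ℚ} (hb : be ∈ ZL p) :
    Cg p 3 (Kb p be) ((p - 1).factorial : ℚ) := by
  have hp2 : p ≠ 2 := by omega
  have hw : be * (be + 1) ∈ ZL p := mul_mem hb (add_mem hb (one_mem _))
  have h0 : ((p - 1).factorial : ℚ) =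
      ∏ x ∈ range (nn p), (((x : ℚ) + 1) * (p - ((x : ℚ) + 1))) := by
    rw [← Kb_zero, Kb_pair hp2]
    exact Finset.prod_congr rfl fun x _ => by ring
  rw [h0, Kb_pair hp2]
  refine prod_shift hp2 hw (nn p) (fun x : ℕ => ((x : ℚ) + 1) * (p - ((x : ℚ) + 1)))
    (fun x hx => (un_succ (nn_lt hx)).mul (un_p_sub (nn_lt hx))) ?_
  have h1 : Cg p 1 (∑ x ∈ range (nn p), 1 / (((x : ℚ) + 1) * (p - ((x : ℚ) + 1))))
      (∑ x ∈ range (nn p), -(1 / ((x : ℚ) + 1) ^ 2)) := by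
    refine Cg.sum _ _ _ fun x hx => ?_
    have u1 := un_succ (nn_lt hx)
    have u2 := un_p_sub (nn_lt hx)
    refine ⟨1 / (((x : ℚ) + 1) ^ 2 * (p - ((x : ℚ) + 1))),
      div_mem (one_mem _) ((u1.pow 2).mul u2), ?_⟩
    have n1 := u1.ne
    have n2 := u2.ne
    field_simp
    ring
  refine h1.trans ?_
  have e : ∑ x ∈ range (nn p), -(1 / ((x : ℚ) + 1) ^ 2) = -H2 (nn p) := by
    unfold H2
    rw [Finset.sum_neg_distrib]
  rw [e]
  simpa using (H2_nn hp).neg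

/-- `(p-1)! = prod_{s=1}^n s (p-s) = (-1)^n prod s^2 (1 - p/s)`, so
`om p = 1/prod_{s=1}^n (1 - p/s)`; use `Ex.base`, `Ex.prod`, `Ex.inv`: it is
`Ex p (om p) 1 (H n) (H2 n)` and `H2 n = 0` mod `p` (`Ex.change`). -/
theorem Ex_om (hp : 3 < p) : Ex p (om p) 1 (H (nn p)) 0 := by
  have hp2 : p ≠ 2 := by omega
  have hf : ∏ x ∈ range (nn p), ((x : ℚ) + 1) = ((nn p).factorial : ℚ) := by
    rw [← P_one]
    unfold P
    exact Finset.prod_congr rfl fun x _ => by ring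
  have hfu : Un p ((nn p).factorial : ℚ) := by
    rw [← hf]
    exact Un.prod _ _ fun x hx => un_succ (nn_lt hx)
  have h1 := Ex.prod hp2 (range (nn p)) (fun x : ℕ => ((x : ℚ) + 1) + p * (-1))
    (fun x : ℕ => (x : ℚ) + 1) (fun x : ℕ => (-1) / ((x : ℚ) + 1))
    (fun x : ℕ => -((-1) / ((x : ℚ) + 1)) ^ 2)
    fun x hx => Ex.base (un_succ (nn_lt hx)) (neg_mem (one_mem _))
  have e1 : ∑ x ∈ range (nn p), (-1) / ((x : ℚ) + 1) = -H (nn p) := by
    unfold H
    rw [← Finset.sum_neg_distrib]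
    exact Finset.sum_congr rfl fun x _ => by ring
  have e2 : ∑ x ∈ range (nn p), -((-1) / ((x : ℚ) + 1)) ^ 2 = -H2 (nn p) := by
    unfold H2
    rw [← Finset.sum_neg_distrib]
    refine Finset.sum_congr rfl fun x _ => ?_
    rw [div_pow]
    norm_num
  rw [e1, e2, hf] at h1
  have h2 := (Ex.self hfu).div hp2 h1
  have e3 : ((nn p).factorial : ℚ) / ∏ x ∈ range (nn p), (((x : ℚ) + 1) + p * (-1)) = om p := by
    have h0 : ((p - 1).factorial : ℚ) =
        ∏ x ∈ range (nn p), (((x : ℚ) + 1) * (p - ((x : ℚ) + 1))) := by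
      rw [← Kb_zero, Kb_pair hp2]
      exact Finset.prod_congr rfl fun x _ => by ring
    have h3 : ((p - 1).factorial : ℚ) = (-1) ^ nn p * (((nn p).factorial : ℚ) *
        ∏ x ∈ range (nn p), (((x : ℚ) + 1) + p * (-1))) := by
      rw [h0, ← hf, ← Finset.prod_mul_distrib]
      have h4 : ((-1 : ℚ)) ^ nn p = ∏ x ∈ range (nn p), (-1 : ℚ) := by
        rw [Finset.prod_const, Finset.card_range]
      rw [h4, ← Finset.prod_mul_distrib]
      exact Finset.prod_congr rfl fun x _ => by ring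
    have hz : ∏ x ∈ range (nn p), (((x : ℚ) + 1) + p * (-1)) ≠ 0 := (h1.un hp2).ne
    have hfz := hfu.ne
    have hs : ((-1 : ℚ)) ^ nn p ≠ 0 := pow_ne_zero _ (by norm_num)
    have hs2 : ((-1 : ℚ)) ^ nn p * (-1 : ℚ) ^ nn p = 1 := by
      rw [← mul_pow]
      norm_num
    unfold om
    rw [h3]
    field_simp
  rw [e3, div_self hfu.ne] at h2
  refine h2.change hp2 (Cg.of_eq (by ring)) ?_
  have e4 : (0 : ℚ) - -H2 (nn p) = H2 (nn p) := by ring
  rw [e4]
  exact H2_nn hp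

end H48SC
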