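import Pool.Agent.H48SC.Saal

/-!
# Bailey's terminating cubic transformation at z = -4
-/

namespace H48SC

open Finset

private lemma P_rev (x : ℚ) (m : ℕ) : P (1 - x - m) m = (-1) ^ m * P x m := by
  unfold P
  rw [← Finset.prod_range_reflect]
  have h : ∀ s ∈ range m, ((1 : ℚ) - x - m + ((m - 1 - s : ℕ) : ℚ)) = (-1) * (x + s) := by
    intro s hs
    have hs' := Finset.mem_range.1 hs
    obtain ⟨k, rfl⟩ : ∃ k, m = s + 1 + k := ⟨m - (s + 1), by omega⟩
    have e : s + 1 + k - 1 - s = k := by omega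
    rw [e]
    push_cast
    ring
  rw [Finset.prod_congr rfl h, Finset.prod_mul_distrib, Finset.prod_const, Finset.card_range]

private lemma be_ne (N j s : ℕ) : (3 - 2 * (N : ℚ)) / 4 + j + s ≠ 0 := by
  intro h
  have h1 : (3 : ℚ) + 4 * j + 4 * s = 2 * N := by linarith
  have h2 : 3 + 4 * j + 4 * s = 2 * N := by exact_mod_cast h1
  omega

private lemma P_be_ne (N m : ℕ) : P ((3 - 2 * (N : ℚ)) / 4) m ≠ 0 := by
  refine P_ne_zero _ _ fun s _ => ?_
  have := be_ne N 0 s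
  simpa using this

/-- The inner sum. `b = (3-2N)/4`. From `saal` with `n = m`, `a = (m-N)/2`, `b = (m-N+1)/2`,
`c = (3-2N)/4` (call it `be`): here
`(a)_j (b)_j = P (m-N) (2j) / 4^j` by `P_double` (with `x = (m-N)/2`),
`P (be+j) (m-j) = P be m / P be j` by `P_add` (`P be j` is not zero: `3 - 2N + 4s` is odd),
`c - a - b = (1+2N)/4 - m`, and reversing the order of the factors
`P ((1+2N)/4 - m) (m-j) = (-1)^(m-j) P (be+j) (m-j)`,
`c - a = (3-2m)/4`, `c - b = (1-2m)/4` and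
`P ((3-2m)/4) m * P ((1-2m)/4) m = P ((1-2m)/2) (2m) / 4^m = (-1)^m P (1/2) m ^ 2 / 4^m`
(`P_double`; the factors of `P (1/2-m) (2m)` are `1/2-m, ..., -1/2, 1/2, ..., m-1/2`). -/
theorem cubic_inner (N m : ℕ) :
    ∑ j ∈ range (m + 1), (-1 : ℚ) ^ j * (m.choose j : ℚ) * P ((m : ℚ) - N) (2 * j) /
      (4 ^ j * P ((3 - 2 * (N : ℚ)) / 4) j ^ 2)
      = P (1 / 2) m ^ 2 / (4 ^ m * P ((3 - 2 * (N : ℚ)) / 4) m ^ 2) := by
  obtain ⟨be, hbe⟩ : ∃ be : ℚ, be = (3 - 2 * (N : ℚ)) / 4 := ⟨_, rfl⟩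
  have hs := saal m (((m : ℚ) - N) / 2) (((m : ℚ) - N) / 2 + 1 / 2) be
  have e1 : be - ((m : ℚ) - N) / 2 - (((m : ℚ) - N) / 2 + 1 / 2) = 1 - be - m := by
    rw [hbe]; ring
  have e2 : be - ((m : ℚ) - N) / 2 = (1 - 2 * (m : ℚ)) / 4 + 1 / 2 := by rw [hbe]; ring
  have e3 : be - (((m : ℚ) - N) / 2 + 1 / 2) = (1 - 2 * (m : ℚ)) / 4 := by rw [hbe]; ring
  rw [e1, e2, e3] at hs
  have hd : (4 : ℚ) ^ m * (P ((1 - 2 * (m : ℚ)) / 4) m * P ((1 - 2 * (m : ℚ)) / 4 + 1 / 2) m)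
      = (-1) ^ m * P (1 / 2) m ^ 2 := by
    rw [← P_double]
    have e4 : 2 * ((1 - 2 * (m : ℚ)) / 4) = 1 - 1 / 2 - m := by ring
    have e5 : (1 : ℚ) - 1 / 2 - m + m = 1 / 2 := by ring
    rw [e4, two_mul m, P_add, P_rev, e5]
    ring
  have hne : P be m ≠ 0 := by rw [hbe]; exact P_be_ne N m
  have h4 : (4 : ℚ) ^ m ≠ 0 := by positivity
  rw [← hbe]
  have hR : P (1 / 2) m ^ 2 / (4 ^ m * P be m ^ 2) = (-1) ^ m / P be m ^ 2 *
      (P ((1 - 2 * (m : ℚ)) / 4 + 1 / 2) m * P ((1 - 2 * (m : ℚ)) / 4) m) := by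
    have hsq : ((-1 : ℚ) ^ m) * (-1) ^ m = 1 := by rw [← mul_pow]; norm_num
    have : P (1 / 2) m ^ 2 = (-1) ^ m * ((4 : ℚ) ^ m * (P ((1 - 2 * (m : ℚ)) / 4) m *
        P ((1 - 2 * (m : ℚ)) / 4 + 1 / 2) m)) := by
      rw [hd, ← mul_assoc, hsq, one_mul]
    rw [this]
    field_simp
  rw [hR, ← hs, Finset.mul_sum]
  refine Finset.sum_congr rfl fun j hj => ?_
  have hj' : j ≤ m := by have := Finset.mem_range.1 hj; omega
  obtain ⟨k, rfl⟩ : ∃ k, m = j + k := ⟨m - j, by omega⟩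
  have ek : j + k - j = k := by omega
  rw [ek]
  have e6 : (1 : ℚ) - be - ((j + k : ℕ) : ℚ) = 1 - (be + j) - k := by push_cast; ring
  rw [e6, P_rev, P_add be j k]
  have hd2 := P_double ((((j + k : ℕ) : ℚ) - N) / 2) j
  have e7 : 2 * ((((j + k : ℕ) : ℚ) - N) / 2) = ((j + k : ℕ) : ℚ) - N := by ring
  rw [e7] at hd2
  rw [hd2]
  rw [P_add be j k] at hne
  have h1 : P be j ≠ 0 := left_ne_zero_of_mul hne
  have h2 : P (be + j) k ≠ 0 := right_ne_zero_of_mul hne
  have h3 : (4 : ℚ) ^ j ≠ 0 := by positivity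
  generalize P be j = X at *
  generalize P (be + j) k = Y at *
  generalize P ((((j + k : ℕ) : ℚ) - N) / 2) j = A
  generalize P ((((j + k : ℕ) : ℚ) - N) / 2 + 1 / 2) j = B
  generalize (((j + k).choose j : ℕ) : ℚ) = C
  have hsq : ((-1 : ℚ) ^ k) * (-1) ^ k = 1 := by rw [← mul_pow]; norm_num
  rw [pow_add (-1 : ℚ) j k]
  have key : (-1 : ℚ) ^ j * C * (4 ^ j * (A * B)) / (4 ^ j * X ^ 2) =
      (((-1 : ℚ) ^ k) * (-1) ^ k) * ((-1 : ℚ) ^ j * C * (A * B) / X ^ 2) := by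
    rw [hsq, one_mul]
    field_simp
  rw [key]
  field_simp

/-- the double summand -/
private def ff (N m j : ℕ) : ℚ :=
  (N.choose m : ℚ) * 4 ^ m * ((-1 : ℚ) ^ j * (m.choose j : ℚ) * P ((m : ℚ) - N) (2 * j) /
      (4 ^ j * P ((3 - 2 * (N : ℚ)) / 4) j ^ 2))

private lemma ff_zero (N m j : ℕ) (hm : m ≤ N) (h : ¬ (j ≤ m ∧ m + 2 * j ≤ N)) :
    ff N m j = 0 := by
  unfold ff
  by_cases h1 : j ≤ m
  · have h2 : N < m + 2 * j := by
      by_contra h3
      exact h ⟨h1, by omega⟩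
    have e : ((m : ℚ) - N) = -((N - m : ℕ) : ℚ) := by
      rw [Nat.cast_sub hm]; ring
    rw [e, P_neg_zero (N - m) (2 * j) (by omega)]
    simp
  · rw [Nat.choose_eq_zero_of_lt (by omega : m < j)]
    simp

private lemma ff_eq (N j l : ℕ) (h : 3 * j + l ≤ N) :
    ff N (j + l) j = P (-(N : ℚ)) (3 * j) * (4 ^ l * ((N - 3 * j).choose l : ℚ)) /
        (j.factorial * P ((3 - 2 * (N : ℚ)) / 4) j ^ 2) := by
  unfold ff
  obtain ⟨r, rfl⟩ : ∃ r, N = 3 * j + l + r := ⟨N - (3 * j + l), by omega⟩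
  have hne := P_be_ne (3 * j + l + r) j
  rw [P_neg (3 * j + l + r) (3 * j) (by omega)]
  have e : (((j + l : ℕ) : ℚ) - ((3 * j + l + r : ℕ) : ℚ)) = -((2 * j + r : ℕ) : ℚ) := by
    push_cast; ring
  rw [e, P_neg (2 * j + r) (2 * j) (by omega)]
  have e1 : 2 * j + r - 2 * j = r := by omega
  have e2 : 3 * j + l + r - 3 * j = l + r := by omega
  rw [e1, e2]
  have hc1 : (((3 * j + l + r).choose (j + l) : ℕ) : ℚ) * ((j + l).factorial : ℚ) *
      ((2 * j + r).factorial : ℚ) = (3 * j + l + r).factorial := by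
    have h := Nat.choose_mul_factorial_mul_factorial (by omega : j + l ≤ 3 * j + l + r)
    have e3 : 3 * j + l + r - (j + l) = 2 * j + r := by omega
    rw [e3] at h
    exact_mod_cast h
  have hc2 : (((j + l).choose j : ℕ) : ℚ) * (j.factorial : ℚ) * (l.factorial : ℚ) =
      (j + l).factorial := by
    have h := Nat.choose_mul_factorial_mul_factorial (by omega : j ≤ j + l)
    have e3 : j + l - j = l := by omega
    rw [e3] at h
    exact_mod_cast h
  have hc3 : (((l + r).choose l : ℕ) : ℚ) * (l.factorial : ℚ) * (r.factorial : ℚ) =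
      (l + r).factorial := by
    have h := Nat.choose_mul_factorial_mul_factorial (by omega : l ≤ l + r)
    have e3 : l + r - l = r := by omega
    rw [e3] at h
    exact_mod_cast h
  have f1 : (j.factorial : ℚ) ≠ 0 := by exact_mod_cast j.factorial_ne_zero
  have f2 : (l.factorial : ℚ) ≠ 0 := by exact_mod_cast l.factorial_ne_zero
  have f3 : (r.factorial : ℚ) ≠ 0 := by exact_mod_cast r.factorial_ne_zero
  have f4 : ((j + l).factorial : ℚ) ≠ 0 := by exact_mod_cast (j + l).factorial_ne_zero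
  have f5 : ((2 * j + r).factorial : ℚ) ≠ 0 := by exact_mod_cast (2 * j + r).factorial_ne_zero
  have f6 : ((l + r).factorial : ℚ) ≠ 0 := by exact_mod_cast (l + r).factorial_ne_zero
  have g1 : (((3 * j + l + r).choose (j + l) : ℕ) : ℚ) = (3 * j + l + r).factorial /
      (((j + l).factorial : ℚ) * ((2 * j + r).factorial : ℚ)) := by
    rw [eq_div_iff (mul_ne_zero f4 f5), ← hc1]; ring
  have g2 : (((j + l).choose j : ℕ) : ℚ) = (j + l).factorial /
      ((j.factorial : ℚ) * (l.factorial : ℚ)) := by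
    rw [eq_div_iff (mul_ne_zero f1 f2), ← hc2]; ring
  have g3 : (((l + r).choose l : ℕ) : ℚ) = (l + r).factorial /
      ((l.factorial : ℚ) * (r.factorial : ℚ)) := by
    rw [eq_div_iff (mul_ne_zero f2 f3), ← hc3]; ring
  rw [g1, g2, g3]
  have s1 : (-1 : ℚ) ^ (2 * j) = 1 := by rw [pow_mul]; norm_num
  have s2 : (-1 : ℚ) ^ (3 * j) = (-1) ^ j := by rw [pow_mul]; norm_num
  have s3 : (4 : ℚ) ^ (j + l) = 4 ^ j * 4 ^ l := pow_add _ _ _
  rw [s1, s2, s3]
  have h4 : (4 : ℚ) ^ j ≠ 0 := by positivity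
  generalize ((3 * j + l + r).factorial : ℚ) = T at *
  generalize P ((3 - 2 * ((3 * j + l + r : ℕ) : ℚ)) / 4) j = B at *
  field_simp

/-- The cubic transformation at `z = -4`. Write `5^(N-3j) = sum_l C(N-3j,l) 4^l`, put `m = j + l`;
for `j ≤ m`, `3j ≤ N`:
`P (-N) (3j) = (-1)^(3j) N!/(N-3j)!` and `C(N-3j,m-j) = (N-3j)!/((m-j)! (N-m-2j)!)`, hence
`P (-N) (3j) * C(N-3j,m-j)/j! = (-1)^j N!/(j! (m-j)! (N-m-2j)!)
   = (-1)^j C(N,m) C(m,j) P (m-N) (2j)`   (for `m ≤ N`; both sides are 0 if `m + 2j > N`).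
So the right hand side is
`sum_m 4^m C(N,m) sum_j (-1)^j C(m,j) P (m-N) (2j)/(4^j (b)_j^2)`
and `cubic_inner` gives `sum_m C(N,m) (1/2)_m^2/(b)_m^2`; finally
`C(N,m) = (-1)^m P (-N) m / P 1 m`. -/
theorem cubic (N : ℕ) :
    ∑ m ∈ range (N + 1), (-1 : ℚ) ^ m * P (-(N : ℚ)) m * P (1 / 2) m ^ 2 /
      (P 1 m * P ((3 - 2 * (N : ℚ)) / 4) m ^ 2)
      = ∑ j ∈ range (N / 3 + 1), P (-(N : ℚ)) (3 * j) * 5 ^ (N - 3 * j) /
        (j.factorial * P ((3 - 2 * (N : ℚ)) / 4) j ^ 2) := by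
  have hL : ∀ m ∈ range (N + 1), (-1 : ℚ) ^ m * P (-(N : ℚ)) m * P (1 / 2) m ^ 2 /
      (P 1 m * P ((3 - 2 * (N : ℚ)) / 4) m ^ 2) =
      ∑ j ∈ range (N + 1), ff N m j := by
    intro m hm
    have hm' : m ≤ N := by have := Finset.mem_range.1 hm; omega
    have hsq : ((-1 : ℚ) ^ m) * (-1) ^ m = 1 := by rw [← mul_pow]; norm_num
    have hne := P_be_ne N m
    have h4 : (4 : ℚ) ^ m ≠ 0 := by positivity
    have hc : (N.choose m : ℚ) * (m.factorial : ℚ) * ((N - m).factorial : ℚ) = N.factorial := by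
      exact_mod_cast Nat.choose_mul_factorial_mul_factorial hm'
    have hf1 : (m.factorial : ℚ) ≠ 0 := by exact_mod_cast m.factorial_ne_zero
    have hf2 : ((N - m).factorial : ℚ) ≠ 0 := by exact_mod_cast (N - m).factorial_ne_zero
    have hstep : (-1 : ℚ) ^ m * P (-(N : ℚ)) m * P (1 / 2) m ^ 2 /
        (P 1 m * P ((3 - 2 * (N : ℚ)) / 4) m ^ 2) =
        (N.choose m : ℚ) * 4 ^ m * (P (1 / 2) m ^ 2 /
          (4 ^ m * P ((3 - 2 * (N : ℚ)) / 4) m ^ 2)) := by
      rw [P_neg N m hm', P_one, ← hc]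
      have : (-1 : ℚ) ^ m * ((-1) ^ m * ((N.choose m : ℚ) * (m.factorial : ℚ) *
          ((N - m).factorial : ℚ) / ((N - m).factorial : ℚ))) =
          (N.choose m : ℚ) * (m.factorial : ℚ) := by
        rw [← mul_assoc, hsq, one_mul]
        field_simp
      rw [this]
      field_simp
    rw [hstep, ← cubic_inner, Finset.mul_sum]
    have hsub : range (m + 1) ⊆ range (N + 1) := by
      intro x hx
      have := Finset.mem_range.1 hx
      exact Finset.mem_range.2 (by omega)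
    rw [← Finset.sum_subset hsub]
    · refine Finset.sum_congr rfl fun j _ => ?_
      unfold ff
      ring
    · intro j _ hj
      have hj' : m < j := by
        by_contra h
        exact hj (Finset.mem_range.2 (by omega))
      unfold ff
      rw [Nat.choose_eq_zero_of_lt hj']
      simp
  rw [Finset.sum_congr rfl hL, Finset.sum_comm]
  have hsub : range (N / 3 + 1) ⊆ range (N + 1) := by
    intro x hx
    have := Finset.mem_range.1 hx
    exact Finset.mem_range.2 (by omega)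
  rw [← Finset.sum_subset hsub]
  · refine Finset.sum_congr rfl fun j hj => ?_
    have hj3 : 3 * j ≤ N := by have := Finset.mem_range.1 hj; omega
    have hI : Finset.Ico j (N - 2 * j + 1) ⊆ range (N + 1) := by
      intro x hx
      have := Finset.mem_Ico.1 hx
      exact Finset.mem_range.2 (by omega)
    rw [← Finset.sum_subset hI (fun m hm hm' => ff_zero N m j (by
      have h1 := Finset.mem_range.1 hm
      omega) (by
      intro h
      have h1 := Finset.mem_range.1 hm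
      exact hm' (Finset.mem_Ico.2 (by omega)))), Finset.sum_Ico_eq_sum_range]
    have e1 : N - 2 * j + 1 - j = N - 3 * j + 1 := by omega
    rw [e1]
    have h5 : (5 : ℚ) ^ (N - 3 * j) = ∑ l ∈ range (N - 3 * j + 1),
        (4 : ℚ) ^ l * ((N - 3 * j).choose l : ℚ) := by
      have h := add_pow (4 : ℚ) 1 (N - 3 * j)
      have e : (4 : ℚ) + 1 = 5 := by norm_num
      rw [e] at h
      rw [h]
      refine Finset.sum_congr rfl fun l _ => ?_
      rw [one_pow, mul_one]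
    rw [h5, Finset.mul_sum, Finset.sum_div]
    refine Finset.sum_congr rfl fun l hl => ?_
    have hl' : l ≤ N - 3 * j := by have := Finset.mem_range.1 hl; omega
    exact ff_eq N j l (by omega)
  · intro j _ hj
    have hj' : N < 3 * j := by
      by_contra h
      exact hj (Finset.mem_range.2 (by omega))
    refine Finset.sum_eq_zero fun m hm => ff_zero N m j ?_ (by omega)
    have h1 := Finset.mem_range.1 hm
    omega

end H48SC
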