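import Mathlib

/-!
# Definitions for the supercongruence S(p) - (5/p) T(p) = (9/50) p^2 E_n mod p^3

`ZL p` is the ring of p-integral rational numbers, `Cg p k x y` is congruence modulo `p^k`
in it, `Un p x` says that `x` is a unit of it.
-/

namespace H48SC

open Finset

/-- The subring of rationals whose denominator is not divisible by `p`. -/
def ZL (p : ℕ) [Fact p.Prime] : Subring ℚ where
  carrier := {x | ¬ p ∣ x.den}
  mul_mem' := by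
    intro a b ha hb h
    have h1 := h.trans (Rat.mul_den_dvd a b)
    rcases (Nat.Prime.dvd_mul (Fact.out : p.Prime)).1 h1 with h2 | h2
    · exact ha h2
    · exact hb h2
  one_mem' := by
    intro h
    have h1 : p ∣ 1 := h
    exact (Fact.out : p.Prime).one_lt.ne' (Nat.dvd_one.1 h1)
  add_mem' := by
    intro a b ha hb h
    have h1 := h.trans (Rat.add_den_dvd a b)
    rcases (Nat.Prime.dvd_mul (Fact.out : p.Prime)).1 h1 with h2 | h2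
    · exact ha h2
    · exact hb h2
  zero_mem' := by
    intro h
    have h1 : p ∣ 1 := h
    exact (Fact.out : p.Prime).one_lt.ne' (Nat.dvd_one.1 h1)
  neg_mem' := by
    intro a ha h
    apply ha
    simpa using h

/-- Congruence modulo `p^k` in `ZL p`. -/
def Cg (p k : ℕ) [Fact p.Prime] (x y : ℚ) : Prop :=
  ∃ z ∈ ZL p, x - y = (p : ℚ) ^ k * z

/-- Units of `ZL p`. -/
def Un (p : ℕ) [Fact p.Prime] (x : ℚ) : Prop :=
  x ≠ 0 ∧ x ∈ ZL p ∧ x⁻¹ ∈ ZL p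

/-- Rising product `x (x+1) ... (x+m-1)`. -/
def P (x : ℚ) (m : ℕ) : ℚ := ∏ s ∈ range m, (x + s)

/-- `A = a exp (p u + p^2 v / 2)` modulo `p^3`, with `a` a unit. -/
def Ex (p : ℕ) [Fact p.Prime] (A a u v : ℚ) : Prop :=
  Un p a ∧ u ∈ ZL p ∧ v ∈ ZL p ∧ Cg p 3 A (a * (1 + p * u + p ^ 2 / 2 * (u ^ 2 + v)))

/-- Harmonic number. -/
def H (m : ℕ) : ℚ := ∑ i ∈ range m, 1 / ((i : ℚ) + 1)

/-- Second order harmonic number. -/
def H2 (m : ℕ) : ℚ := ∑ i ∈ range m, 1 / ((i : ℚ) + 1) ^ 2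

/-- Sum of `1/(1/2+i)` for `i < m`. -/
def O1 (m : ℕ) : ℚ := ∑ i ∈ range m, 1 / (1 / 2 + (i : ℚ))

/-- Sum of `1/(1/2+i)^2` for `i < m`. -/
def O2 (m : ℕ) : ℚ := ∑ i ∈ range m, 1 / (1 / 2 + (i : ℚ)) ^ 2

/-- `(p-1)/2`. -/
def nn (p : ℕ) : ℕ := (p - 1) / 2

/-- `c_r = (-1)^r ((1/2)_r / r!)^3 = C(2r,r)^3/(-64)^r`. -/
def c (r : ℕ) : ℚ := (-1) ^ r * (P (1 / 2) r / r.factorial) ^ 3

/-- `d_r = O1(r) - H(r) + H((p-1)/2)`. -/
def dd (p r : ℕ) : ℚ := O1 r - H r + H (nn p)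

/-- The sums over `r ≤ (p-1)/2`. -/
def S0 (p : ℕ) : ℚ := ∑ r ∈ range (nn p + 1), c r
def D1 (p : ℕ) : ℚ := ∑ r ∈ range (nn p + 1), c r * (O1 r - H r)
def D2 (p : ℕ) : ℚ := ∑ r ∈ range (nn p + 1), c r * (O1 r - H r) ^ 2
def QQ (p : ℕ) : ℚ := ∑ r ∈ range (nn p + 1), c r * O2 r
def RR (p : ℕ) : ℚ := ∑ r ∈ range (nn p + 1), c r * H2 r
def XX (p : ℕ) : ℚ := ∑ r ∈ range (nn p + 1), c r * dd p r ^ 2

/-- The left hand terms of the cubic transformation, `b = 1 + al p / 2`. -/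
def F (p : ℕ) (al : ℚ) (m : ℕ) : ℚ :=
  (-1) ^ m * P (1 / 2 + al * p) m * P (1 / 2) m ^ 2 / (P 1 m * P (1 + al / 2 * p) m ^ 2)

/-- The block sums. -/
def Psi (p : ℕ) (al : ℚ) (i : ℕ) : ℚ :=
  ∑ r ∈ range (nn p + 1), (-1) ^ r * P (1 / 2 + (al + i) * p) r * P (1 / 2 + i * p) r ^ 2 /
    (P (1 + i * p) r * P (1 + (al / 2 + i) * p) r ^ 2)

/-- The right hand side of the cubic transformation, truncated at `j < p`. -/
def Phi (p : ℕ) (al : ℚ) : ℚ :=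
  ∑ j ∈ range p, P (1 / 2 + al * p) (3 * j) /
    (j.factorial * P (1 + al / 2 * p) j ^ 2 * 125 ^ j)

/-- `alpha_k = -1/2 - k`. -/
def alk (k : ℕ) : ℚ := -1 / 2 - k

/-- The sum S(p). -/
def SS (p : ℕ) : ℚ :=
  ∑ j ∈ range ((p - 1) / 2 + 1), ((-64 : ℚ) ^ j)⁻¹ * (Nat.choose (2 * j) j : ℚ) ^ 3

/-- The sum T(p). -/
def TT (p : ℕ) : ℚ :=
  ∑ j ∈ range p, ((20 : ℚ) ^ (3 * j))⁻¹ * (Nat.choose (2 * j) j : ℚ) *
    (Nat.choose (3 * j) j : ℚ) * (Nat.choose (6 * j) (3 * j) : ℚ)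

/-- The sum E_m. -/
def E (m : ℕ) : ℚ :=
  ∑ j ∈ range (m + 1), (Nat.choose m j : ℚ) ^ 3 *
    (3 * (H j - H (m - j)) ^ 2 + H2 j + H2 (m - j))

end H48SC
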