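import Pool.Agent.H48SC.PsiExp

/-!
# 3/2 XX + RR = 1/2 E_n mod p, n = (p-1)/2
-/

namespace H48SC

open Finset

variable {p : ℕ} [Fact p.Prime]

private theorem two_nn (hp : 3 < p) : (p : ℚ) = 2 * (nn p : ℚ) + 1 := by
  have h2 : p ≠ 2 := by omega
  have ho := (Fact.out : p.Prime).odd_of_ne_two h2
  obtain ⟨k, hk⟩ := ho
  have h3 : nn p = k := by
    unfold nn
    omega
  rw [h3]
  exact_mod_cast hk

omit [Fact p.Prime] in
private theorem nn_lt (hp : 3 < p) : nn p < p := by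
  unfold nn
  omega

private theorem half_mem (hp : 3 < p) : (1 / 2 : ℚ) ∈ ZL p := by
  have h : ¬ p ∣ 2 := fun h => by
    have := Nat.le_of_dvd (by norm_num) h
    omega
  have h1 := (un_nat h).inv_mem
  rw [one_div]
  exact_mod_cast h1

private theorem fac_cg (hp : 3 < p) (s : ℕ) :
    Cg p 1 (1 / 2 + (s : ℚ)) (-(nn p : ℚ) + s) := by
  refine ⟨1 / 2, half_mem hp, ?_⟩
  rw [two_nn hp]
  ring

private theorem sum_inv (n r : ℕ) (hr : r ≤ n) :
    ∑ s ∈ range r, (-(n : ℚ) + s)⁻¹ = H (n - r) - H n := by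
  induction r with
  | zero => simp
  | succ r ih =>
    rw [Finset.sum_range_succ, ih (by omega)]
    obtain ⟨k, rfl⟩ : ∃ k, n = r + 1 + k := ⟨n - (r + 1), by omega⟩
    have e1 : r + 1 + k - r = k + 1 := by omega
    have e2 : r + 1 + k - (r + 1) = k := by omega
    rw [e1, e2]
    have e3 : H (k + 1) = H k + 1 / ((k : ℚ) + 1) := by
      simp only [H, Finset.sum_range_succ]
    have e4 : (-((r + 1 + k : ℕ) : ℚ) + r) = -((k : ℚ) + 1) := by
      push_cast
      ring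
    rw [e3, e4, inv_neg]
    ring

/-- `(1/2)_r = (-n)_r` mod `p` (since `1/2 + n = p/2`), so
`(1/2)_r/r! = (-1)^r C(n,r)` mod `p`; cube. -/
theorem c_binom (hp : 3 < p) {r : ℕ} (hr : r ≤ nn p) :
    Cg p 1 (c r) ((Nat.choose (nn p) r : ℚ) ^ 3) := by
  have h1 : Cg p 1 (P (1 / 2) r) (P (-(nn p : ℚ)) r) :=
    Cg.prod (range r) _ _ (fun s _ => fac_cg hp s)
      (fun i _ => add_mem (neg_mem (nat_mem _)) (nat_mem _))
  rw [P_neg (nn p) r hr] at h1
  have hf : Un p (r.factorial : ℚ) := by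
    apply un_nat
    rw [(Fact.out : p.Prime).dvd_factorial]
    have := nn_lt hp
    omega
  have hC : ((nn p).factorial : ℚ) =
      (Nat.choose (nn p) r : ℚ) * (r.factorial : ℚ) * ((nn p - r).factorial : ℚ) := by
    exact_mod_cast (Nat.choose_mul_factorial_mul_factorial hr).symm
  have hne : ((nn p - r).factorial : ℚ) ≠ 0 := by exact_mod_cast Nat.factorial_ne_zero _
  have h3 := h1.mul_right (r.factorial : ℚ)⁻¹ hf.inv_mem
  have e3 : (-1 : ℚ) ^ r * (((nn p).factorial : ℚ) / ((nn p - r).factorial : ℚ)) *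
      (r.factorial : ℚ)⁻¹ = (-1) ^ r * (Nat.choose (nn p) r : ℚ) := by
    rw [hC]
    field_simp [hf.ne, hne]
  rw [e3] at h3
  have hm1 : (-1 : ℚ) ^ r ∈ ZL p := pow_mem (neg_mem (one_mem _)) r
  have h4 := (h3.pow (mul_mem hm1 (nat_mem _)) 3).mul_left ((-1) ^ r) hm1
  have e4 : (-1 : ℚ) ^ r * ((-1) ^ r * (Nat.choose (nn p) r : ℚ)) ^ 3 =
      (Nat.choose (nn p) r : ℚ) ^ 3 := by
    have : ((-1 : ℚ) ^ r) ^ 2 = 1 := by
      rw [← pow_mul, mul_comm, pow_mul]
      norm_num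
    linear_combination ((Nat.choose (nn p) r : ℚ) ^ 3) * (((-1 : ℚ) ^ r) ^ 2 + 1) * this
  rw [e4] at h4
  have e5 : (-1 : ℚ) ^ r * (P (1 / 2) r * (r.factorial : ℚ)⁻¹) ^ 3 = c r := by
    unfold c
    rw [div_eq_mul_inv (P (1 / 2) r)]
  rw [e5] at h4
  exact h4


/-- `1/(1/2+s) = - 1/(n-s)` mod `p`, so `O1 r = -(H n - H (n-r))` mod `p`. -/
theorem dd_cg (hp : 3 < p) {r : ℕ} (hr : r ≤ nn p) :
    Cg p 1 (dd p r) (H (nn p - r) - H r) := by
  have hp2 : p ≠ 2 := by omega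
  have h1 : Cg p 1 (O1 r) (∑ s ∈ range r, (-(nn p : ℚ) + s)⁻¹) := by
    unfold O1
    apply Cg.sum
    intro s hs
    have hs' := Finset.mem_range.1 hs
    have hu : Un p (-(nn p : ℚ) + s) := by
      have h2 : Un p ((nn p - s : ℕ) : ℚ) := by
        apply un_nat
        intro h
        have h3 := Nat.le_of_dvd (by omega) h
        have := nn_lt hp
        omega
      have h4 := h2.neg
      rw [Nat.cast_sub (by omega)] at h4
      have e : -((nn p : ℚ) - s) = -(nn p : ℚ) + s := by ring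
      rwa [e] at h4
    rw [one_div]
    exact (fac_cg hp s).inv (un_half_add hp2 (by omega)) hu
  rw [sum_inv (nn p) r hr] at h1
  have h2 := (h1.sub (Cg.refl 1 (H r))).add (Cg.refl 1 (H (nn p)))
  have e : H (nn p - r) - H (nn p) - H r + H (nn p) = H (nn p - r) - H r := by ring
  rw [e] at h2
  exact h2


/-- And `RR = sum C(n,r)^3 H2 r = sum C(n,r)^3 H2 (n-r)` mod `p` by reversal. -/
theorem E_cg (hp : 3 < p) :
    Cg p 1 (3 / 2 * XX p + RR p) (1 / 2 * E (nn p)) := by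
  have hp2 : p ≠ 2 := by omega
  have hlt := nn_lt hp
  have hXX : Cg p 1 (XX p) (∑ r ∈ range (nn p + 1),
      (Nat.choose (nn p) r : ℚ) ^ 3 * (H (nn p - r) - H r) ^ 2) := by
    unfold XX
    apply Cg.sum
    intro r hr
    have hr' : r ≤ nn p := by
      have := Finset.mem_range.1 hr
      omega
    have hH : H (nn p - r) - H r ∈ ZL p := sub_mem (H_mem (by omega)) (H_mem (by omega))
    exact (c_binom hp hr').mul ((dd_cg hp hr').pow hH 2) (un_c hp2 hr').mem (pow_mem hH 2)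
  have hRR : Cg p 1 (RR p) (∑ r ∈ range (nn p + 1),
      (Nat.choose (nn p) r : ℚ) ^ 3 * H2 r) := by
    unfold RR
    apply Cg.sum
    intro r hr
    have hr' : r ≤ nn p := by
      have := Finset.mem_range.1 hr
      omega
    exact (c_binom hp hr').mul_right (H2 r) (H2_mem (by omega))
  have h32 : (3 / 2 : ℚ) ∈ ZL p := by
    have e : (3 / 2 : ℚ) = ((3 : ℕ) : ℚ) * (1 / 2) := by norm_num
    rw [e]
    exact mul_mem (nat_mem 3) (half_mem hp)
  have h := (hXX.mul_left (3 / 2) h32).add hRR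
  have hrev : ∑ r ∈ range (nn p + 1), (Nat.choose (nn p) r : ℚ) ^ 3 * H2 (nn p - r) =
      ∑ r ∈ range (nn p + 1), (Nat.choose (nn p) r : ℚ) ^ 3 * H2 r := by
    rw [← Finset.sum_range_reflect]
    apply Finset.sum_congr rfl
    intro r hr
    have hr' : r ≤ nn p := by
      have := Finset.mem_range.1 hr
      omega
    have e1 : nn p + 1 - 1 - r = nn p - r := by omega
    have e2 : nn p - (nn p - r) = r := by omega
    rw [e1, e2, Nat.choose_symm hr']
  have hE : E (nn p) = 3 * ∑ r ∈ range (nn p + 1),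
      (Nat.choose (nn p) r : ℚ) ^ 3 * (H (nn p - r) - H r) ^ 2 +
      ∑ r ∈ range (nn p + 1), (Nat.choose (nn p) r : ℚ) ^ 3 * H2 r +
      ∑ r ∈ range (nn p + 1), (Nat.choose (nn p) r : ℚ) ^ 3 * H2 (nn p - r) := by
    unfold E
    rw [Finset.mul_sum, ← Finset.sum_add_distrib, ← Finset.sum_add_distrib]
    apply Finset.sum_congr rfl
    intro r _
    ring
  rw [hrev] at hE
  refine h.trans (Cg.of_eq ?_)
  rw [hE]
  ring


end H48SC
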