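import Pool.Agent.H48SC.Defs

/-!
# The Franel recurrence for E_m

Second order part (in `eps`) of Zeilberger's certificate for `sum_j C(m,j)^3`, `j` replaced by
`j + eps`. Everything below was checked numerically.
-/

namespace H48SC

open Finset

/-- The summand of `E m`. -/
def ee (m j : ℕ) : ℚ := (Nat.choose m j : ℚ) ^ 3 * (3 * (H j - H (m - j)) ^ 2 + H2 j + H2 (m - j))

/-- `q(m,x)` and its derivatives `q1 = q'`, `q2 = q''/2` in `x`. -/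
def q0 (m x : ℚ) : ℚ := m ^ 2 * (4 * x ^ 3 - (18 * m + 12) * x ^ 2 +
  (27 * m ^ 2 + 39 * m + 12) * x - (14 * m ^ 3 + 32 * m ^ 2 + 22 * m + 4))
def q1 (m x : ℚ) : ℚ := m ^ 2 * (12 * x ^ 2 - 2 * (18 * m + 12) * x +
  (27 * m ^ 2 + 39 * m + 12))
def q2 (m x : ℚ) : ℚ := m ^ 2 * (12 * x - (18 * m + 12))

/-- The certificate, for `1 ≤ j ≤ m`. Here `w = m + 1 - j`, `u = 3 (H (m-j) - H (j-1))`,
`v = 3 (H2 (j-1) + H2 (m-j))`. -/
def gg (m j : ℕ) : ℚ :=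
  (Nat.choose (m - 1) (j - 1) : ℚ) ^ 3 / 3 *
    (((3 * (H (m - j) - H (j - 1))) ^ 2 + 3 * (H2 (j - 1) + H2 (m - j))) *
        (q0 m j / ((m : ℚ) + 1 - j) ^ 3) +
      2 * (3 * (H (m - j) - H (j - 1))) *
        (q1 m j / ((m : ℚ) + 1 - j) ^ 3 + 3 * q0 m j / ((m : ℚ) + 1 - j) ^ 4) +
      2 * (q2 m j / ((m : ℚ) + 1 - j) ^ 3 + 3 * q1 m j / ((m : ℚ) + 1 - j) ^ 4 +
        6 * q0 m j / ((m : ℚ) + 1 - j) ^ 5))

private theorem H_succ' (m : ℕ) : H (m + 1) = H m + 1 / ((m : ℚ) + 1) := by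
  simp only [H, Finset.sum_range_succ]

private theorem H2_succ' (m : ℕ) : H2 (m + 1) = H2 m + 1 / ((m : ℚ) + 1) ^ 2 := by
  simp only [H2, Finset.sum_range_succ]

private theorem I0 (x s : ℚ) (hx : x ≠ 0) (hs : s ≠ 0) (hs1 : s + 1 ≠ 0) :
    (x + s + 1) ^ 2 * ((x + s) * (x + s + 1) / (x * (s + 1))) ^ 3
      - (7 * (x + s) ^ 2 + 7 * (x + s) + 2) * ((x + s) / x) ^ 3
      - 8 * (x + s) ^ 2 * (s / x) ^ 3 =
    (s / x) ^ 3 * (q0 (x + s) (x + 1) / s ^ 3) - q0 (x + s) x / (s + 1) ^ 3 := by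
  unfold q0
  field_simp
  ring

private theorem I1 (x s : ℚ) (hx : x ≠ 0) (hs : s ≠ 0) (hs1 : s + 1 ≠ 0) :
    (x + s + 1) ^ 2 * ((x + s) * (x + s + 1) / (x * (s + 1))) ^ 3 * (2 * (3 / (s + 1) - 3 / x))
      - (7 * (x + s) ^ 2 + 7 * (x + s) + 2) * ((x + s) / x) ^ 3 * (2 * (- (3 / x)))
      - 8 * (x + s) ^ 2 * (s / x) ^ 3 * (2 * (- (3 / s) - 3 / x)) =
    (s / x) ^ 3 * ((q0 (x + s) (x + 1) / s ^ 3) * (2 * (- (3 / s) - 3 / x)) +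
      2 * (q1 (x + s) (x + 1) / s ^ 3 + 3 * q0 (x + s) (x + 1) / s ^ 4))
      - 2 * (q1 (x + s) x / (s + 1) ^ 3 + 3 * q0 (x + s) x / (s + 1) ^ 4) := by
  unfold q0 q1
  field_simp
  ring

private theorem I2 (x s : ℚ) (hx : x ≠ 0) (hs : s ≠ 0) (hs1 : s + 1 ≠ 0) :
    (x + s + 1) ^ 2 * ((x + s) * (x + s + 1) / (x * (s + 1))) ^ 3 *
        ((3 / (s + 1) - 3 / x) ^ 2 + 3 / x ^ 2 + 3 / (s + 1) ^ 2)
      - (7 * (x + s) ^ 2 + 7 * (x + s) + 2) * ((x + s) / x) ^ 3 * ((- (3 / x)) ^ 2 + 3 / x ^ 2)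
      - 8 * (x + s) ^ 2 * (s / x) ^ 3 * ((- (3 / s) - 3 / x) ^ 2 + 3 / x ^ 2 - 3 / s ^ 2) =
    (s / x) ^ 3 * ((q0 (x + s) (x + 1) / s ^ 3) *
        ((- (3 / s) - 3 / x) ^ 2 + 3 / x ^ 2 - 3 / s ^ 2) +
      2 * (- (3 / s) - 3 / x) * (q1 (x + s) (x + 1) / s ^ 3 + 3 * q0 (x + s) (x + 1) / s ^ 4) +
      2 * (q2 (x + s) (x + 1) / s ^ 3 + 3 * q1 (x + s) (x + 1) / s ^ 4 +
        6 * q0 (x + s) (x + 1) / s ^ 5))
      - 2 * (q2 (x + s) x / (s + 1) ^ 3 + 3 * q1 (x + s) x / (s + 1) ^ 4 +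
        6 * q0 (x + s) x / (s + 1) ^ 5) := by
  unfold q0 q1 q2
  field_simp
  ring

private theorem main (x s u v : ℚ) (hx : x ≠ 0) (hs : s ≠ 0) (hs1 : s + 1 ≠ 0) :
    (x + s + 1) ^ 2 * ((x + s) * (x + s + 1) / (x * (s + 1))) ^ 3 *
        ((u + 3 / (s + 1) - 3 / x) ^ 2 + (v + 3 / x ^ 2 + 3 / (s + 1) ^ 2))
      - (7 * (x + s) ^ 2 + 7 * (x + s) + 2) * ((x + s) / x) ^ 3 *
        ((u - 3 / x) ^ 2 + (v + 3 / x ^ 2))
      - 8 * (x + s) ^ 2 * (s / x) ^ 3 *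
        ((u - 3 / s - 3 / x) ^ 2 + (v + 3 / x ^ 2 - 3 / s ^ 2)) =
    (s / x) ^ 3 * (((u - 3 / s - 3 / x) ^ 2 + (v + 3 / x ^ 2 - 3 / s ^ 2)) *
        (q0 (x + s) (x + 1) / s ^ 3) +
      2 * (u - 3 / s - 3 / x) *
        (q1 (x + s) (x + 1) / s ^ 3 + 3 * q0 (x + s) (x + 1) / s ^ 4) +
      2 * (q2 (x + s) (x + 1) / s ^ 3 + 3 * q1 (x + s) (x + 1) / s ^ 4 +
        6 * q0 (x + s) (x + 1) / s ^ 5))
      - ((u ^ 2 + v) * (q0 (x + s) x / (s + 1) ^ 3) +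
        2 * u * (q1 (x + s) x / (s + 1) ^ 3 + 3 * q0 (x + s) x / (s + 1) ^ 4) +
        2 * (q2 (x + s) x / (s + 1) ^ 3 + 3 * q1 (x + s) x / (s + 1) ^ 4 +
        6 * q0 (x + s) x / (s + 1) ^ 5)) := by
  have h0 := I0 x s hx hs hs1
  have h1 := I1 x s hx hs hs1
  have h2 := I2 x s hx hs hs1
  generalize q0 (x + s) (x + 1) = a0 at *
  generalize q1 (x + s) (x + 1) = a1 at *
  generalize q2 (x + s) (x + 1) = a2 at *
  generalize q0 (x + s) x = b0 at *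
  generalize q1 (x + s) x = b1 at *
  generalize q2 (x + s) x = b2 at *
  generalize (x + s + 1) ^ 2 * ((x + s) * (x + s + 1) / (x * (s + 1))) ^ 3 = R1 at *
  generalize (7 * (x + s) ^ 2 + 7 * (x + s) + 2) * ((x + s) / x) ^ 3 = R2 at *
  generalize 8 * (x + s) ^ 2 * (s / x) ^ 3 = R3 at *
  generalize (s / x) ^ 3 = r3 at *
  linear_combination (u ^ 2 + v) * h0 + u * h1 + h2

/-- The interior identity. Write `j = i + 1`, `m = s + j`, `s ≥ 1` (so `m - j = s`), and express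
everything by `cc = C(m-1,j-1)`, `h = H (j-1)`, `k = H s`, `h2 = H2 (j-1)`, `k2 = H2 s`:
`C(m,j) = cc m/j`, `C(m+1,j) = cc m(m+1)/(j(s+1))`, `C(m-1,j) = cc s/j`,
`H j = h + 1/j`, `H (m+1-j) = k + 1/(s+1)`, `H (m-1-j) = k - 1/s`, same for `H2`. Then it is an
identity of rational functions in `j, s, h, k, h2, k2`: `field_simp; ring`, if too heavy compare
separately the parts of order 2, 1, 0 in `u = 3(k-h)` (put `v` with `u^2`): with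
`r1 = (m(m+1)/(x(m+1-x)))^3`, `r2 = (m/x)^3`, `r3 = ((m-x)/x)^3`, `R = q0 m x/(m+1-x)^3`,
`Rp = r3 * q0 m (x+1)/(m-x)^3` one has `(m+1)^2 r1 - (7m^2+7m+2) r2 - 8 m^2 r3 = Rp - R`, and
the parts are this identity, its first and its half second derivative at `x = j`. -/
theorem cert_mid (m j : ℕ) (h1 : 1 ≤ j) (h2 : j + 1 ≤ m) :
    ((m : ℚ) + 1) ^ 2 * ee (m + 1) j - (7 * (m : ℚ) ^ 2 + 7 * m + 2) * ee m j
      - 8 * (m : ℚ) ^ 2 * ee (m - 1) j = gg m (j + 1) - gg m j := by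
  obtain ⟨i, rfl⟩ : ∃ i, j = i + 1 := ⟨j - 1, by omega⟩
  obtain ⟨t, rfl⟩ : ∃ t, m = t + i + 2 := ⟨m - i - 2, by omega⟩
  have e1 : t + i + 2 - 1 = t + i + 1 := by omega
  have e2 : t + i + 2 + 1 - (i + 1) = t + 2 := by omega
  have e3 : t + i + 2 - (i + 1) = t + 1 := by omega
  have e4 : t + i + 1 - (i + 1) = t := by omega
  have e5 : i + 1 + 1 - 1 = i + 1 := by omega
  have e6 : t + i + 2 - (i + 1 + 1) = t := by omega
  have e7 : i + 1 - 1 = i := by omega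
  unfold gg ee
  rw [e1, e2, e3, e4, e5, e6, e7]
  have c1 : (Nat.choose (t + i + 2) (i + 1) : ℚ) * ((i : ℚ) + 1) =
      ((t : ℚ) + i + 2) * (Nat.choose (t + i + 1) i : ℚ) := by
    have := Nat.add_one_mul_choose_eq (t + i + 1) i
    have h := congrArg (Nat.cast : ℕ → ℚ) this
    push_cast at h
    linear_combination -h
  have c2 : (Nat.choose (t + i + 3) (i + 1) : ℚ) * ((t : ℚ) + 2) =
      (Nat.choose (t + i + 2) (i + 1) : ℚ) * ((t : ℚ) + i + 3) := by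
    have := Nat.choose_mul_succ_eq (t + i + 2) (i + 1)
    rw [show t + i + 2 + 1 - (i + 1) = t + 2 by omega] at this
    have h := congrArg (Nat.cast : ℕ → ℚ) this
    push_cast at h
    linear_combination -h
  have c3 : (Nat.choose (t + i + 1) (i + 1) : ℚ) * ((t : ℚ) + i + 2) =
      (Nat.choose (t + i + 2) (i + 1) : ℚ) * ((t : ℚ) + 1) := by
    have := Nat.choose_mul_succ_eq (t + i + 1) (i + 1)
    rw [show t + i + 1 + 1 - (i + 1) = t + 1 by omega] at this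
    have h := congrArg (Nat.cast : ℕ → ℚ) this
    push_cast at h
    linear_combination h
  have hi : (i : ℚ) + 1 ≠ 0 := by positivity
  have ht : (t : ℚ) + 1 ≠ 0 := by positivity
  have ht2 : (t : ℚ) + 1 + 1 ≠ 0 := by positivity
  have hti : (t : ℚ) + i + 2 ≠ 0 := by positivity
  have d1 : (Nat.choose (t + i + 2) (i + 1) : ℚ) =
      (Nat.choose (t + i + 1) i : ℚ) * ((((i : ℚ) + 1) + ((t : ℚ) + 1)) / ((i : ℚ) + 1)) := by
    field_simp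
    linear_combination c1
  have d2 : (Nat.choose (t + i + 3) (i + 1) : ℚ) =
      (Nat.choose (t + i + 1) i : ℚ) * ((((i : ℚ) + 1) + ((t : ℚ) + 1)) *
        (((i : ℚ) + 1) + ((t : ℚ) + 1) + 1) / (((i : ℚ) + 1) * ((t : ℚ) + 1 + 1))) := by
    field_simp
    linear_combination ((i : ℚ) + 1) * c2 + ((t : ℚ) + i + 3) * c1
  have d3 : (Nat.choose (t + i + 1) (i + 1) : ℚ) =
      (Nat.choose (t + i + 1) i : ℚ) * (((t : ℚ) + 1) / ((i : ℚ) + 1)) := by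
    have h : (Nat.choose (t + i + 1) (i + 1) : ℚ) * ((i : ℚ) + 1) =
        (Nat.choose (t + i + 1) i : ℚ) * ((t : ℚ) + 1) := by
      apply mul_right_cancel₀ hti
      linear_combination ((i : ℚ) + 1) * c3 + ((t : ℚ) + 1) * c1
    field_simp
    linear_combination h
  rw [show t + i + 2 + 1 = t + i + 3 by omega, d1, d2, d3, H_succ' i, H2_succ' i,
    show t + 2 = t + 1 + 1 by omega, H_succ' (t + 1), H2_succ' (t + 1), H_succ' t, H2_succ' t]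
  have hm := main ((i : ℚ) + 1) ((t : ℚ) + 1)
    (3 * (H t + 1 / ((t : ℚ) + 1) - H i)) (3 * (H2 i + (H2 t + 1 / ((t : ℚ) + 1) ^ 2)))
    hi ht ht2
  generalize (Nat.choose (t + i + 1) i : ℚ) = cc
  rw [show ((t + i + 2 : ℕ) : ℚ) = (i : ℚ) + 1 + ((t : ℚ) + 1) by push_cast; ring,
    show ((i + 1 : ℕ) : ℚ) = (i : ℚ) + 1 by push_cast; ring,
    show ((i + 1 + 1 : ℕ) : ℚ) = (i : ℚ) + 1 + 1 by push_cast; ring,
    show ((t + 1 : ℕ) : ℚ) = (t : ℚ) + 1 by push_cast; ring,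
    show (i : ℚ) + 1 + ((t : ℚ) + 1) + 1 - ((i : ℚ) + 1) = (t : ℚ) + 1 + 1 by ring,
    show (i : ℚ) + 1 + ((t : ℚ) + 1) + 1 - ((i : ℚ) + 1 + 1) = (t : ℚ) + 1 by ring]
  linear_combination (cc ^ 3 / 3) * hm


theorem cert_zero (m : ℕ) (hm : 1 ≤ m) :
    ((m : ℚ) + 1) ^ 2 * ee (m + 1) 0 - (7 * (m : ℚ) ^ 2 + 7 * m + 2) * ee m 0
      - 8 * (m : ℚ) ^ 2 * ee (m - 1) 0 = gg m 1 := by
  obtain ⟨t, rfl⟩ : ∃ t, m = t + 1 := ⟨m - 1, by omega⟩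
  have ht : (t : ℚ) + 1 ≠ 0 := by positivity
  have ht2 : (t : ℚ) + 1 + 1 ≠ 0 := by positivity
  have h0 : H 0 = 0 := by simp [H]
  have h20 : H2 0 = 0 := by simp [H2]
  unfold gg ee
  simp only [Nat.add_sub_cancel, Nat.sub_zero, Nat.sub_self, Nat.choose_zero_right, Nat.cast_one,
    h0, h20, H_succ', H2_succ']
  unfold q0 q1 q2
  push_cast
  have e : (t : ℚ) + 1 + 1 - 1 = (t : ℚ) + 1 := by ring
  rw [e]
  field_simp
  ring


theorem cert_last (m : ℕ) (hm : 1 ≤ m) :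
    ((m : ℚ) + 1) ^ 2 * (ee (m + 1) m + ee (m + 1) (m + 1)) -
      (7 * (m : ℚ) ^ 2 + 7 * m + 2) * ee m m = -gg m m := by
  obtain ⟨t, rfl⟩ : ∃ t, m = t + 1 := ⟨m - 1, by omega⟩
  have ht : (t : ℚ) + 1 ≠ 0 := by positivity
  have ht2 : (t : ℚ) + 1 + 1 ≠ 0 := by positivity
  have h0 : H 0 = 0 := by simp [H]
  have h20 : H2 0 = 0 := by simp [H2]
  have h1 : H 1 = 1 := by simp [H]
  have h21 : H2 1 = 1 := by simp [H2]
  have e1 : t + 1 + 1 - (t + 1) = 1 := by omega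
  have e2 : Nat.choose (t + 1 + 1) (t + 1) = t + 1 + 1 := Nat.choose_succ_self_right (t + 1)
  unfold gg ee
  simp only [Nat.add_sub_cancel, Nat.sub_self, Nat.choose_self, Nat.cast_one, e1, e2,
    h0, h20, h1, h21, H_succ', H2_succ']
  unfold q0 q1 q2
  push_cast
  have e : (t : ℚ) + 1 + 1 - (t + 1) = 1 := by ring
  rw [e]
  field_simp
  ring


/-- `(m+1)^2 E_{m+1} = (7m^2+7m+2) E_m + 8 m^2 E_{m-1}` for `m ≥ 1`: sum of `cert_zero`,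
`cert_mid` for `1 ≤ j ≤ m-1` and `cert_last`. (In `cert_zero` and `cert_mid` the term
`ee (m-1) j` has `j ≤ m-1`.) -/
theorem E_rec (m : ℕ) (hm : 1 ≤ m) :
    ((m : ℚ) + 1) ^ 2 * E (m + 1) =
      (7 * (m : ℚ) ^ 2 + 7 * m + 2) * E m + 8 * (m : ℚ) ^ 2 * E (m - 1) := by
  obtain ⟨t, rfl⟩ : ∃ t, m = t + 1 := ⟨m - 1, by omega⟩
  have hE : ∀ k, E k = ∑ j ∈ range (k + 1), ee k j := fun k => rfl
  have h1 : E (t + 1 + 1) = ∑ j ∈ range (t + 1), ee (t + 1 + 1) j +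
      ee (t + 1 + 1) (t + 1) + ee (t + 1 + 1) (t + 1 + 1) := by
    rw [hE, Finset.sum_range_succ, Finset.sum_range_succ]
  have h2 : E (t + 1) = ∑ j ∈ range (t + 1), ee (t + 1) j + ee (t + 1) (t + 1) := by
    rw [hE, Finset.sum_range_succ]
  have h3 : E (t + 1 - 1) = ∑ j ∈ range (t + 1), ee (t + 1 - 1) j := by
    rw [hE]
    rfl
  have hs : ∑ j ∈ range (t + 1), ((((t + 1 : ℕ) : ℚ) + 1) ^ 2 * ee (t + 1 + 1) j -
      (7 * ((t + 1 : ℕ) : ℚ) ^ 2 + 7 * ((t + 1 : ℕ) : ℚ) + 2) * ee (t + 1) j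
      - 8 * ((t + 1 : ℕ) : ℚ) ^ 2 * ee (t + 1 - 1) j) = gg (t + 1) (t + 1) := by
    rw [Finset.sum_range_succ', cert_zero (t + 1) hm]
    have h4 : ∀ j ∈ range t, ((((t + 1 : ℕ) : ℚ) + 1) ^ 2 * ee (t + 1 + 1) (j + 1) -
        (7 * ((t + 1 : ℕ) : ℚ) ^ 2 + 7 * ((t + 1 : ℕ) : ℚ) + 2) * ee (t + 1) (j + 1)
        - 8 * ((t + 1 : ℕ) : ℚ) ^ 2 * ee (t + 1 - 1) (j + 1)) =
        gg (t + 1) (j + 1 + 1) - gg (t + 1) (j + 1) := by
      intro j hj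
      have := Finset.mem_range.1 hj
      exact cert_mid (t + 1) (j + 1) (by omega) (by omega)
    rw [Finset.sum_congr rfl h4, Finset.sum_range_sub (fun k => gg (t + 1) (k + 1)) t]
    ring
  rw [Finset.sum_sub_distrib, Finset.sum_sub_distrib, ← Finset.mul_sum, ← Finset.mul_sum,
    ← Finset.mul_sum] at hs
  have hl := cert_last (t + 1) hm
  rw [h1, h2, h3]
  linear_combination hs + hl


end H48SC
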