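import Pool.Agent.H48SC.PLem

/-!
# Harmonic numbers mod p
-/

namespace H48SC

open Finset

variable {p : ℕ} [Fact p.Prime]

private theorem un_t {t : ℕ} (h0 : 0 < t) (h1 : t < p) : Un p (t : ℚ) :=
  un_nat (fun h => absurd (Nat.le_of_dvd h0 h) (by omega))

private theorem sum_split (g : ℕ → ℚ) {n k : ℕ} (hk : k ≤ n) :
    ∑ i ∈ range n, g i = ∑ i ∈ range (n - k), g i + ∑ j ∈ range k, g (n - 1 - j) := by
  obtain ⟨m, rfl⟩ := Nat.exists_eq_add_of_le' hk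
  rw [Nat.add_sub_cancel, Finset.sum_range_add, ← Finset.sum_range_reflect (fun x => g (m + x)) k]
  congr 1
  refine Finset.sum_congr rfl (fun j hj => ?_)
  have := Finset.mem_range.1 hj
  congr 1
  omega

/-- the reflected terms -/
private theorem term_refl {j : ℕ} (hj : j + 1 < p) :
    Cg p 1 (1 / (((p - 1 - 1 - j : ℕ) : ℚ) + 1)) (-(1 / ((j : ℚ) + 1))) := by
  have hu1 : Un p ((j + 1 : ℕ) : ℚ) := un_t (by omega) hj
  have hu2 : Un p ((p - (j + 1) : ℕ) : ℚ) := un_t (by omega) (by omega)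
  have e1 : (((p - 1 - 1 - j : ℕ) : ℚ) + 1) = ((p - (j + 1) : ℕ) : ℚ) := by
    rw [show p - (j + 1) = (p - 1 - 1 - j) + 1 by omega]
    push_cast
    ring
  have e2 : ((p - (j + 1) : ℕ) : ℚ) = (p : ℚ) - ((j + 1 : ℕ) : ℚ) := by
    rw [Nat.cast_sub hj.le]
  rw [e1, show ((j : ℚ) + 1) = ((j + 1 : ℕ) : ℚ) by push_cast; ring]
  refine ⟨1 / (((p - (j + 1) : ℕ) : ℚ) * ((j + 1 : ℕ) : ℚ)), ?_, ?_⟩
  · exact div_mem (ZL p).one_mem (hu2.mul hu1)
  · have h1 := hu1.ne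
    have h2 := hu2.ne
    rw [e2] at h2 ⊢
    field_simp
    ring

private theorem term_refl2 {j : ℕ} (hj : j + 1 < p) :
    Cg p 1 (1 / (((p - 1 - 1 - j : ℕ) : ℚ) + 1) ^ 2) (1 / ((j : ℚ) + 1) ^ 2) := by
  have hu1 : Un p ((j + 1 : ℕ) : ℚ) := un_t (by omega) hj
  have hu2 : Un p ((p - (j + 1) : ℕ) : ℚ) := un_t (by omega) (by omega)
  have e1 : (((p - 1 - 1 - j : ℕ) : ℚ) + 1) = ((p - (j + 1) : ℕ) : ℚ) := by
    rw [show p - (j + 1) = (p - 1 - 1 - j) + 1 by omega]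
    push_cast
    ring
  have e2 : ((p - (j + 1) : ℕ) : ℚ) = (p : ℚ) - ((j + 1 : ℕ) : ℚ) := by
    rw [Nat.cast_sub hj.le]
  rw [e1, show ((j : ℚ) + 1) = ((j + 1 : ℕ) : ℚ) by push_cast; ring]
  refine ⟨(2 * ((j + 1 : ℕ) : ℚ) - (p : ℚ)) /
    (((p - (j + 1) : ℕ) : ℚ) ^ 2 * ((j + 1 : ℕ) : ℚ) ^ 2), ?_, ?_⟩
  · refine div_mem ?_ ((hu2.pow 2).mul (hu1.pow 2))
    refine (ZL p).sub_mem ((ZL p).mul_mem ?_ (nat_mem _)) (nat_mem _)
    exact_mod_cast nat_mem (p := p) 2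
  · have h1 := hu1.ne
    have h2 := hu2.ne
    rw [e2] at h2 ⊢
    field_simp
    ring

private theorem un_two (hp : 3 < p) : Un p (2 : ℚ) := by
  exact_mod_cast un_t (p := p) (t := 2) (by norm_num) (by omega)

/-- `1 + 1/2 + ... + 1/(p-1) = 0` mod `p` (pair `i` and `p-i`; or pass to `ZMod p` with
`Rat.cast`). -/
theorem H_pred (hp : 3 < p) : Cg p 1 (H (p - 1)) 0 := by
  have h1 : Cg p 1 (H (p - 1)) (-(H (p - 1))) := by
    have h2 : H (p - 1) = ∑ j ∈ range (p - 1), 1 / (((p - 1 - 1 - j : ℕ) : ℚ) + 1) := by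
      unfold H
      exact (Finset.sum_range_reflect (fun i => 1 / ((i : ℚ) + 1)) (p - 1)).symm
    have h3 : -(H (p - 1)) = ∑ j ∈ range (p - 1), -(1 / ((j : ℚ) + 1)) := by
      unfold H
      rw [Finset.sum_neg_distrib]
    rw [h3]
    conv_lhs => rw [h2]
    refine Cg.sum _ _ _ (fun j hj => term_refl ?_)
    have := Finset.mem_range.1 hj
    omega
  have h4 : Cg p 1 (2 * H (p - 1)) (2 * 0) := by
    have h5 := Cg.add h1 (Cg.refl 1 (H (p - 1)))
    rw [neg_add_cancel] at h5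
    rw [mul_zero, two_mul]
    exact h5
  exact h4.cancel 2 (un_two hp)

private theorem den_ne {x : ℚ} (h : x ∈ ZL p) : (x.den : ZMod p) ≠ 0 := by
  intro h0
  exact mem_ZL.1 h ((ZMod.natCast_eq_zero_iff _ _).1 h0)

private theorem cg_of_cast {x : ℚ} (hx : x ∈ ZL p) (h : ((x : ℚ) : ZMod p) = 0) :
    Cg p 1 x 0 := by
  rw [Rat.cast_def, div_eq_zero_iff, or_iff_left (den_ne hx)] at h
  obtain ⟨m, hm⟩ := (ZMod.intCast_zmod_eq_zero_iff_dvd _ _).1 h
  refine ⟨(m : ℚ) / (x.den : ℚ), div_mem (int_mem m) (un_nat (mem_ZL.1 hx)), ?_⟩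
  rw [sub_zero, pow_one]
  conv_lhs => rw [← Rat.num_div_den x, hm]
  push_cast
  ring

private theorem cast_H2 {m : ℕ} (hm : m < p) :
    ((H2 m : ℚ) : ZMod p) = ∑ i ∈ range m, (((i + 1 : ℕ) : ZMod p) ^ 2)⁻¹ := by
  induction m with
  | zero => simp [H2]
  | succ m ih =>
    have h1 : H2 (m + 1) = H2 m + 1 / (((m + 1) ^ 2 : ℕ) : ℚ) := by
      unfold H2
      rw [Finset.sum_range_succ]
      push_cast
      ring
    have hu : Un p (((m + 1) ^ 2 : ℕ) : ℚ) := by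
      have := (un_t (p := p) (t := m + 1) (by omega) hm).pow 2
      exact_mod_cast this
    rw [h1, Rat.cast_add_of_ne_zero (den_ne (H2_mem (by omega)))
      (den_ne (div_mem (ZL p).one_mem hu)), ih (by omega), Finset.sum_range_succ]
    congr 1
    rw [Rat.cast_div_of_ne_zero (by simp) ?_, Rat.cast_one, Rat.cast_natCast, one_div]
    · push_cast
      ring
    · rw [Rat.num_natCast, Int.cast_natCast]
      intro h0
      have h2 := (ZMod.natCast_eq_zero_iff _ _).1 h0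
      have h3 := (Fact.out : p.Prime).dvd_of_dvd_pow h2
      exact absurd (Nat.le_of_dvd (by omega) h3) (by omega)

/-- Sum of `1/i^2` for `0 < i < p` is `0` mod `p` for `p > 3`: in `ZMod p` the map `x ↦ x⁻¹` is
a bijection of the nonzero elements, and `∑ x^2 = 0` (Mathlib: `FiniteField.sum_pow_lt_card_sub_one`
or the substitution `x ↦ 2x`). Rational numbers: `Cg p 1 x 0` for `x ∈ ZL p` is equivalent to
`((x : ℚ) : ZMod p) = 0`, and `Rat.cast` is additive and multiplicative on `ZL p`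
(`Rat.cast_add_of_ne_zero`, `Rat.cast_inv_of_ne_zero` ...); alternatively work with
`(p-1)!^2 * ∑ 1/i^2`, an integer. -/
theorem H2_pred (hp : 3 < p) : Cg p 1 (H2 (p - 1)) 0 := by
  have hpos : 0 < p := by omega
  refine cg_of_cast (H2_mem (by omega)) ?_
  rw [cast_H2 (by omega)]
  have h1 : ∑ i ∈ range (p - 1), (((i + 1 : ℕ) : ZMod p) ^ 2)⁻¹ =
      ∑ i ∈ range p, (((i : ℕ) : ZMod p) ^ 2)⁻¹ := by
    have hg : ∀ g : ℕ → ZMod p, g 0 = 0 →
        ∑ i ∈ range (p - 1), g (i + 1) = ∑ i ∈ range p, g i := by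
      intro g hg
      have h5 : range p = range (p - 1 + 1) := by rw [Nat.sub_add_cancel (by omega)]
      rw [h5, Finset.sum_range_succ', hg, add_zero]
    exact hg (fun i => (((i : ℕ) : ZMod p) ^ 2)⁻¹) (by simp)
  have h2 : ∑ i ∈ range p, (((i : ℕ) : ZMod p) ^ 2)⁻¹ = ∑ x : ZMod p, (x ^ 2)⁻¹ := by
    haveI : NeZero p := ⟨by omega⟩
    refine Finset.sum_bij' (fun i _ => (i : ZMod p)) (fun x _ => x.val) ?_ ?_ ?_ ?_ ?_
    · intro i _
      exact Finset.mem_univ _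
    · intro x _
      exact Finset.mem_range.2 (ZMod.val_lt x)
    · intro i hi
      exact ZMod.val_cast_of_lt (Finset.mem_range.1 hi)
    · intro x _
      exact ZMod.natCast_zmod_val x
    · intro i _
      rfl
  have h3 : ∑ x : ZMod p, (x ^ 2)⁻¹ = ∑ x : ZMod p, x ^ 2 := by
    refine Fintype.sum_equiv (Equiv.inv (ZMod p)) _ _ (fun x => ?_)
    simp
  rw [h1, h2, h3]
  refine FiniteField.sum_pow_lt_card_sub_one (ZMod p) 2 ?_
  rw [ZMod.card]
  omega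

/-- `1/(p-t) = -1/t` mod `p`. -/
theorem H_refl (hp : 3 < p) {k : ℕ} (hk : k < p) : Cg p 1 (H (p - 1 - k)) (H k) := by
  have h1 := sum_split (fun i => 1 / ((i : ℚ) + 1)) (n := p - 1) (k := k) (by omega)
  have h2 : H (p - 1 - k) = H (p - 1) -
      ∑ j ∈ range k, 1 / (((p - 1 - 1 - j : ℕ) : ℚ) + 1) := by
    unfold H
    rw [h1]
    ring
  have h3 : H k = 0 - ∑ j ∈ range k, -(1 / ((j : ℚ) + 1)) := by
    unfold H
    rw [Finset.sum_neg_distrib]
    ring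
  rw [h2, h3]
  refine Cg.sub (H_pred hp) (Cg.sum _ _ _ (fun j hj => term_refl ?_))
  have := Finset.mem_range.1 hj
  omega

/-- `1/(p-t)^2 = 1/t^2` mod `p`. -/
theorem H2_refl (hp : 3 < p) {k : ℕ} (hk : k < p) : Cg p 1 (H2 (p - 1 - k)) (-H2 k) := by
  have h1 := sum_split (fun i => 1 / ((i : ℚ) + 1) ^ 2) (n := p - 1) (k := k) (by omega)
  have h2 : H2 (p - 1 - k) = H2 (p - 1) -
      ∑ j ∈ range k, 1 / (((p - 1 - 1 - j : ℕ) : ℚ) + 1) ^ 2 := by
    unfold H2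
    rw [h1]
    ring
  have h3 : -H2 k = 0 - ∑ j ∈ range k, 1 / ((j : ℚ) + 1) ^ 2 := by
    unfold H2
    ring
  rw [h2, h3]
  refine Cg.sub (H2_pred hp) (Cg.sum _ _ _ (fun j hj => term_refl2 ?_))
  have := Finset.mem_range.1 hj
  omega

/-- From `H2_refl` with `k = nn p = p - 1 - k`: `2 H2 (nn p) = 0`. -/
theorem H2_nn (hp : 3 < p) : Cg p 1 (H2 (nn p)) 0 := by
  have hodd : p % 2 = 1 := by
    rcases (Fact.out : p.Prime).eq_two_or_odd with h | h
    · omega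
    · exact h
  have hk : p - 1 - nn p = nn p := by
    unfold nn
    omega
  have h1 := H2_refl hp (k := nn p) (by unfold nn; omega)
  rw [hk] at h1
  have h4 : Cg p 1 (2 * H2 (nn p)) (2 * 0) := by
    have h5 := Cg.add h1 (Cg.refl 1 (H2 (nn p)))
    rw [neg_add_cancel] at h5
    rw [mul_zero, two_mul]
    exact h5
  exact h4.cancel 2 (un_two hp)

end H48SC
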