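import Pool.Agent.H48SC.ERec
import Pool.Agent.H48SC.Wol

/-!
# Reflection of E mod p
-/

namespace H48SC

open Finset

variable {p : ℕ} [Fact p.Prime]

theorem E_mem {m : ℕ} (hm : m < p) : E m ∈ ZL p := by
  unfold E
  refine Subring.sum_mem _ ?_
  intro j hj
  have hj' : j < m + 1 := Finset.mem_range.1 hj
  have h1 : H j ∈ ZL p := H_mem (by omega)
  have h2 : H (m - j) ∈ ZL p := H_mem (by omega)
  have h3 : H2 j ∈ ZL p := H2_mem (by omega)
  have h4 : H2 (m - j) ∈ ZL p := H2_mem (by omega)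
  have h5 : (3 : ℚ) ∈ ZL p := by exact_mod_cast nat_mem (p := p) 3
  exact Subring.mul_mem _ (Subring.pow_mem _ (nat_mem _) 3)
    (Subring.add_mem _ (Subring.add_mem _ (Subring.mul_mem _ h5
      (Subring.pow_mem _ (Subring.sub_mem _ h1 h2) 2)) h3) h4)

/-- The bracket. -/
private theorem bracket_cg {x x' y y' z z' w w' : ℚ} (hx : x ∈ ZL p) (hx' : x' ∈ ZL p)
    (hy : y ∈ ZL p) (hy' : y' ∈ ZL p)
    (h1 : Cg p 1 x x') (h2 : Cg p 1 y y') (h3 : Cg p 1 z z') (h4 : Cg p 1 w w') :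
    Cg p 1 (3 * (x - y) ^ 2 + z + w) (3 * (x' - y') ^ 2 + z' + w') := by
  have h5 : (3 : ℚ) ∈ ZL p := by exact_mod_cast nat_mem (p := p) 3
  exact ((Cg.mul_left 3 h5 ((h1.sub h2).pow (Subring.sub_mem _ hx' hy') 2)).add h3).add h4

/-- Termwise: `H (p-1-j) = H j`, `H2 (p-1-j) = - H2 j` mod `p`. -/
theorem E_pred (hp : 3 < p) : Cg p 1 (E (p - 1)) 0 := by
  unfold E
  have h0 : (0 : ℚ) = ∑ j ∈ range (p - 1 + 1), (0 : ℚ) := by simp
  rw [h0]
  refine Cg.sum _ _ _ ?_
  intro j hj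
  have hj' : j < p - 1 + 1 := Finset.mem_range.1 hj
  have hjp : j < p := by omega
  have h1 := bracket_cg (p := p) (H_mem (p := p) hjp) (H_mem (p := p) hjp)
    (H_mem (p := p) (r := p - 1 - j) (by omega)) (H_mem (p := p) hjp)
    (Cg.refl 1 (H j)) (H_refl hp hjp) (Cg.refl 1 (H2 j)) (H2_refl hp hjp)
  have h2 := Cg.mul_left ((Nat.choose (p - 1) j : ℚ) ^ 3)
    (Subring.pow_mem _ (nat_mem (p := p) _) 3) h1
  refine h2.trans (Cg.of_eq ?_)
  ring

private theorem choose_cg (hp : 3 < p) (j : ℕ) (hj : j + 1 < p) :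
    Cg p 1 (Nat.choose (p - 2) j : ℚ) ((-1) ^ j * ((j : ℚ) + 1)) := by
  induction j with
  | zero => exact Cg.of_eq (by simp)
  | succ j ih =>
    have ih' := ih (by omega)
    have h1 : (Nat.choose (p - 2) (j + 1) : ℚ) * ((j : ℚ) + 1) =
        (Nat.choose (p - 2) j : ℚ) * ((p : ℚ) - 2 - j) := by
      have h := Nat.choose_succ_right_eq (p - 2) j
      have h' : ((Nat.choose (p - 2) (j + 1) * (j + 1) : ℕ) : ℚ) =
        ((Nat.choose (p - 2) j * (p - 2 - j) : ℕ) : ℚ) := by rw [h]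
      rw [Nat.cast_mul, Nat.cast_mul, Nat.cast_sub (by omega : j ≤ p - 2),
        Nat.cast_sub (by omega : 2 ≤ p)] at h'
      push_cast at h'
      exact h'
    have hu : Un p ((j : ℚ) + 1) := by
      have := un_nat (p := p) (m := j + 1) (fun h => by
        have := Nat.le_of_dvd (by omega) h
        omega)
      exact_mod_cast this
    refine Cg.cancel ((j : ℚ) + 1) hu ?_
    have h2 : ((j : ℚ) + 1) * (Nat.choose (p - 2) (j + 1) : ℚ) =
        (Nat.choose (p - 2) j : ℚ) * ((p : ℚ) - 2 - j) := by rw [← h1]; ring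
    rw [h2]
    have h3 : Cg p 1 ((p : ℚ) - 2 - j) (-((j : ℚ) + 2)) :=
      ⟨1, Subring.one_mem _, by ring⟩
    have h4 : (-((j : ℚ) + 2)) ∈ ZL p := by
      have := int_mem (p := p) (-((j : ℤ) + 2))
      exact_mod_cast this
    have h5 := Cg.mul ih' h3 (nat_mem _) h4
    refine h5.trans (Cg.of_eq ?_)
    push_cast
    ring

private theorem alt_sum (n : ℕ) :
    ∑ j ∈ range (2 * n), (2 : ℚ) * ((-1) ^ j * ((j : ℚ) + 1)) = -(2 * n) := by
  induction n with
  | zero => simp
  | succ n ih =>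
    rw [show 2 * (n + 1) = 2 * n + 1 + 1 by ring, Finset.sum_range_succ, Finset.sum_range_succ, ih]
    have h1 : ((-1 : ℚ)) ^ (2 * n) = 1 := by rw [pow_mul]; simp
    rw [pow_succ, h1]
    push_cast
    ring

private theorem p_odd (hp : 3 < p) : p % 2 = 1 := by
  rcases (Fact.out : p.Prime).eq_two_or_odd with h | h
  · omega
  · exact h

/-- `C(p-2,j) = (-1)^j (j+1)` mod `p`, `H (p-2-j) = H (j+1)`, `H2 (p-2-j) = - H2 (j+1)` mod `p`
(`H_refl`, `H2_refl` with `k = j+1`), so the term is `(-1)^j (j+1)^3 (3-1)/(j+1)^2` and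
`E_{p-2} = 2 sum_{m=1}^{p-1} (-1)^(m-1) m = - (p-1) = 1` mod `p`. -/
theorem E_pred2 (hp : 3 < p) : Cg p 1 (E (p - 2)) 1 := by
  have hodd := p_odd hp
  have key : Cg p 1 (E (p - 2))
      (∑ j ∈ range (p - 2 + 1), (2 : ℚ) * ((-1) ^ j * ((j : ℚ) + 1))) := by
    unfold E
    refine Cg.sum _ _ _ ?_
    intro j hj
    have hj' : j < p - 2 + 1 := Finset.mem_range.1 hj
    have hjp : j < p := by omega
    have hjp1 : j + 1 < p := by omega
    have e1 : p - 2 - j = p - 1 - (j + 1) := by omega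
    have hu : Un p ((j : ℚ) + 1) := by
      have := un_nat (p := p) (m := j + 1) (fun h => by
        have := Nat.le_of_dvd (by omega) h
        omega)
      exact_mod_cast this
    have h1 := bracket_cg (p := p) (H_mem (p := p) hjp) (H_mem (p := p) hjp)
      (H_mem (p := p) (r := p - 1 - (j + 1)) (by omega)) (H_mem (p := p) hjp1)
      (Cg.refl 1 (H j)) (H_refl hp hjp1) (Cg.refl 1 (H2 j)) (H2_refl hp hjp1)
    have hH : H (j + 1) = H j + 1 / ((j : ℚ) + 1) := by
      unfold H; rw [Finset.sum_range_succ]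
    have hH2 : H2 (j + 1) = H2 j + 1 / ((j : ℚ) + 1) ^ 2 := by
      unfold H2; rw [Finset.sum_range_succ]
    have hne : ((j : ℚ) + 1) ≠ 0 := hu.ne
    have hval : 3 * (H j - H (j + 1)) ^ 2 + H2 j + -H2 (j + 1) = 2 / ((j : ℚ) + 1) ^ 2 := by
      rw [hH, hH2]
      field_simp
      ring
    rw [hval] at h1
    have hc := choose_cg hp j hjp1
    have hcm : ((-1 : ℚ)) ^ j * ((j : ℚ) + 1) ∈ ZL p := by
      have := int_mem (p := p) ((-1) ^ j * ((j : ℤ) + 1))
      exact_mod_cast this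
    have hc3 := hc.pow hcm 3
    have h2m : (2 : ℚ) / ((j : ℚ) + 1) ^ 2 ∈ ZL p :=
      div_mem (by exact_mod_cast nat_mem (p := p) 2) (hu.pow 2)
    have h3 := Cg.mul hc3 h1 (Subring.pow_mem _ (nat_mem (p := p) _) 3) h2m
    rw [e1]
    refine h3.trans (Cg.of_eq ?_)
    have hs : ((-1 : ℚ) ^ j) ^ 3 = (-1) ^ j := by
      rw [← pow_mul, mul_comm, pow_mul]
      norm_num
    rw [mul_pow, hs]
    field_simp
  refine key.trans ?_
  obtain ⟨n, hn⟩ : ∃ n, p = 2 * n + 1 := ⟨p / 2, by omega⟩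
  have e2 : p - 2 + 1 = 2 * n := by omega
  rw [e2, alt_sum]
  refine ⟨-1, Subring.neg_mem _ (Subring.one_mem _), ?_⟩
  have : (p : ℚ) = 2 * n + 1 := by exact_mod_cast hn
  rw [this]
  ring

private theorem E_zero : E 0 = 0 := by
  simp [E, H, H2]

private theorem E_one : E 1 = 8 := by
  simp [E, H, H2, Finset.sum_range_succ]
  norm_num

/-- Put `v_k = (-8)^k E_{p-1-k}`. `v_0 = E_{p-1} = 0 = -E_0`, `v_1 = -8 E_{p-2} = -8 = -E_1` mod
`p` (`E_0 = 0`, `E_1 = 8`). For `1 ≤ k ≤ p-2` the recurrence `E_rec` at `m = p-1-k` times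
`(-8)^k` gives mod `p` (`m = -1-k`):
`(k+1)^2 v_{k+1} = (7k^2+7k+2) v_k + 8 k^2 v_{k-1}`, the same recurrence as for `E`, and
`(k+1)^2` is a unit for `k+1 < p`. Strong induction on `k`. -/
theorem E_refl (hp : 3 < p) {k : ℕ} (hk : k < p) :
    Cg p 1 ((-8) ^ k * E (p - 1 - k)) (-E k) := by
  have h8 : ((-8 : ℚ)) ∈ ZL p := by
    have := int_mem (p := p) (-8)
    exact_mod_cast this
  induction k using Nat.strong_induction_on with
  | _ k ih =>
    rcases k with _ | _ | k
    · rw [E_zero, pow_zero, one_mul, neg_zero, Nat.sub_zero]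
      exact E_pred hp
    · rw [zero_add, E_one, pow_one]
      have h := Cg.mul_left (-8 : ℚ) h8 (E_pred2 hp)
      have e : p - 1 - 1 = p - 2 := by omega
      rw [e]
      refine h.trans (Cg.of_eq ?_)
      norm_num
    · -- the step, index `k + 1` in the recurrence
      have ih1 := ih (k + 1) (by omega) (by omega)
      have ih0 := ih k (by omega) (by omega)
      obtain ⟨m, hm⟩ : ∃ m, p = m + 1 + (k + 1) + 1 := ⟨p - (k + 3), by omega⟩
      have e1 : p - 1 - (k + 1) = m + 1 := by omega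
      have e0 : p - 1 - k = m + 1 + 1 := by omega
      have e2 : p - 1 - (k + 1 + 1) = m := by omega
      rw [e1] at ih1
      rw [e0] at ih0
      rw [e2]
      have hu : Un p ((((k + 1 + 1 : ℕ) : ℚ)) ^ 2) :=
        (un_nat (p := p) (m := k + 1 + 1) (fun h => by
          have := Nat.le_of_dvd (by omega) h
          omega)).pow 2
      refine Cg.cancel _ hu ?_
      have hrec := E_rec (m + 1) (by omega)
      have hrec' := E_rec (k + 1) (by omega)
      rw [Nat.add_sub_cancel] at hrec hrec'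
      push_cast at hrec hrec'
      have hpq : (p : ℚ) = m + 1 + (k + 1) + 1 := by exact_mod_cast hm
      have hEm : E m ∈ ZL p := E_mem (by omega)
      have hEm1 : E (m + 1) ∈ ZL p := E_mem (by omega)
      have hEm2 : E (m + 1 + 1) ∈ ZL p := E_mem (by omega)
      have hkm : (k : ℚ) ∈ ZL p := nat_mem k
      have hmm : (m : ℚ) ∈ ZL p := nat_mem m
      -- `A`: the mod `p` recurrence for `v`
      have hA : Cg p 1 ((((k + 1 + 1 : ℕ) : ℚ)) ^ 2 * ((-8) ^ (k + 1 + 1) * E m))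
          ((7 * ((k : ℚ) + 1) ^ 2 + 7 * (k + 1) + 2) * ((-8) ^ (k + 1) * E (m + 1)) +
            8 * ((k : ℚ) + 1) ^ 2 * ((-8) ^ k * E (m + 1 + 1))) := by
        -- difference computed exactly
        have hz : ∃ z ∈ ZL p, (((k + 1 + 1 : ℕ) : ℚ)) ^ 2 * ((-8) ^ (k + 1 + 1) * E m) -
          ((7 * ((k : ℚ) + 1) ^ 2 + 7 * (k + 1) + 2) * ((-8) ^ (k + 1) * E (m + 1)) +
            8 * ((k : ℚ) + 1) ^ 2 * ((-8) ^ k * E (m + 1 + 1))) = (p : ℚ) ^ 1 * z := by
          refine ⟨(-8) ^ k * (64 * ((k : ℚ) - m + 1) * E m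
            + 8 * 7 * ((k : ℚ) - m) * E (m + 1) - 8 * ((k : ℚ) - m - 1) * E (m + 1 + 1)), ?_, ?_⟩
          · have c64 : (64 : ℚ) ∈ ZL p := by exact_mod_cast nat_mem (p := p) 64
            have c8 : (8 : ℚ) ∈ ZL p := by exact_mod_cast nat_mem (p := p) 8
            have c7 : (7 : ℚ) ∈ ZL p := by exact_mod_cast nat_mem (p := p) 7
            have c1 : (1 : ℚ) ∈ ZL p := Subring.one_mem _
            have hs : (k : ℚ) - m ∈ ZL p := Subring.sub_mem _ hkm hmm
            exact Subring.mul_mem _ (Subring.pow_mem _ h8 k)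
              (Subring.sub_mem _ (Subring.add_mem _
                (Subring.mul_mem _ (Subring.mul_mem _ c64 (Subring.add_mem _ hs c1)) hEm)
                (Subring.mul_mem _ (Subring.mul_mem _ (Subring.mul_mem _ c8 c7) hs) hEm1))
                (Subring.mul_mem _ (Subring.mul_mem _ c8 (Subring.sub_mem _ hs c1)) hEm2))
          · rw [hpq, pow_succ (-8 : ℚ) (k + 1), pow_succ (-8 : ℚ) k]
            push_cast
            linear_combination (-8 : ℚ) ^ k * (-8) * hrec
        exact hz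
      refine hA.trans ?_
      have c1 : (7 * ((k : ℚ) + 1) ^ 2 + 7 * (k + 1) + 2) ∈ ZL p := by
        have := nat_mem (p := p) (7 * (k + 1) ^ 2 + 7 * (k + 1) + 2)
        push_cast at this
        exact this
      have c2 : (8 * ((k : ℚ) + 1) ^ 2) ∈ ZL p := by
        have := nat_mem (p := p) (8 * (k + 1) ^ 2)
        push_cast at this
        exact this
      have hB := (Cg.mul_left _ c1 ih1).add (Cg.mul_left _ c2 ih0)
      refine hB.trans (Cg.of_eq ?_)
      push_cast
      linear_combination hrec'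

/-- `k = nn p`: `(-8)^n = (-8/p) = (-2/p) = 1` mod `p` for `p = 1, 3` mod `8`
(`ZMod.euler_criterion` or `legendreSym.eq_pow`, `ZMod.exists_sq_eq_neg_two_iff`), so
`2 E_n = 0` mod `p`. -/
theorem E_nn (hp : 3 < p) (h8 : p % 8 = 1 ∨ p % 8 = 3) : Cg p 1 (E (nn p)) 0 := by
  have hodd := p_odd hp
  have hn : p - 1 - nn p = nn p := by unfold nn; omega
  have hnp : nn p < p := by unfold nn; omega
  have h1 := E_refl hp hnp
  rw [hn] at h1
  have hdvd : (p : ℤ) ∣ (-8) ^ nn p - 1 := by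
    rw [← ZMod.intCast_zmod_eq_zero_iff_dvd]
    push_cast
    have hsq : IsSquare (-2 : ZMod p) := (ZMod.exists_sq_eq_neg_two_iff (by omega)).2 h8
    have hsq8 : IsSquare (-8 : ZMod p) := by
      obtain ⟨r, hr⟩ := hsq
      refine ⟨2 * r, ?_⟩
      linear_combination 4 * hr
    have hne : (-8 : ZMod p) ≠ 0 := by
      intro h
      have h' : ((8 : ℕ) : ZMod p) = 0 := by
        push_cast
        linear_combination -h
      rw [ZMod.natCast_eq_zero_iff] at h'
      have : p ∣ 2 ^ 3 := by simpa using h'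
      have := (Fact.out : p.Prime).dvd_of_dvd_pow this
      have := Nat.le_of_dvd (by norm_num) this
      omega
    have he := (ZMod.euler_criterion p hne).1 hsq8
    have hpn : p / 2 = nn p := by unfold nn; omega
    rw [hpn] at he
    rw [he, sub_self]
  have h2 : Cg p 1 ((-8 : ℚ) ^ nn p) 1 := by
    have := cg_one_of_int (p := p) hdvd
    push_cast at this
    exact this
  have hE : E (nn p) ∈ ZL p := E_mem hnp
  have h3 : Cg p 1 ((-8 : ℚ) ^ nn p * E (nn p)) (E (nn p)) := by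
    have := Cg.mul_right (E (nn p)) hE h2
    rwa [one_mul] at this
  have h4 : Cg p 1 (E (nn p)) (-E (nn p)) := h3.symm.trans h1
  have h5 : Cg p 1 (2 * E (nn p)) (2 * 0) := by
    have := h4.add (Cg.refl 1 (E (nn p)))
    refine Cg.trans (Cg.of_eq (by ring)) (this.trans (Cg.of_eq (by ring)))
  have hu2 : Un p (2 : ℚ) := by
    have := un_nat (p := p) (m := 2) (fun h => by
      have := Nat.le_of_dvd (by omega) h
      omega)
    exact_mod_cast this
  exact Cg.cancel 2 hu2 h5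

end H48SC
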