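import Pool.Agent.H48SC.Basic

/-!
# Calculus of the expansions `Ex p A a u v` : `A = a exp (p u + p^2 v/2)` mod `p^3`

Everything here is for odd `p` (so that `1/2` is `p`-integral; `Un p (2 : ℚ)` follows from
`un_nat`). The polynomial part: if `A = a (1 + p u + p^2/2 (u^2+v)) + p^3 z` etc., multiply out;
the difference to the claimed right hand side is `p^3` times an explicit polynomial with
`p`-integral coefficients.
-/

namespace H48SC

open Finset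

variable {p : ℕ} [Fact p.Prime]

theorem un_two_ex (hp : p ≠ 2) : Un p (2 : ℚ) := by
  have h : ¬ p ∣ 2 := by
    intro h
    exact hp ((Nat.prime_dvd_prime_iff_eq (Fact.out : p.Prime) Nat.prime_two).1 h)
  exact_mod_cast un_nat h

theorem half_mem_ex (hp : p ≠ 2) : (1 / 2 : ℚ) ∈ ZL p := by
  rw [one_div]
  exact (un_two_ex hp).inv_mem

private theorem exrhs_mem_ex (hp : p ≠ 2) {a u v : ℚ} (ha : a ∈ ZL p) (hu : u ∈ ZL p) (hv : v ∈ ZL p) :
    a * (1 + p * u + p ^ 2 / 2 * (u ^ 2 + v)) ∈ ZL p := by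
  have e : a * (1 + p * u + p ^ 2 / 2 * (u ^ 2 + v)) =
      a * (1 + p * u + p ^ 2 * (1 / 2) * (u ^ 2 + v)) := by ring
  rw [e]
  have h2 := half_mem_ex hp
  have h3 : (p : ℚ) ∈ ZL p := natCast_mem _ p
  exact mul_mem ha (add_mem (add_mem (one_mem _) (mul_mem h3 hu))
    (mul_mem (mul_mem (pow_mem h3 2) h2) (add_mem (pow_mem hu 2) hv)))

theorem Ex.mem (hp : p ≠ 2) {A a u v : ℚ} (h : Ex p A a u v) : A ∈ ZL p :=
  h.2.2.2.mem (exrhs_mem_ex hp h.1.mem h.2.1 h.2.2.1)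

/-- The right hand side of `Ex` is a unit, since it is `a + p (...)`; hence so is `A`. -/
theorem Ex.un (hp : p ≠ 2) {A a u v : ℚ} (h : Ex p A a u v) : Un p A := by
  obtain ⟨ha, hu, hv, hc⟩ := h
  refine Cg.un (k := 2) hc ?_
  have e : a * (1 + p * u + p ^ 2 / 2 * (u ^ 2 + v)) =
      a + p * (a * (u + p * (1 / 2) * (u ^ 2 + v))) := by ring
  rw [e]
  have h2 := half_mem_ex hp
  have h3 : (p : ℚ) ∈ ZL p := natCast_mem _ p
  exact ha.add_p (mul_mem ha.mem (add_mem hu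
    (mul_mem (mul_mem h3 h2) (add_mem (pow_mem hu 2) hv))))

theorem Ex.self {a : ℚ} (h : Un p a) : Ex p a a 0 0 :=
  ⟨h, zero_mem _, zero_mem _, Cg.of_eq (by ring)⟩

/-- `x + p y = x (1 + p (y/x))`, exactly of the form with `u = y/x`, `u^2 + v = 0`. -/
theorem Ex.base {x y : ℚ} (hx : Un p x) (hy : y ∈ ZL p) :
    Ex p (x + p * y) x (y / x) (-(y / x) ^ 2) := by
  refine ⟨hx, div_mem hy hx, neg_mem (pow_mem (div_mem hy hx) 2), Cg.of_eq ?_⟩
  have := hx.ne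
  field_simp
  ring

theorem Ex.mul (hp : p ≠ 2) {A a u v A' a' u' v' : ℚ} (h : Ex p A a u v) (h' : Ex p A' a' u' v') :
    Ex p (A * A') (a * a') (u + u') (v + v') := by
  obtain ⟨ha, hu, hv, hc⟩ := h
  obtain ⟨ha', hu', hv', hc'⟩ := h'
  refine ⟨ha.mul ha', add_mem hu hu', add_mem hv hv', ?_⟩
  have h1 := hc.mul hc' (hc.mem (exrhs_mem_ex hp ha.mem hu hv)) (exrhs_mem_ex hp ha'.mem hu' hv')
  refine h1.trans ?_
  have h2 := half_mem_ex hp
  have h3 : (p : ℚ) ∈ ZL p := natCast_mem _ p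
  refine ⟨a * a' * (1 / 2 * (u * (u' ^ 2 + v') + u' * (u ^ 2 + v)) +
    p * (1 / 2 * (1 / 2) * ((u ^ 2 + v) * (u' ^ 2 + v')))), ?_, by ring⟩
  have s1 : u ^ 2 + v ∈ ZL p := add_mem (pow_mem hu 2) hv
  have s2 : u' ^ 2 + v' ∈ ZL p := add_mem (pow_mem hu' 2) hv'
  exact mul_mem (mul_mem ha.mem ha'.mem) (add_mem (mul_mem h2 (add_mem (mul_mem hu s2)
    (mul_mem hu' s1))) (mul_mem h3 (mul_mem (mul_mem h2 h2) (mul_mem s1 s2))))

/-- Put `B = a⁻¹ (1 - p u + p^2/2 (u^2 - v))`; then `A B = 1` mod `p^3`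
(as in `Ex.mul` with `u' = -u`, `v' = -v`), and `A⁻¹ = B` mod `p^3` by `Cg.cancel`. -/
theorem Ex.inv (hp : p ≠ 2) {A a u v : ℚ} (h : Ex p A a u v) :
    Ex p A⁻¹ a⁻¹ (-u) (-v) := by
  have hA := h.un hp
  obtain ⟨B, hB⟩ : ∃ B, B = a⁻¹ * (1 + p * (-u) + p ^ 2 / 2 * ((-u) ^ 2 + (-v))) := ⟨_, rfl⟩
  have hE : Ex p B a⁻¹ (-u) (-v) :=
    ⟨h.1.inv, neg_mem h.2.1, neg_mem h.2.2.1, Cg.of_eq hB⟩
  have h1 := h.mul hp hE
  have h2 : Cg p 3 (A * B) (A * A⁻¹) := by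
    refine h1.2.2.2.trans (Cg.of_eq ?_)
    rw [mul_inv_cancel₀ h.1.ne, mul_inv_cancel₀ hA.ne]
    ring
  have h3 : Cg p 3 B A⁻¹ := Cg.cancel A hA h2
  exact ⟨hE.1, hE.2.1, hE.2.2.1, h3.symm.trans hE.2.2.2⟩

theorem Ex.div (hp : p ≠ 2) {A a u v A' a' u' v' : ℚ} (h : Ex p A a u v) (h' : Ex p A' a' u' v') :
    Ex p (A / A') (a / a') (u - u') (v - v') := by
  have h1 := h.mul hp (h'.inv hp)
  rwa [← div_eq_mul_inv, ← div_eq_mul_inv, ← sub_eq_add_neg, ← sub_eq_add_neg] at h1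

theorem Ex.pow (hp : p ≠ 2) {A a u v : ℚ} (h : Ex p A a u v) (n : ℕ) :
    Ex p (A ^ n) (a ^ n) (n * u) (n * v) := by
  induction n with
  | zero => simpa using Ex.self (p := p) un_one
  | succ n ih =>
    have h1 := ih.mul hp h
    have e1 : ((n + 1 : ℕ) : ℚ) * u = n * u + u := by push_cast; ring
    have e2 : ((n + 1 : ℕ) : ℚ) * v = n * v + v := by push_cast; ring
    rw [pow_succ, pow_succ, e1, e2]
    exact h1

theorem Ex.prod (hp : p ≠ 2) {ι : Type} (s : Finset ι) (A a u v : ι → ℚ)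
    (h : ∀ i ∈ s, Ex p (A i) (a i) (u i) (v i)) :
    Ex p (∏ i ∈ s, A i) (∏ i ∈ s, a i) (∑ i ∈ s, u i) (∑ i ∈ s, v i) := by
  classical
  induction s using Finset.induction_on with
  | empty => simpa using Ex.self (p := p) un_one
  | insert b s hb ih =>
    rw [Finset.prod_insert hb, Finset.prod_insert hb, Finset.sum_insert hb, Finset.sum_insert hb]
    exact (h b (mem_insert_self b s)).mul hp (ih fun i hi => h i (mem_insert_of_mem hi))

/-- One may change `A` mod `p^3`. -/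
theorem Ex.congr {A B a u v : ℚ} (h : Ex p A a u v) (h' : Cg p 3 B A) : Ex p B a u v :=
  ⟨h.1, h.2.1, h.2.2.1, h'.trans h.2.2.2⟩

/-- One may change `v` mod `p` (and `u` mod `p^2`). -/
theorem Ex.change (hp : p ≠ 2) {A a u v u' v' : ℚ} (h : Ex p A a u v) (hu : Cg p 2 u u')
    (hv : Cg p 1 v v') : Ex p A a u' v' := by
  obtain ⟨ha, hu1, hv1, hc⟩ := h
  have hu2 := hu.mem' hu1
  have hv2 := hv.mem' hv1
  refine ⟨ha, hu2, hv2, hc.trans ?_⟩
  obtain ⟨y, hy, ey⟩ := hu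
  obtain ⟨z, hz, ez⟩ := hv
  have h2 := half_mem_ex hp
  have h3 : (p : ℚ) ∈ ZL p := natCast_mem _ p
  refine ⟨a * (y + 1 / 2 * (p * (y * (u + u')) + z)), ?_, ?_⟩
  · exact mul_mem ha.mem (add_mem hy (mul_mem h2 (add_mem (mul_mem h3 (mul_mem hy
      (add_mem hu1 hu2))) hz)))
  · linear_combination (a * p + a * p ^ 2 / 2 * (u + u')) * ey + a * p ^ 2 / 2 * ez

/-- The expansion mod `p^2`. -/
theorem Ex.cg2 (hp : p ≠ 2) {A a u v : ℚ} (h : Ex p A a u v) :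
    Cg p 2 A (a * (1 + p * u)) := by
  obtain ⟨ha, hu, hv, hc⟩ := h
  refine (Cg.mono (by norm_num) hc).trans ?_
  refine ⟨a * (1 / 2 * (u ^ 2 + v)), ?_, by ring⟩
  exact mul_mem ha.mem (mul_mem (half_mem_ex hp) (add_mem (pow_mem hu 2) hv))

/-- The expansion mod `p`. -/
theorem Ex.cg1 (hp : p ≠ 2) {A a u v : ℚ} (h : Ex p A a u v) : Cg p 1 A a := by
  have h1 := h.cg2 hp
  refine (Cg.mono (by norm_num) h1).trans ?_
  exact ⟨a * u, mul_mem h.1.mem h.2.1, by ring⟩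

end H48SC
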