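import Pool.Agent.H48SC.Assem
import Pool.Agent.H48SC.EForm
import Pool.Agent.H48SC.ERefl

/-!
# The main theorem
-/

namespace H48SC

open Finset

variable {p : ℕ} [Fact p.Prime]

private theorem P_half_main (r : ℕ) :
    P (1 / 2) r * 4 ^ r = (Nat.choose (2 * r) r : ℚ) * r.factorial := by
  induction r with
  | zero => simp [P]
  | succ r ih =>
    have h1 : P (1 / 2) (r + 1) = P (1 / 2) r * (1 / 2 + r) := by
      unfold P
      rw [Finset.prod_range_succ]
    have h2 : ((r : ℚ) + 1) * (Nat.choose (2 * (r + 1)) (r + 1) : ℚ) =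
        2 * (2 * r + 1) * (Nat.choose (2 * r) r : ℚ) := by
      have h := Nat.succ_mul_centralBinom_succ r
      rw [Nat.centralBinom, Nat.centralBinom] at h
      exact_mod_cast h
    rw [h1, pow_succ, Nat.factorial_succ]
    push_cast
    linear_combination (2 * (2 * (r : ℚ) + 1)) * ih - (r.factorial : ℚ) * h2

theorem S0_eq : S0 p = SS p := by
  unfold S0 SS nn
  refine Finset.sum_congr rfl fun r _ => ?_
  unfold c
  have hf : (r.factorial : ℚ) ≠ 0 := by exact_mod_cast r.factorial_ne_zero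
  have h4 : ((4 : ℚ) ^ r) ≠ 0 := pow_ne_zero _ (by norm_num)
  have h1 : P (1 / 2) r / r.factorial = (Nat.choose (2 * r) r : ℚ) / 4 ^ r := by
    rw [div_eq_div_iff hf h4]
    exact P_half_main r
  have h64 : ((-64 : ℚ)) ^ r = (-1) ^ r * (4 ^ r) ^ 3 := by
    rw [← pow_mul, mul_comm r 3, pow_mul, ← mul_pow]
    norm_num
  have hs : ((-1 : ℚ) ^ r) * (-1) ^ r = 1 := by
    rw [← mul_pow]
    norm_num
  have hs0 : ((-1 : ℚ) ^ r) ≠ 0 := pow_ne_zero _ (by norm_num)
  rw [h1, h64, mul_inv, div_pow]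
  have hinv : ((-1 : ℚ) ^ r)⁻¹ = (-1) ^ r := by
    rw [← eq_inv_of_mul_eq_one_left hs]
  rw [hinv, div_eq_mul_inv]
  ring

private theorem p_odd' (hp : 3 < p) : p % 2 = 1 := by
  rcases (Fact.out : p.Prime).eq_two_or_odd with h | h
  · omega
  · exact h

/-- `5^n = (5/p)` mod `p`: `legendreSym.eq_pow`. -/
theorem leg5 (hp : 5 < p) : Cg p 1 (5 ^ nn p) ((legendreSym p 5 : ℤ) : ℚ) := by
  have hodd := p_odd' (p := p) (by omega)
  have hdvd : (p : ℤ) ∣ 5 ^ nn p - legendreSym p 5 := by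
    rw [← ZMod.intCast_zmod_eq_zero_iff_dvd]
    push_cast
    rw [legendreSym.eq_pow]
    have hpn : p / 2 = nn p := by unfold nn; omega
    rw [hpn]
    push_cast
    exact sub_self _
  have h := cg_one_of_int (p := p) hdvd
  push_cast at h
  exact h

/-- `assem` with `ep = (5/p)`, `E_cg` times `9/25 p^2`. -/
theorem main (hp : 5 < p) :
    Cg p 3 (SS p - ((legendreSym p 5 : ℤ) : ℚ) * TT p) (9 / 50 * p ^ 2 * E (nn p)) := by
  have h5 : ((5 : ℤ) : ZMod p) ≠ 0 := by
    intro h
    have h' : ((5 : ℕ) : ZMod p) = 0 := by exact_mod_cast h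
    rw [ZMod.natCast_eq_zero_iff] at h'
    have := Nat.le_of_dvd (by norm_num) h'
    omega
  have hep : ((legendreSym p 5 : ℤ) : ℚ) = 1 ∨ ((legendreSym p 5 : ℤ) : ℚ) = -1 := by
    rcases legendreSym.eq_one_or_neg_one p h5 with h | h
    · left
      rw [h]
      norm_num
    · right
      rw [h]
      norm_num
  have h1 := assem hp _ hep (leg5 hp)
  have h2 := (E_cg (p := p) (by omega)).pmul 2
  have hu25 : Un p (25 : ℚ) := by
    have := un_nat (p := p) (m := 25) (fun h => by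
      have h3 : p ∣ 5 ^ 2 := by simpa using h
      have h4 := (Fact.out : p.Prime).dvd_of_dvd_pow h3
      have := Nat.le_of_dvd (by norm_num) h4
      omega)
    exact_mod_cast this
  have h9 : (9 : ℚ) / 25 ∈ ZL p := div_mem (by exact_mod_cast nat_mem (p := p) 9) hu25
  have h3 := h2.mul_left (9 / 25) h9
  have h4 := (Cg.refl (p := p) 3 (SS p)).sub h1
  rw [S0_eq] at h4
  refine h4.trans ((Cg.of_eq ?_).trans (h3.trans (Cg.of_eq ?_)))
  · ring
  · ring

theorem main_Q1 (hp : 3 < p) (h8 : p % 8 = 1 ∨ p % 8 = 3) :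
    Cg p 3 (SS p - ((legendreSym p 5 : ℤ) : ℚ) * TT p) 0 := by
  have hp5 : 5 < p := by
    rcases h8 with h | h <;> omega
  have h1 := main hp5
  have h2 := (E_nn (p := p) hp h8).pmul 2
  have hu50 : Un p (50 : ℚ) := by
    have := un_nat (p := p) (m := 50) (fun h => by
      have h3 : p ∣ 2 * 5 ^ 2 := by simpa using h
      rcases (Nat.Prime.dvd_mul (Fact.out : p.Prime)).1 h3 with h4 | h4
      · have := Nat.le_of_dvd (by norm_num) h4
        omega
      · have h5 := (Fact.out : p.Prime).dvd_of_dvd_pow h4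
        have := Nat.le_of_dvd (by norm_num) h5
        omega)
    exact_mod_cast this
  have h9 : (9 : ℚ) / 50 ∈ ZL p := div_mem (by exact_mod_cast nat_mem (p := p) 9) hu50
  have h3 := h2.mul_left (9 / 50) h9
  refine h1.trans ((Cg.of_eq ?_).trans (h3.trans (Cg.of_eq ?_)))
  · ring
  · ring

end H48SC
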