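import Pool.Agent.H48SC.ExCalc

/-!
# Rising products `P x m`, and their `p`-adic expansions
-/

namespace H48SC

open Finset

theorem P_zero (x : ℚ) : P x 0 = 1 := by simp [P]

theorem P_succ (x : ℚ) (m : ℕ) : P x (m + 1) = P x m * (x + m) := by
  simp [P, Finset.prod_range_succ]

/-- `Finset.prod_range_add`. -/
theorem P_add (x : ℚ) (m r : ℕ) : P x (m + r) = P x m * P (x + m) r := by
  unfold P
  rw [Finset.prod_range_add]
  congr 1
  refine Finset.prod_congr rfl fun s _ => ?_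
  push_cast
  ring

theorem P_one (m : ℕ) : P 1 m = (m.factorial : ℚ) := by
  induction m with
  | zero => simp [P]
  | succ m ih =>
    rw [P_succ, ih, Nat.factorial_succ]
    push_cast
    ring

/-- Induction on `m`. -/
theorem P_neg (N m : ℕ) (h : m ≤ N) :
    P (-(N : ℚ)) m = (-1) ^ m * ((N.factorial : ℚ) / ((N - m).factorial : ℚ)) := by
  induction m with
  | zero =>
    have h0 : (N.factorial : ℚ) ≠ 0 := by exact_mod_cast N.factorial_ne_zero
    simp [P, h0]
  | succ m ih =>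
    rw [P_succ, ih (by omega)]
    obtain ⟨k, hk⟩ : ∃ k, N = m + 1 + k := ⟨N - (m + 1), by omega⟩
    have e1 : N - m = k + 1 := by omega
    have e2 : N - (m + 1) = k := by omega
    rw [e1, e2, Nat.factorial_succ]
    have h1 : (k.factorial : ℚ) ≠ 0 := by exact_mod_cast k.factorial_ne_zero
    have h2 : ((k : ℚ) + 1) ≠ 0 := by positivity
    have e3 : (N : ℚ) = m + 1 + k := by rw [hk]; push_cast; ring
    have e4 : (-(N : ℚ) + m) = -((k : ℚ) + 1) := by rw [e3]; ring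
    rw [e4]
    push_cast
    field_simp
    ring

theorem P_neg_zero (N m : ℕ) (h : N < m) : P (-(N : ℚ)) m = 0 := by
  unfold P
  exact Finset.prod_eq_zero (Finset.mem_range.2 h) (by ring)

/-- `(1/2)_m = (2m)!/(4^m m!)`. -/
theorem P_half (m : ℕ) :
    P (1 / 2) m * (4 ^ m * (m.factorial : ℚ)) = ((2 * m).factorial : ℚ) := by
  induction m with
  | zero => simp [P]
  | succ m ih =>
    have e : 2 * (m + 1) = 2 * m + 1 + 1 := by ring
    rw [P_succ, e, Nat.factorial_succ (2 * m + 1), Nat.factorial_succ (2 * m), Nat.factorial_succ m]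
    push_cast
    rw [← ih]
    ring

/-- `(2x)_{2m} = 4^m (x)_m (x+1/2)_m`. -/
theorem P_double (x : ℚ) (m : ℕ) :
    P (2 * x) (2 * m) = 4 ^ m * (P x m * P (x + 1 / 2) m) := by
  induction m with
  | zero => simp [P]
  | succ m ih =>
    have e : 2 * (m + 1) = 2 * m + 1 + 1 := by ring
    rw [e, P_succ, P_succ (2 * x), P_succ x, P_succ (x + 1 / 2), ih]
    push_cast
    ring

theorem P_ne_zero (x : ℚ) (m : ℕ) (h : ∀ s < m, x + s ≠ 0) : P x m ≠ 0 := by
  unfold P
  exact Finset.prod_ne_zero_iff.2 fun s hs => h s (Finset.mem_range.1 hs)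

section
variable {p : ℕ} [Fact p.Prime]

/-- `1/2 + s = (2s+1)/2` and `0 < 2s+1 < p`. -/
theorem un_half_add (hp : p ≠ 2) {s : ℕ} (hs : s < nn p) : Un p (1 / 2 + (s : ℚ)) := by
  have hs' : 2 * s + 1 < p := by
    unfold nn at hs
    omega
  have e : (1 / 2 + (s : ℚ)) = ((2 * s + 1 : ℕ) : ℚ) / 2 := by
    push_cast
    ring
  rw [e]
  exact (un_nat (Nat.not_dvd_of_pos_of_lt (Nat.succ_pos _) hs')).div (un_two_ex hp)

theorem un_one_add {s : ℕ} (hs : s + 1 < p) : Un p (1 + (s : ℚ)) := by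
  have e : (1 + (s : ℚ)) = ((s + 1 : ℕ) : ℚ) := by
    push_cast
    ring
  rw [e]
  exact un_nat (Nat.not_dvd_of_pos_of_lt (Nat.succ_pos _) hs)

private theorem un_one_add' {r s : ℕ} (hr : r < p) (hs : s ∈ range r) : Un p (1 + (s : ℚ)) := by
  refine un_one_add ?_
  have := Finset.mem_range.1 hs
  omega

private theorem un_half_add' (hp : p ≠ 2) {r s : ℕ} (hr : r ≤ nn p) (hs : s ∈ range r) :
    Un p (1 / 2 + (s : ℚ)) :=
  un_half_add hp (lt_of_lt_of_le (Finset.mem_range.1 hs) hr)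

/-- Expansion of `(1/2 + be p)_r` for `r ≤ (p-1)/2`: `Ex.base` and `Ex.prod`. -/
theorem Ex_half (hp : p ≠ 2) {be : ℚ} (hb : be ∈ ZL p) {r : ℕ} (hr : r ≤ nn p) :
    Ex p (P (1 / 2 + be * p) r) (P (1 / 2) r) (be * O1 r) (-(be ^ 2 * O2 r)) := by
  have h := Ex.prod hp (range r) (fun s : ℕ => (1 / 2 + (s : ℚ)) + p * be)
    (fun s : ℕ => (1 / 2 + (s : ℚ))) (fun s : ℕ => be / (1 / 2 + (s : ℚ)))
    (fun s : ℕ => -(be / (1 / 2 + (s : ℚ))) ^ 2) fun s hs => Ex.base (un_half_add' hp hr hs) hb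
  have e1 : P (1 / 2 + be * p) r = ∏ s ∈ range r, ((1 / 2 + (s : ℚ)) + p * be) := by
    unfold P
    exact Finset.prod_congr rfl fun s _ => by ring
  have e2 : be * O1 r = ∑ s ∈ range r, be / (1 / 2 + (s : ℚ)) := by
    unfold O1
    rw [Finset.mul_sum]
    exact Finset.sum_congr rfl fun s _ => by ring
  have e3 : -(be ^ 2 * O2 r) = ∑ s ∈ range r, -(be / (1 / 2 + (s : ℚ))) ^ 2 := by
    unfold O2
    rw [Finset.mul_sum, ← Finset.sum_neg_distrib]
    refine Finset.sum_congr rfl fun s _ => ?_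
    rw [div_pow]
    ring
  rw [e1, e2, e3]
  exact h

/-- Expansion of `(1 + be p)_r` for `r < p`: `Ex.base` and `Ex.prod`. -/
theorem Ex_one (hp : p ≠ 2) {be : ℚ} (hb : be ∈ ZL p) {r : ℕ} (hr : r < p) :
    Ex p (P (1 + be * p) r) (r.factorial : ℚ) (be * H r) (-(be ^ 2 * H2 r)) := by
  have h := Ex.prod hp (range r) (fun s : ℕ => (1 + (s : ℚ)) + p * be)
    (fun s : ℕ => (1 + (s : ℚ))) (fun s : ℕ => be / (1 + (s : ℚ)))
    (fun s : ℕ => -(be / (1 + (s : ℚ))) ^ 2) fun s hs => Ex.base (un_one_add' hr hs) hb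
  have e1 : P (1 + be * p) r = ∏ s ∈ range r, ((1 + (s : ℚ)) + p * be) := by
    unfold P
    exact Finset.prod_congr rfl fun s _ => by ring
  have e2 : be * H r = ∑ s ∈ range r, be / (1 + (s : ℚ)) := by
    unfold H
    rw [Finset.mul_sum]
    refine Finset.sum_congr rfl fun s _ => ?_
    rw [add_comm (1 : ℚ) (s : ℚ)]
    ring
  have e3 : -(be ^ 2 * H2 r) = ∑ s ∈ range r, -(be / (1 + (s : ℚ))) ^ 2 := by
    unfold H2
    rw [Finset.mul_sum, ← Finset.sum_neg_distrib]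
    refine Finset.sum_congr rfl fun s _ => ?_
    rw [add_comm (1 : ℚ) (s : ℚ), div_pow]
    ring
  rw [e1, e2, e3, ← P_one]
  exact h

theorem O1_mem (hp : p ≠ 2) {r : ℕ} (hr : r ≤ nn p) : O1 r ∈ ZL p := by
  refine sum_mem fun s hs => ?_
  rw [one_div]
  exact (un_half_add' hp hr hs).inv_mem

theorem O2_mem (hp : p ≠ 2) {r : ℕ} (hr : r ≤ nn p) : O2 r ∈ ZL p := by
  refine sum_mem fun s hs => ?_
  rw [one_div]
  exact ((un_half_add' hp hr hs).pow 2).inv_mem

theorem H_mem {r : ℕ} (hr : r < p) : H r ∈ ZL p := by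
  refine sum_mem fun s hs => ?_
  rw [one_div, add_comm]
  exact (un_one_add' hr hs).inv_mem

theorem H2_mem {r : ℕ} (hr : r < p) : H2 r ∈ ZL p := by
  refine sum_mem fun s hs => ?_
  rw [one_div, add_comm]
  exact ((un_one_add' hr hs).pow 2).inv_mem

theorem un_c (hp : p ≠ 2) {r : ℕ} (hr : r ≤ nn p) : Un p (c r) := by
  have hp0 : 0 < p := (Fact.out : p.Prime).pos
  have hr' : r < p := by
    unfold nn at hr
    omega
  have h1 : Un p (P (1 / 2) r) := Un.prod _ _ fun s hs => un_half_add' hp hr hs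
  have h2 : Un p (r.factorial : ℚ) := by
    rw [← P_one]
    exact Un.prod _ _ fun s hs => un_one_add' hr' hs
  unfold c
  exact (un_one.neg.pow r).mul ((h1.div h2).pow 3)

end

/-- `c_r = C(2r,r)^3/(-64)^r`, from `P_half`. -/
theorem c_eq (r : ℕ) : c r = ((-64 : ℚ) ^ r)⁻¹ * (Nat.choose (2 * r) r : ℚ) ^ 3 := by
  have h0 : (r.factorial : ℚ) ≠ 0 := by exact_mod_cast r.factorial_ne_zero
  have h4 : (4 : ℚ) ^ r ≠ 0 := by positivity
  have h1 : ((Nat.choose (2 * r) r : ℕ) : ℚ) * r.factorial * r.factorial =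
      ((2 * r).factorial : ℚ) := by
    have := Nat.choose_mul_factorial_mul_factorial (show r ≤ 2 * r by omega)
    have e : 2 * r - r = r := by omega
    rw [e] at this
    exact_mod_cast this
  have h2 : P (1 / 2) r / r.factorial = (Nat.choose (2 * r) r : ℚ) / 4 ^ r := by
    rw [div_eq_div_iff h0 h4]
    have h3 := P_half r
    rw [← h1] at h3
    have h5 : (P (1 / 2) r * 4 ^ r) * (r.factorial : ℚ) =
        ((Nat.choose (2 * r) r : ℚ) * r.factorial) * r.factorial := by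
      linear_combination h3
    exact mul_right_cancel₀ h0 h5
  unfold c
  rw [h2, div_pow]
  have e1 : ((-64 : ℚ) ^ r)⁻¹ = (-1) ^ r * ((4 ^ r) ^ 3)⁻¹ := by
    have e2 : (-64 : ℚ) ^ r = (-1) ^ r * (4 ^ r) ^ 3 := by
      rw [← pow_mul, mul_comm r 3, pow_mul, ← mul_pow]
      norm_num
    rw [e2, mul_inv, ← inv_pow]
    norm_num
  rw [e1, div_eq_mul_inv]
  ring

end H48SC
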