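import Pool.Agent.H48SC.PLem

/-!
# The Pfaff-Saalschuetz identity, division free
-/

namespace H48SC

open Finset

private lemma P_cons (x : ℚ) (m : ℕ) : P x (m + 1) = x * P (x + 1) m := by
  unfold P
  rw [Finset.prod_range_succ', mul_comm]
  congr 1
  · simp
  · refine Finset.prod_congr rfl fun s _ => ?_
    push_cast
    ring

/-- the telescoping certificate -/
private def gg (n : ℕ) (a b c : ℚ) : ℕ → ℚ
  | 0 => 0
  | j + 1 => -((n.choose j : ℚ) * P a (j + 1) * P b (j + 1) * P (c + j) (n - j) *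
      P (c - a - b) (n - j))

private lemma step (n : ℕ) (a b c : ℚ) (j : ℕ) (hj : j ≤ n) :
    ((n + 1).choose j : ℚ) * P a j * P b j * P (c + j) (n + 1 - j) * P (c - a - b) (n + 1 - j) -
      (c - a + n) * (c - b + n) * ((n.choose j : ℚ) * P a j * P b j * P (c + j) (n - j) *
        P (c - a - b) (n - j)) = gg n a b c (j + 1) - gg n a b c j := by
  cases j with
  | zero =>
    simp only [gg, Nat.choose_zero_right, Nat.sub_zero, P_succ, P_zero, Nat.cast_zero,
      Nat.cast_one, add_zero]
    ring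
  | succ i =>
    obtain ⟨m, rfl⟩ : ∃ m, n = i + 1 + m := ⟨n - (i + 1), by omega⟩
    have e1 : i + 1 + m + 1 - (i + 1) = m + 1 := by omega
    have e2 : i + 1 + m - (i + 1) = m := by omega
    have e3 : i + 1 + m - i = m + 1 := by omega
    have hc : ((i + 1 + m).choose i : ℚ) * (m + 1) = ((i + 1 + m).choose (i + 1) : ℚ) * (i + 1) := by
      have h := Nat.choose_succ_right_eq (i + 1 + m) i
      rw [e3] at h
      exact_mod_cast h.symm
    have hs : ((i + 1 + m + 1).choose (i + 1) : ℚ) =
        ((i + 1 + m).choose i : ℚ) + ((i + 1 + m).choose (i + 1) : ℚ) := by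
      exact_mod_cast Nat.choose_succ_succ (i + 1 + m) i
    have hP : P (c + i) (m + 1) = (c + i) * P (c + ((i + 1 : ℕ) : ℚ)) m := by
      rw [P_cons]
      congr 2
      push_cast
      ring
    simp only [gg]
    rw [e1, e2, e3, hs, hP, P_succ a (i + 1), P_succ b (i + 1),
      P_succ (c + ((i + 1 : ℕ) : ℚ)) m, P_succ (c - a - b) m]
    push_cast
    generalize P a (i + 1) = A
    generalize P b (i + 1) = B
    generalize P (c + ((i : ℚ) + 1)) m = C
    generalize P (c - a - b) m = D
    generalize ((i + 1 + m).choose i : ℚ) = u at *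
    generalize ((i + 1 + m).choose (i + 1) : ℚ) = v at *
    linear_combination (A * B * C * D * (c - a - b + m)) * hc

/-- Induction on `n`: put `t n j = C(n,j) (a)_j (b)_j (c+j)_{n-j} (d)_{n-j}`, `d = c - a - b`, and
`g j = - C(n,j-1) (a)_j (b)_j (c+j-1)_{n+1-j} (d)_{n+1-j}` for `1 ≤ j ≤ n+1`, `g 0 = 0`. Then for
`0 ≤ j ≤ n`:  `t (n+1) j - (c-a+n)(c-b+n) t n j = g (j+1) - g j`
(divide by `(a)_j (b)_j (c+j)_{n-j} (d)_{n-j}`; use `C(n+1,j) = C(n,j) + C(n,j-1)`,
`C(n,j-1) (n-j+1) = C(n,j) j` and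
`(c+n)(d+n-j) - (c-a+n)(c-b+n) + (a+j)(b+j) + j (d+n-j) = 0`),
and `t (n+1) (n+1) = - g (n+1)`. Summing over `j` (telescoping, `Finset.sum_range_sub`) gives
`sum_j t (n+1) j = (c-a+n)(c-b+n) sum_j t n j`. -/
theorem saal (n : ℕ) (a b c : ℚ) :
    ∑ j ∈ range (n + 1), (n.choose j : ℚ) * P a j * P b j * P (c + j) (n - j) *
      P (c - a - b) (n - j) = P (c - a) n * P (c - b) n := by
  induction n with
  | zero => simp [P_zero]
  | succ n ih =>
    have h1 : ∑ j ∈ range (n + 1), (((n + 1).choose j : ℚ) * P a j * P b j *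
        P (c + j) (n + 1 - j) * P (c - a - b) (n + 1 - j)) =
        (c - a + n) * (c - b + n) * ∑ j ∈ range (n + 1), (n.choose j : ℚ) * P a j * P b j *
          P (c + j) (n - j) * P (c - a - b) (n - j) + gg n a b c (n + 1) := by
      have h2 : ∑ j ∈ range (n + 1), (gg n a b c (j + 1) - gg n a b c j) = gg n a b c (n + 1) := by
        rw [Finset.sum_range_sub]
        simp [gg]
      rw [← h2, Finset.mul_sum, ← Finset.sum_add_distrib]
      refine Finset.sum_congr rfl fun j hj => ?_
      rw [← step n a b c j (by have := Finset.mem_range.1 hj; omega)]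
      ring
    rw [Finset.sum_range_succ, h1, ih, P_succ (c - a) n, P_succ (c - b) n]
    simp only [gg, Nat.sub_self, P_zero, Nat.choose_self, Nat.cast_one]
    ring

end H48SC
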