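import Pool.Agent.H48SC.TI

/-!
# Splitting the left hand side into blocks
author: helper74
-/

namespace H48SC

open Finset

variable {p : ℕ} [Fact p.Prime]

/-- By `P_add`: `P (1/2 + al p) (i p + r) = P (1/2 + al p) (i p) P (1/2 + (al+i) p) r` etc. -/
theorem F_split (hp : p ≠ 2) (al : ℚ) (i r : ℕ) :
    F p al (i * p + r) = F p al (i * p) * ((-1) ^ r * P (1 / 2 + (al + i) * p) r *
      P (1 / 2 + i * p) r ^ 2 / (P (1 + i * p) r * P (1 + (al / 2 + i) * p) r ^ 2)) := by
  have e1 : (1 / 2 + al * p + ((i * p : ℕ) : ℚ)) = 1 / 2 + (al + i) * p := by push_cast; ring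
  have e2 : (1 / 2 + ((i * p : ℕ) : ℚ)) = 1 / 2 + i * p := by push_cast; ring
  have e3 : (1 + ((i * p : ℕ) : ℚ)) = 1 + i * p := by push_cast; ring
  have e4 : (1 + al / 2 * p + ((i * p : ℕ) : ℚ)) = 1 + (al / 2 + i) * p := by push_cast; ring
  unfold F
  rw [P_add, P_add, P_add, P_add, e1, e2, e3, e4, pow_add]
  ring

private theorem half_mem_sp (hp : p ≠ 2) : (1 / 2 : ℚ) ∈ ZL p := by
  have h : ¬ p ∣ 2 := by
    intro h
    exact hp ((Nat.prime_dvd_prime_iff_eq (Fact.out : p.Prime) Nat.prime_two).1 h)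
  have h2 : Un p (2 : ℚ) := by exact_mod_cast un_nat h
  rw [one_div]
  exact h2.inv_mem

private theorem P_mem {x : ℚ} (hx : x ∈ ZL p) (r : ℕ) : P x r ∈ ZL p := by
  unfold P
  exact prod_mem fun s _ => add_mem hx (nat_mem s)

private theorem P_num (hp : p ≠ 2) {be : ℚ} (hb : be ∈ ZL p) {r : ℕ} (hr : nn p < r) :
    ∃ z ∈ ZL p, P (1 / 2 + be * p) r = p * z := by
  obtain ⟨t, rfl⟩ : ∃ t, r = (nn p + 1) + t := ⟨r - (nn p + 1), by omega⟩
  have hodd : p % 2 = 1 := by
    rcases (Fact.out : p.Prime).eq_two_or_odd with h | h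
    · exact absurd h hp
    · exact h
  have hn : ((nn p : ℕ) : ℚ) = ((p : ℚ) - 1) / 2 := by
    have h1 : 2 * nn p + 1 = p := by unfold nn; omega
    have h2 : (2 : ℚ) * (nn p : ℕ) + 1 = p := by exact_mod_cast h1
    linarith
  have hx : (1 / 2 + be * p : ℚ) ∈ ZL p := add_mem (half_mem_sp hp) (mul_mem hb (nat_mem p))
  refine ⟨P (1 / 2 + be * p) (nn p) * (be + 1 / 2) *
    P (1 / 2 + be * p + ((nn p + 1 : ℕ) : ℚ)) t, ?_, ?_⟩
  · exact mul_mem (mul_mem (P_mem hx _) (add_mem hb (half_mem_sp hp)))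
      (P_mem (add_mem hx (nat_mem _)) _)
  · rw [P_add, P_succ]
    have e : (1 / 2 + be * p + ((nn p : ℕ) : ℚ)) = p * (be + 1 / 2) := by
      rw [hn]
      ring
    rw [e]
    ring

private theorem P_den {be : ℚ} (hb : be ∈ ZL p) {r : ℕ} (hr : r < p) :
    Un p (P (1 + be * p) r) := by
  unfold P
  refine Un.prod _ _ fun s hs => ?_
  have hs' := Finset.mem_range.1 hs
  have h1 : Un p (1 + (s : ℚ)) := un_one_add (by omega)
  have e : (1 + be * p + (s : ℚ)) = (1 + (s : ℚ)) + p * be := by ring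
  rw [e]
  exact h1.add_p hb

private theorem term_zero (hp : p ≠ 2) {al be : ℚ} (ha : al ∈ ZL p) (hb : be ∈ ZL p) (i : ℕ)
    {r : ℕ} (h1 : nn p < r) (h2 : r < p) :
    Cg p 3 ((-1) ^ r * P (1 / 2 + (al + i) * p) r *
      P (1 / 2 + i * p) r ^ 2 / (P (1 + i * p) r * P (1 + (be + i) * p) r ^ 2)) 0 := by
  obtain ⟨z1, hz1, e1⟩ := P_num hp (add_mem ha (nat_mem i)) h1
  obtain ⟨z2, hz2, e2⟩ := P_num hp (be := (i : ℚ)) (nat_mem i) h1
  have u1 : Un p (P (1 + (i : ℚ) * p) r) := P_den (nat_mem i) h2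
  have u2 : Un p (P (1 + (be + i) * p) r) := P_den (add_mem hb (nat_mem i)) h2
  rw [e1, e2]
  refine ⟨(-1) ^ r * z1 * z2 ^ 2 / (P (1 + i * p) r * P (1 + (be + i) * p) r ^ 2), ?_, ?_⟩
  · refine div_mem (mul_mem (mul_mem ?_ hz1) (pow_mem hz2 2)) (u1.mul (u2.pow 2))
    exact pow_mem (neg_mem (one_mem _)) r
  · ring

private theorem sum_blocks (f : ℕ → ℚ) (q n : ℕ) :
    ∑ m ∈ range (n * q), f m = ∑ i ∈ range n, ∑ r ∈ range q, f (i * q + r) := by
  induction n with
  | zero => simp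
  | succ n ih =>
    rw [Nat.succ_mul, Finset.sum_range_add, ih, Finset.sum_range_succ]

/-- For `nn p < r < p` the numerator of the second factor is `p^3` times an integral number (the
factor number `nn p` of `P (1/2 + be p) r` is `p (be + 1/2)`), and the denominators are units. For
`r ≤ nn p` sum up. `range ((k+1) p)` is split into blocks by induction on `k`
(`Finset.sum_range_add` or `Finset.prod_range_add`), see `F_split`, `F_mem`. -/
theorem split (hp : 5 < p) {k : ℕ} (hk : k ≤ 2) :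
    Cg p 3 (∑ m ∈ range ((k + 1) * p), F p (alk k) m)
      (∑ i ∈ range (k + 1), F p (alk k) (i * p) * Psi p (alk k) i) := by
  have hp2 : p ≠ 2 := by omega
  have hal : alk k ∈ ZL p := by
    have e : alk k = -(1 / 2) - (k : ℚ) := by unfold alk; ring
    rw [e]
    exact sub_mem (neg_mem (half_mem_sp hp2)) (nat_mem k)
  have hbe : alk k / 2 ∈ ZL p := by
    have e : alk k / 2 = alk k * (1 / 2) := by ring
    rw [e]
    exact mul_mem hal (half_mem_sp hp2)
  rw [sum_blocks]
  refine Cg.sum _ _ _ fun i hi => ?_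
  have hi' : i ≤ k := by
    have := Finset.mem_range.1 hi
    omega
  have hF := F_mem hp hi' hk
  obtain ⟨t, ht⟩ : ∃ t, p = (nn p + 1) + t := ⟨p - (nn p + 1), by unfold nn; omega⟩
  have hs : ∑ r ∈ range p, F p (alk k) (i * p + r) =
      ∑ r ∈ range (nn p + 1), F p (alk k) (i * p + r) +
        ∑ r ∈ range t, F p (alk k) (i * p + ((nn p + 1) + r)) := by
    have h0 : range p = range ((nn p + 1) + t) := by rw [← ht]
    rw [h0, Finset.sum_range_add]
  rw [hs]
  have h1 : Cg p 3 (∑ r ∈ range (nn p + 1), F p (alk k) (i * p + r))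
      (F p (alk k) (i * p) * Psi p (alk k) i) := by
    refine Cg.of_eq ?_
    unfold Psi
    rw [Finset.mul_sum]
    exact Finset.sum_congr rfl fun r _ => F_split hp2 (alk k) i r
  have h2 : Cg p 3 (∑ r ∈ range t, F p (alk k) (i * p + ((nn p + 1) + r))) 0 := by
    have h3 := Cg.sum (p := p) (k := 3) (range t)
      (fun r => F p (alk k) (i * p + ((nn p + 1) + r))) (fun _ => 0) (fun r hr => ?_)
    · simpa using h3
    · have hr' := Finset.mem_range.1 hr
      rw [F_split hp2]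
      have h4 := (term_zero hp2 hal hbe i (r := (nn p + 1) + r) (by omega) (by omega)).mul_left _ hF
      rwa [mul_zero] at h4
  have h5 := h1.add h2
  rwa [add_zero] at h5

end H48SC
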