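import Pool.Agent.H48SC.Blocks

/-!
# The terms F p (alk k) (i p)
-/

namespace H48SC

open Finset

/-- `C(k,i) ((1/2)_i/(3/4-k/2)_i)^2`. -/
def wt (k i : ℕ) : ℚ := (k.choose i : ℚ) * (P (1 / 2) i / P (3 / 4 - (k : ℚ) / 2) i) ^ 2

theorem wt_vals : wt 0 0 = 1 ∧ wt 1 0 = 1 ∧ wt 1 1 = 4 ∧ wt 2 0 = 1 ∧ wt 2 1 = 8 ∧ wt 2 2 = 16 := by
  refine ⟨?_, ?_, ?_, ?_, ?_, ?_⟩ <;> norm_num [wt, P, Finset.prod_range_succ, Nat.choose]

variable {p : ℕ} [Fact p.Prime]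

private theorem half_mem_ti (hp : p ≠ 2) : (1 / 2 : ℚ) ∈ ZL p := by
  have h : ¬ p ∣ 2 := by
    intro h
    exact hp ((Nat.prime_dvd_prime_iff_eq (Fact.out : p.Prime) Nat.prime_two).1 h)
  have h2 : Un p (2 : ℚ) := by exact_mod_cast un_nat h
  rw [one_div]
  exact h2.inv_mem

private theorem wt_mem {k i : ℕ} (hi : i ≤ k) (hk : k ≤ 2) : wt k i ∈ ZL p := by
  obtain ⟨h1, h2, h3, h4, h5, h6⟩ := wt_vals
  have hn : ∀ m : ℕ, (m : ℚ) ∈ ZL p := fun m => nat_mem m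
  interval_cases k <;> interval_cases i
  · rw [h1]; exact_mod_cast hn 1
  · rw [h2]; exact_mod_cast hn 1
  · rw [h3]; exact_mod_cast hn 4
  · rw [h4]; exact_mod_cast hn 1
  · rw [h5]; exact_mod_cast hn 8
  · rw [h6]; exact_mod_cast hn 16

private theorem neg_one_pow_mul (hp : p ≠ 2) (i : ℕ) : (-1 : ℚ) ^ (i * p) = (-1) ^ i := by
  have ho : Odd p := (Fact.out : p.Prime).odd_of_ne_two hp
  rw [mul_comm, pow_mul, ho.neg_one_pow]

private theorem alg_id (s q A B C D G1 G2 K1 K2 : ℚ) (hq : q ≠ 0) :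
    s * (q * A * G1) * (q * B * G2) ^ 2 / ((q * C * K1) * (q * D * K2) ^ 2) =
      (s * A / C) * (B / D) ^ 2 * (G1 * G2 ^ 2 / (K1 * K2 ^ 2)) := by
  have e : s * (q * A * G1) * (q * B * G2) ^ 2 / ((q * C * K1) * (q * D * K2) ^ 2) =
      (q ^ 3 / q ^ 3) * ((s * A / C) * (B / D) ^ 2 * (G1 * G2 ^ 2 / (K1 * K2 ^ 2))) := by
    ring
  rw [e, div_self (pow_ne_zero 3 hq), one_mul]

private theorem choose_id {k i : ℕ} (hi : i ≤ k) :
    (-1 : ℚ) ^ i * P (-(k : ℚ)) i / P 1 i = (k.choose i : ℚ) := by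
  rw [P_neg k i hi, P_one, Nat.cast_choose ℚ hi, ← mul_assoc, ← mul_pow]
  norm_num
  rw [div_div, mul_comm]

/-- Exact formula. By `blocks_half`, `blocks_one` (all powers of `p` cancel: `p^(3i)/p^(3i)`;
`1 = 1 + 0 * p`, `1/2 = 1/2 + 0 * p`):
`F = (-1)^(i p) P(al+1/2) i P(1/2) i^2/(P 1 i P(al/2+1) i^2)
   * prod_{l<i} Gb(al+l) Gb(l)^2/(Kb(l) Kb(al/2+l)^2)`,
with `al = alk k = -1/2-k`: `al + 1/2 = -k`, `(-1)^(ip) = (-1)^i` (`p` odd) and
`(-1)^i P (-k) i / P 1 i = C(k,i)` (`P_neg`, `P_one`), `al/2+1 = 3/4 - k/2`. -/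
theorem F_exact (hp : p ≠ 2) {k i : ℕ} (hi : i ≤ k) (hk : k ≤ 2) :
    F p (alk k) (i * p) = wt k i * ∏ l ∈ range i,
      (Gb p (alk k + l) * Gb p l ^ 2 / (Kb p l * Kb p (alk k / 2 + l) ^ 2)) := by
  have hq : (p : ℚ) ^ i ≠ 0 :=
    pow_ne_zero i (by exact_mod_cast (Fact.out : p.Prime).ne_zero)
  have h1 := blocks_half hp (alk k) i
  have h2 := blocks_half hp 0 i
  have h3 := blocks_one (p := p) 0 i
  have h4 := blocks_one (p := p) (alk k / 2) i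
  simp only [zero_mul, add_zero, zero_add] at h2 h3
  have e1 : alk k + 1 / 2 = -(k : ℚ) := by unfold alk; ring
  have e4 : alk k / 2 + 1 = 3 / 4 - (k : ℚ) / 2 := by unfold alk; ring
  rw [e1] at h1
  rw [e4] at h4
  unfold F
  rw [h1, h2, h3, h4, neg_one_pow_mul hp, alg_id _ _ _ _ _ _ _ _ _ _ hq, choose_id hi,
    Finset.prod_div_distrib, Finset.prod_mul_distrib, Finset.prod_mul_distrib, Finset.prod_pow,
    Finset.prod_pow]
  rfl

private theorem fact_un {m : ℕ} (h : m < p) : Un p (m.factorial : ℚ) := by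
  refine un_nat fun h1 => ?_
  have := ((Fact.out : p.Prime).dvd_factorial).1 h1
  omega

private theorem nn_lt : nn p < p := by
  have := (Fact.out : p.Prime).pos
  unfold nn
  omega

private theorem g_un : Un p ((-1) ^ nn p * ((nn p).factorial : ℚ) ^ 2) :=
  (un_one.neg.pow _).mul ((fact_un nn_lt).pow 2)

private theorem f_un : Un p ((p - 1).factorial : ℚ) :=
  fact_un (by have := (Fact.out : p.Prime).pos; omega)

private theorem factor_cg (hp : 3 < p) {al be : ℚ} (ha : al ∈ ZL p) (hb : be ∈ ZL p) (l : ℕ) :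
    Cg p 3 (Gb p (al + l) * Gb p l ^ 2 / (Kb p l * Kb p (be + l) ^ 2)) (om p ^ 3) := by
  have hl : (l : ℚ) ∈ ZL p := nat_mem l
  have g1 := Gb_cg hp (add_mem ha hl)
  have g2 := Gb_cg hp hl
  have k1 := Kb_cg hp hl
  have k2 := Kb_cg hp (add_mem hb hl)
  have hg := g_un (p := p)
  have hf := f_un (p := p)
  have n1 : Cg p 3 (Gb p (al + l) * Gb p l ^ 2)
      (((-1) ^ nn p * ((nn p).factorial : ℚ) ^ 2) *
        ((-1) ^ nn p * ((nn p).factorial : ℚ) ^ 2) ^ 2) :=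
    g1.mul (g2.pow hg.mem 2) (g1.mem hg.mem) (pow_mem hg.mem 2)
  have d1 : Cg p 3 (Kb p l * Kb p (be + l) ^ 2)
      (((p - 1).factorial : ℚ) * ((p - 1).factorial : ℚ) ^ 2) :=
    k1.mul (k2.pow hf.mem 2) (k1.mem hf.mem) (pow_mem hf.mem 2)
  have ud : Un p (((p - 1).factorial : ℚ) * ((p - 1).factorial : ℚ) ^ 2) := hf.mul (hf.pow 2)
  have un : Un p (Kb p l * Kb p (be + l) ^ 2) := Cg.un (k := 2) d1 ud
  have h := n1.div d1 (n1.mem (mul_mem hg.mem (pow_mem hg.mem 2))) un ud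
  refine h.trans (Cg.of_eq ?_)
  unfold om
  ring

/-- Each factor of the product in `F_exact` is `om p ^ 3` mod `p^3` by `Gb_cg`, `Kb_cg`
(`Cg.div`; `n!` and `(p-1)!` are units), and `om p ^ (3i)` has the expansion
`Ex p _ 1 (3 i H n) 0` by `Ex_om`, `Ex.pow`. The values `wt k i` are `1, 4, 8, 16`
(integral). -/
theorem F_cg (hp : 5 < p) {k i : ℕ} (hi : i ≤ k) (hk : k ≤ 2) :
    Cg p 3 (F p (alk k) (i * p))
      (wt k i * (1 + 3 * i * p * H (nn p) + 9 / 2 * i ^ 2 * p ^ 2 * H (nn p) ^ 2)) := by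
  have hp2 : p ≠ 2 := by omega
  have hp3 : 3 < p := by omega
  rw [F_exact hp2 hi hk]
  refine Cg.mul_left _ (wt_mem hi hk) ?_
  have ho := Ex_om (p := p) hp3
  have hom : om p ∈ ZL p := ho.mem hp2
  have hal : alk k ∈ ZL p := by
    have e : alk k = -(1 / 2) - (k : ℚ) := by unfold alk; ring
    rw [e]
    exact sub_mem (neg_mem (half_mem_ti hp2)) (nat_mem k)
  have hbe : alk k / 2 ∈ ZL p := by
    have e : alk k / 2 = alk k * (1 / 2) := by ring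
    rw [e]
    exact mul_mem hal (half_mem_ti hp2)
  have h1 : Cg p 3 (∏ l ∈ range i,
      (Gb p (alk k + l) * Gb p l ^ 2 / (Kb p l * Kb p (alk k / 2 + l) ^ 2)))
      (∏ _l ∈ range i, om p ^ 3) :=
    Cg.prod _ _ _ (fun l _ => factor_cg hp3 hal hbe l) (fun _ _ => pow_mem hom 3)
  refine h1.trans ?_
  rw [Finset.prod_const, Finset.card_range, ← pow_mul]
  refine ((ho.pow hp2 (3 * i)).2.2.2).trans (Cg.of_eq ?_)
  push_cast
  rw [one_pow]
  ring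

theorem F_mem (hp : 5 < p) {k i : ℕ} (hi : i ≤ k) (hk : k ≤ 2) :
    F p (alk k) (i * p) ∈ ZL p := by
  have hp2 : p ≠ 2 := by omega
  refine (F_cg hp hi hk).mem (mul_mem (wt_mem hi hk) ?_)
  have hH : H (nn p) ∈ ZL p := H_mem nn_lt
  have h3 : (p : ℚ) ∈ ZL p := nat_mem p
  have hi' : (i : ℚ) ∈ ZL p := nat_mem i
  have hn3 : (3 : ℚ) ∈ ZL p := by exact_mod_cast nat_mem (p := p) 3
  have hn9 : (9 / 2 : ℚ) ∈ ZL p := by
    have e : (9 / 2 : ℚ) = ((9 : ℕ) : ℚ) * (1 / 2) := by norm_num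
    rw [e]
    exact mul_mem (nat_mem 9) (half_mem_ti hp2)
  refine add_mem (add_mem (one_mem _) ?_) ?_
  · exact mul_mem (mul_mem (mul_mem hn3 hi') h3) hH
  · exact mul_mem (mul_mem (mul_mem hn9 (pow_mem hi' 2)) (pow_mem h3 2)) (pow_mem hH 2)

end H48SC
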